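import Pool.Agent.P.MP_2cea5e_gt.III.Bridge

/-!
Chapter III: the flow as a system in the patches.
-/

open scoped ContDiff ComplexOrder Matrix Topology
open MeasureTheory Set Filter

noncomputable section

namespace Pool.Agent.P.MP_2cea5e_gt.III

open II

namespace FinP

variable {ι α : Type} {m : ι → Matrix (Fin 2) (Fin 2) ℤ}

theorem gl_sum [Fintype α] {u : α → ι → Fn} (h : ∀ b, Gl m (u b)) :
    Gl m fun τ z => ∑ b, u b τ z :=
  ⟨fun τ => sm_sum _ fun b _ => (h b).sm τ,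
    fun τ θ z hθ => Finset.sum_congr rfl fun b _ => (h b).inv τ θ z hθ,
    fun σ τ w hw => Finset.sum_congr rfl fun b _ => (h b).glue σ τ w hw⟩

theorem gl_comb {u v : ι → Fn} (c : ℝ) (h : Gl m u) (h' : Gl m v) :
    Gl m fun τ z => 16 * (u τ z + v τ z) - c :=
  ⟨fun τ => (contDiff_const.mul ((h.sm τ).add (h'.sm τ))).sub contDiff_const,
    fun τ θ z hθ => by simp only [h.inv τ θ z hθ, h'.inv τ θ z hθ],
    fun σ τ w hw => by simp only [h.glue σ τ w hw, h'.glue σ τ w hw]⟩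

theorem small {K : Set C2} {n k : ℕ} {F : (α → Fn) → Fn} (h : Ord (US α 1) K n F)
    (hk : k + n ≤ 2) (h0 : F 0 = 0) {e : ℝ} (he : 0 < e) :
    ∀ᶠ η in 𝓝[>] (0 : ℝ), ∀ V ∈ US α η, Nb K k (F V) e := by
  obtain ⟨C, c0, c⟩ := h.lip k 1
  have h1 : ∀ᶠ η in 𝓝 (0 : ℝ), C * η < e :=
    (continuous_const.mul continuous_id).continuousAt.eventually_lt continuousAt_const
      (by simpa using he)
  filter_upwards [nhdsWithin_le_nhds h1, Ioo_mem_nhdsGT zero_lt_one] with η hη h2 V hV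
  have := c V (US.mono h2.2.le hV) 0 (US.zero zero_le_one) (hV.2.mono hk h2.2.le)
    (fun _ => Nb.zero zero_le_one) η h2.1.le (by rw [sub_zero]; exact hV.2.ord hk)
  rw [h0, sub_zero] at this
  exact this.le hη.le

theorem piO_sum [Fintype α] (f : Fn) {u : α → Fn} (h : ∀ b, SmC (u b)) (z : C2) :
    PiO f (fun z => ∑ b, u b z) z = ∑ b, PiO f (u b) z := by
  simp only [PiO, Ee_sum _ _ fun b _ => h b, Ee_sum _ _ fun b _ => sm_Ee _ (h b), Finset.mul_sum]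
  rw [Finset.sum_comm (s := Finset.univ (α := α))]
  exact Finset.sum_congr rfl fun i _ => Finset.sum_comm

end FinP

open FinP

theorem fin (hI : S_Iter) (hC : S_Coef) (hP : S_Pat) (hA : S_Avg) (h1 : S_Sys1) (h2 : S_Sys2)
    (hS : S_ScP) (hp : S_Pos) (hsc : S_Scal) (hE : S_End) : S_Fin := by
  intro ι _ m ψ c hm hK
  obtain ⟨d', hd', HI⟩ := hI
  obtain ⟨d, hd, HC⟩ := hC d' hd'
  have hAdm : ∀ σ, Adm (ψ σ) := fun σ => ⟨hK.smooth σ, hK.pos σ⟩
  obtain ⟨α, _, ⟨P⟩⟩ := hP ι ψ (d / 2) (half_pos hd) hAdm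
  obtain ⟨Av, hAv⟩ := hA
  have Sy := h1 ι α m ψ _ P Av hm hAv
  obtain ⟨ε, hε, Hp⟩ := hp ι m ψ hm.toIsFan hK
  obtain ⟨φ, hφ⟩ : ∃ φ : (α → Fn) → ι → Fn, φ = fun V τ z => ∑ b, P.E m Av b (V b) τ z := ⟨_, rfl⟩
  have sA : ∀ a, ContDiff ℝ ∞ (P.A a) := fun a => sm_aff' _ _
  have o0 : ∀ η τ, OL (US α η) 0 fun V => φ V τ := fun η τ => by
    rw [hφ]
    exact OL.sum _ fun b _ => Sy.ol b τ _ 0 _ (OL.coord (fun _ h => US.sm h) b)
  have z0 : φ 0 = 0 := by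
    rw [hφ]
    funext τ z
    refine Finset.sum_eq_zero fun b _ => ?_
    have := congrFun (Sy.smul b 0 τ 0) z
    simpa using this
  have g0 : ∀ η, ∀ V ∈ US α η, Gl m (φ V) := fun η V hV => by
    rw [hφ]
    exact gl_sum fun b => Sy.gl b _ (US.sm hV b)
  have e1 : ∀ᶠ η in 𝓝[>] (0 : ℝ), ∀ τ, ∀ V ∈ US α η, Nb (cb 1) 2 (φ V τ) ε :=
    eventually_all.2 fun τ => small (o0 1 τ 1) le_rfl (by rw [z0]; rfl) hε
  have e2 : ∀ᶠ η in 𝓝[>] (0 : ℝ), ∀ a i, ∀ V ∈ US α η,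
      Nb (cb 1) 0 (Ee i (φ V (P.σ a) ∘ P.A a)) (d / 2) :=
    eventually_all.2 fun a => eventually_all.2 fun i =>
      small ((((o0 1 _).comp (sA a)).Ee i) 1) le_rfl (by rw [z0]; exact Ee_const i 0) (half_pos hd)
  obtain ⟨η, ⟨E1, E2⟩, hη⟩ := ((e1.and e2).and self_mem_nhdsWithin).exists
  replace hη : 0 < η := hη
  have pos := fun V hV => Hp (φ V) (g0 η V hV) fun σ => E1 σ V hV
  have tk : ∀ V ∈ US α η, IsToricKaehler m fun σ => ψ σ + φ V σ := fun V hV =>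
    tk_gl hK (g0 η V hV) fun σ z => (pos V hV σ z).1
  have Sc := fun τ => hS α (US α η) (ψ τ) (fun V => φ V τ) (hAdm τ) (o0 η τ) fun V hV =>
    ⟨⟨(tk V hV).smooth τ, (tk V hV).pos τ⟩, fun z => (pos V hV τ z).2⟩
  have Co := fun a => HC α (US α η) (P.ρ a) (fun V => (ψ (P.σ a) + φ V (P.σ a)) ∘ P.A a)
    (P.smρ a) (P.csρ a) (P.ρ0 a) (P.ρ1 a)
    (((OL.const (hK.smooth _)).add (o0 η _)).comp (sA a)) fun V hV y hy i => by
      have b1 := P.flat a y hy i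
      have b2 := (E2 a i V hV).zero' (mem_cb.2 (not_lt.1 fun h => hy (P.csρ a y h)))
      have e := congrFun (Ee_add i ((hK.smooth (P.σ a)).comp (sA a))
        (((g0 η V hV).sm (P.σ a)).comp (sA a))) y
      change Ee i ((ψ (P.σ a) + φ V (P.σ a)) ∘ P.A a) y = _ at e
      rw [e, Pi.add_apply, add_sub_right_comm]
      exact (abs_add_le _ _).trans ((add_le_add b1 b2).trans_eq (add_halves d))
  obtain ⟨T, hT⟩ : ∃ T : (α → Fn) → α → Fn,
    T = fun V b => At (P.ρ b) ((ψ (P.σ b) + φ V (P.σ b)) ∘ P.A b) (V b) := ⟨_, rfl⟩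
  have sT : ∀ V ∈ US α η, ∀ b, SmC (T V b) := fun V hV b => by
    rw [hT]; exact ((Co b).2.2 V hV _ (US.sm hV b)).1
  obtain ⟨H, hH⟩ : ∃ H : (α → Fn) → ι → Fn, H = fun V τ z =>
    16 * (scal (ψ τ + φ V τ) z + ∑ b, P.E m Av b (T V b) τ z) - c := ⟨_, rfl⟩
  have gH : ∀ V ∈ US α η, Gl m (H V) := fun V hV => by
    rw [hH]
    exact gl_comb c (hsc ι m _ hm.toIsFan (tk V hV)) (gl_sum fun b => Sy.gl b _ (sT V hV b))
  have oH : ∀ τ, OL (US α η) 3 fun V => H V τ := fun τ => by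
    refine ((((Sc τ).2.add' (OL.sum Finset.univ fun b _ => h2 ι α m ψ _ P Av hm hAv b τ _
      (fun V σ => ψ σ + φ V σ) (fun V => V b) tk (fun σ => (Sc σ).1)
      (OL.coord (fun _ h => US.sm h) b))).cmul 16).sub' (OL.cst c)).congr' fun V hV => ?_
    funext z
    have e : ∀ b, P.E m Av b (T V b) τ =
        P.E m Av b (PiO ((ψ (P.σ b) + φ V (P.σ b)) ∘ P.A b) (V b)) τ := fun b => by
      unfold Pat.E
      congr 3
      funext y
      by_cases hy : P.β b y = 0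
      · simp only [Pi.mul_apply, hy, zero_mul]
      · rw [hT, Pi.mul_apply, Pi.mul_apply]
        exact congrArg _ (((Co b).2.2 V hV _ (US.sm hV b)).2.2 y (P.βρ b y hy))
    have e' : PiO (ψ τ + φ V τ) (φ V τ) z = ∑ b, PiO (ψ τ + φ V τ) (P.E m Av b (V b) τ) z := by
      rw [← piO_sum _ fun b => (Sy.gl b _ (US.sm hV b)).sm τ, hφ]
    simp only [hH, e, Pi.add_apply, Pi.sub_apply, Finset.sum_sub_distrib, e']
    ring
  obtain ⟨τ, hτ, V, hV⟩ := HI α η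
    (fun b p V => ac (P.ρ b) ((ψ (P.σ b) + φ V (P.σ b)) ∘ P.A b) p)
    (fun b V => P.Rs m Av b (H V)) hη (fun b => (Co b).1) (fun b => (Co b).2.1)
    fun b => Sy.ord b _ 3 H (oH _)
  refine ⟨τ, hτ, _, hE ι m ψ 16 c τ (fun t => φ (V t)) hK hτ (by rw [hV.zero, z0])
    (fun t ht => ⟨g0 η _ (hV.mem t ht), fun σ z => (pos _ (hV.mem t ht) σ z).1⟩)
    (fun σ R k => ((o0 η σ R).curve hV.toGood k).2) ?_⟩
  obtain ⟨C, hC⟩ := hV.tay
  refine ⟨Fintype.card α * C, fun t ht t' ht' htt σ z => ?_⟩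
  have m1 := hV.mem t ht
  have m2 := hV.mem t' ht'
  have sR := fun b => Sy.smR b _ (gH _ m1)
  have key : ∀ b, |P.E m Av b (V t' b - V t b - (t' - t) •
      (P.Rs m Av b (H (V t)) - (16 : ℝ) • T (V t) b)) σ z| ≤ C * (t' - t) ^ 2 := fun b =>
    Sy.abs b _ σ _ (fun y => by
      have a := hC t ht t' ht' htt b y
      rw [Phi, ((Co b).2.2 _ m1 _ (US.sm m1 b)).2.1 y] at a
      refine le_of_eq_of_le (congrArg _ ?_) a
      simp only [hT, Pi.sub_apply, Pi.smul_apply, smul_eq_mul]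
      ring) z
  have e : φ (V t') σ z - φ (V t) σ z - (t' - t) * (16 * scal (ψ σ + φ (V t) σ) z - c) =
      ∑ b, P.E m Av b (V t' b - V t b - (t' - t) •
        (P.Rs m Av b (H (V t)) - (16 : ℝ) • T (V t) b)) σ z := by
    have s16 : ∀ b, SmC ((16 : ℝ) • T (V t) b) := fun b => (sT _ m1 b).const_smul (16 : ℝ)
    have e0 : ∀ b, P.E m Av b (V t' b - V t b - (t' - t) •
        (P.Rs m Av b (H (V t)) - (16 : ℝ) • T (V t) b)) σ z =
        P.E m Av b (V t' b) σ z - P.E m Av b (V t b) σ z - (t' - t) *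
          (P.E m Av b (P.Rs m Av b (H (V t))) σ z - 16 * P.E m Av b (T (V t) b) σ z) := fun b => by
      have s : SmC ((t' - t) • (P.Rs m Av b (H (V t)) - (16 : ℝ) • T (V t) b)) :=
        (sm_sub (sR b) (s16 b)).const_smul (t' - t)
      rw [Sy.sub b _ _ σ (sm_sub (US.sm m2 b) (US.sm m1 b)) s,
        Sy.sub b _ _ σ (US.sm m2 b) (US.sm m1 b), Sy.smul, Sy.sub b _ _ σ (sR b) (s16 b), Sy.smul]
      rfl
    simp only [e0, Finset.sum_sub_distrib, ← Finset.mul_sum, Sy.part _ (gH _ m1) σ z]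
    rw [hH]
    conv_lhs => enter [1]; rw [hφ]
    ring
  rw [e]
  refine (Finset.abs_sum_le_sum_abs _ _).trans ((Finset.sum_le_sum fun b _ => key b).trans_eq ?_)
  rw [Finset.sum_const, Finset.card_univ, nsmul_eq_mul, mul_assoc]

end Pool.Agent.P.MP_2cea5e_gt.III
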