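import Pool.Agent.P.MP_2cea5e_gt.III.Tool

/-!
Chapter III: time regularity of the linear flow.
-/

open scoped ContDiff Topology
open Set Filter

noncomputable section

namespace Pool.Agent.P.MP_2cea5e_gt.III

open II

namespace G0P

/-- The mean value inequality with a derivative on the open interval. -/
theorem mvi {h h' : ℝ → ℝ} {u u' B : ℝ} (hu : u ≤ u') (hc : Continuous h)
    (hd : ∀ r ∈ Ioo u u', HasDerivAt h (h' r) r) (hb : ∀ r ∈ Ioo u u', |h' r| ≤ B) :
    |h u' - h u| ≤ B * (u' - u) := by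
  rcases hu.eq_or_lt with rfl | hlt
  · simp
  obtain ⟨r, hr, e⟩ := exists_hasDerivAt_eq_slope h h' hlt hc.continuousOn hd
  have p : 0 < u' - u := sub_pos.2 hlt
  have := hb r hr
  rwa [e, abs_div, abs_of_pos p, div_le_iff₀ p] at this

variable {Q : ℝ → Fn → Fn} {c : ℝ}

theorem first (h : IsSG Q c) (g : Fn) (A u u' : ℝ) (x : C2) (hg : Bd g) (h0 : 0 ≤ u) (hu : u ≤ u')
    (hA : ∀ y, |lap (lap g) y| ≤ A) : |Q u' g x - Q u g x| ≤ c * A * (u' - u) :=
  mvi (h := fun r => Q r g x) hu (h.cont g x hg) (fun r hr => h.der r g x hg (h0.trans_lt hr.1))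
    fun r _ => by rw [abs_neg]; exact h.sup r _ A hg.lap.lap hA x

theorem second (h : IsSG Q c) (g : Fn) (A u u' : ℝ) (x : C2) (hg : Bd g) (h0 : 0 ≤ u)
    (hu : u ≤ u') (hA : ∀ y, |lap (lap (lap (lap g))) y| ≤ A) :
    |Q u' g x - Q u g x + (u' - u) * Q u (lap (lap g)) x| ≤ c * A * (u' - u) ^ 2 := by
  have cA : 0 ≤ c * A := mul_nonneg (zero_le_one.trans h.one) ((abs_nonneg _).trans (hA 0))
  have := mvi (h := fun r => Q r g x + (r - u) * Q u (lap (lap g)) x)
    (h' := fun r => -Q r (lap (lap g)) x + Q u (lap (lap g)) x) (B := c * A * (u' - u)) hu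
    ((h.cont g x hg).add (by fun_prop))
    (fun r hr => by
      have h1 := ((hasDerivAt_id r).sub_const u).mul_const (Q u (lap (lap g)) x)
      rw [one_mul] at h1
      exact (h.der r g x hg (h0.trans_lt hr.1)).add h1)
    fun r hr => by
      rw [neg_add_eq_sub, abs_sub_comm]
      exact (first h _ A u r x hg.lap.lap h0 hr.1.le hA).trans
        (mul_le_mul_of_nonneg_left (by linarith [hr.2]) cA)
  rw [show c * A * (u' - u) ^ 2 = c * A * (u' - u) * (u' - u) by ring]
  refine le_of_eq_of_le ?_ this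
  congr 1
  ring

theorem third (h : IsSG Q c) (τ : ℝ) (f : ℝ → Fn) (hf : TL τ f) (t : ℝ) (x : C2) :
    ContinuousOn (fun s => Q (t - s) (f s) x) (Icc 0 τ) := by
  intro s₀ h₀
  obtain ⟨L, hL⟩ := hf.lip 0
  have h1 : Continuous fun s => Q (t - s) (f s₀) x :=
    (h.cont _ x (hf.at' h₀)).comp (continuous_const.sub continuous_id)
  have h2 : Tendsto (fun s => Q (t - s) (f s) x - Q (t - s) (f s₀) x) (𝓝[Icc 0 τ] s₀) (𝓝 0) := by
    have h3 : Continuous fun s : ℝ => c * (L * |s - s₀|) := by fun_prop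
    have h4 : Tendsto (fun s : ℝ => c * (L * |s - s₀|)) (𝓝[Icc 0 τ] s₀) (𝓝 0) := by
      simpa using (h3.tendsto s₀).mono_left (nhdsWithin_le_nhds (s := Icc 0 τ))
    refine squeeze_zero_norm' ?_ h4
    filter_upwards [self_mem_nhdsWithin] with s hs
    have := h.sup (t - s) _ _ ((hf.at' hs).sub (hf.at' h₀))
      (fun y => (hL s₀ h₀ s hs).zero' (mem_univ y)) x
    rwa [h.sub _ _ _ (hf.at' hs) (hf.at' h₀)] at this
  have h5 := h2.add (h1.continuousWithinAt (s := Icc 0 τ) (x := s₀))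
  simpa [ContinuousWithinAt] using h5

end G0P

theorem g0 : S_G0 := fun _ _ h => ⟨G0P.first h, G0P.second h, G0P.third h⟩

end Pool.Agent.P.MP_2cea5e_gt.III
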