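import Pool.Agent.P.MP_2cea5e_gt.III.Tool

/-!
Chapter III: first properties of the Duhamel integral.
-/

open scoped ContDiff ComplexOrder Matrix Topology
open MeasureTheory Set Filter

noncomputable section

namespace Pool.Agent.P.MP_2cea5e_gt.III

open II

namespace G1P

variable {Q : ℝ → Fn → Fn} {c τ t : ℝ} {f : ℝ → Fn}

theorem q_lap (hQ : IsSG Q c) (u : ℝ) {g : Fn} (hg : Bd g) (x : C2) :
    Q u (lap g) x = ∑ a, Q u (pdl [a, a] g) x := by
  have e : lap g = pdl [0, 0] g + pdl [1, 1] g + pdl [2, 2] g + pdl [3, 3] g := by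
    funext z
    simp [lap, Fin.sum_univ_four]
  rw [e, hQ.add _ _ _ (((hg.pdl _).add (hg.pdl _)).add (hg.pdl _)) (hg.pdl _),
    hQ.add _ _ _ ((hg.pdl _).add (hg.pdl _)) (hg.pdl _), hQ.add _ _ _ (hg.pdl _) (hg.pdl _)]
  simp only [Fin.sum_univ_four, Pi.add_apply]

theorem ii (h : S_G0) (hQ : IsSG Q c) (hf : TL τ f) (ht : t ∈ Icc 0 τ) (x : C2) :
    IntervalIntegrable (fun s => Q (t - s) (f s) x) volume 0 t :=
  ContinuousOn.intervalIntegrable_of_Icc ht.1
    (((h Q c hQ).2.2 τ f hf t x).mono (Icc_subset_Icc_right ht.2))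

theorem main (h0 : S_Par) (h : S_G0) (hQ : IsSG Q c) (hf : TL τ f) (ht : t ∈ Icc 0 τ) :
    SmC (Gq Q f t) ∧ ∀ l, pdl l (Gq Q f t) = Gq Q (fun s => pdl l (f s)) t := by
  have hm : ∀ s ∈ Ioc 0 t, s ∈ Icc 0 τ := fun s hs => ⟨hs.1.le, hs.2.trans ht.2⟩
  have hc : ∀ l, ∀ s ∈ Ioc 0 t, pdl l (Q (t - s) (f s)) = Q (t - s) (pdl l (f s)) :=
    fun l s hs => hQ.comm _ _ l (hf.at' (hm s hs))
  have e : ∀ g : ℝ → Fn, Gq Q g t =
      fun z => ∫ s, Q (t - s) (g s) z ∂(volume.restrict (Ioc 0 t)) := fun g => by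
    funext z
    exact intervalIntegral.integral_of_le ht.1
  obtain ⟨a1, a2⟩ := h0 ℝ (volume.restrict (Ioc 0 t)) (fun s => Q (t - s) (f s))
    ((ae_restrict_mem measurableSet_Ioc).mono fun s hs => hQ.sm _ _ (hf.at' (hm s hs)))
    (fun l z => by
      refine ((ii h hQ (hf.pdl l) ht z).1.aestronglyMeasurable).congr ?_
      exact (ae_restrict_mem measurableSet_Ioc).mono fun s hs => by
        simp only [hc l s hs])
    (fun l R => by
      obtain ⟨C, hC⟩ := hf.bd l.length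
      refine ⟨fun _ => c * C, integrable_const _, ?_⟩
      exact (ae_restrict_mem measurableSet_Ioc).mono fun s hs z _ => by
        rw [hc l s hs]
        exact hQ.sup _ _ C ((hf.at' (hm s hs)).pdl l)
          (fun y => hC s (hm s hs) l le_rfl y (mem_univ _)) z)
  refine ⟨by rw [e]; exact a1, fun l => ?_⟩
  rw [e, e, a2 l]
  funext z
  exact setIntegral_congr_fun measurableSet_Ioc fun s hs => by simp only [hc l s hs]

end G1P

open G1P

theorem g1 (h0 : S_Par) (h : S_G0) : S_G1 := by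
  intro Q c hQ
  have hm : ∀ {τ t : ℝ}, t ∈ Icc 0 τ → ∀ s ∈ uIcc 0 t, s ∈ Icc 0 τ := fun ht s hs => by
    rw [uIcc_of_le ht.1] at hs
    exact ⟨hs.1, hs.2.trans ht.2⟩
  refine ⟨by linarith [hQ.one], fun f => ?_, fun τ f hf t ht => (main h0 h hQ hf ht).1,
    fun τ f l hf t ht => (main h0 h hQ hf ht).2 l, fun τ f hf t ht => ?_,
    fun τ f f' hf hf' t ht => ?_, fun τ f A hf hA t ht x => ?_⟩
  · funext x
    simp [Gq]
  · funext x
    have e : lap (Gq Q f t) x = ∑ a, pdl [a, a] (Gq Q f t) x := rfl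
    rw [e]
    simp only [(main h0 h hQ hf ht).2]
    unfold Gq
    rw [← intervalIntegral.integral_finsetSum fun a _ => ii h hQ (hf.pdl [a, a]) ht x]
    exact intervalIntegral.integral_congr fun s hs =>
      (q_lap hQ _ (hf.at' (hm ht s hs)) x).symm
  · funext x
    unfold Gq
    rw [Pi.sub_apply, ← intervalIntegral.integral_sub (ii h hQ hf ht x) (ii h hQ hf' ht x)]
    exact intervalIntegral.integral_congr fun s hs => by
      simp only [hQ.sub _ _ _ (hf.at' (hm ht s hs)) (hf'.at' (hm ht s hs)), Pi.sub_apply]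
  · have hA0 : 0 ≤ A := (abs_nonneg _).trans (hA t ht x)
    have a1 : ‖∫ s in (0 : ℝ)..t, Q (t - s) (f s) x‖ ≤ c * A * |t - 0| :=
      intervalIntegral.norm_integral_le_of_norm_le_const fun s hs =>
        hQ.sup _ _ A (hf.at' (hm ht s (uIoc_subset_uIcc hs))) (hA s (hm ht s (uIoc_subset_uIcc hs))) x
    rw [sub_zero, abs_of_nonneg ht.1] at a1
    refine le_trans a1 ?_
    have := hQ.one
    have := ht.1
    have : 0 ≤ c * A * t := by positivity
    nlinarith

end Pool.Agent.P.MP_2cea5e_gt.III
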