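import Pool.Agent.P.MP_2cea5e_gt.III.Tool

/-!
Chapter III: Schauder estimates for the Duhamel integral.
-/

open scoped ContDiff ComplexOrder Matrix Topology
open MeasureTheory Set Filter

noncomputable section

namespace Pool.Agent.P.MP_2cea5e_gt.III

open II

namespace G2P

theorem hol' {Q : ℝ → Fn → Fn} {c : ℝ} (hQ : IsSG Q c) {g : Fn} {H u : ℝ} {l : List (Fin 4)}
    (hg : Bd g) (hH : Hs g H) (hu : 0 < u) (hl : l ≠ []) (h5 : l.length ≤ 5) (x : C2) :
    |pdl l (Q u g) x| ≤ c * H * u ^ ((1 - 2 * (l.length : ℝ)) / 8) := by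
  have hμ : 0 < u ^ ((1 : ℝ) / 8) := Real.rpow_pos_of_pos hu _
  have h := hQ.hol g H _ l hg hH hμ hl h5 x
  have e1 : (u ^ ((1 : ℝ) / 8)) ^ 8 = u := by
    rw [← Real.rpow_natCast, ← Real.rpow_mul hu.le]; norm_num
  have e2 : u ^ ((1 : ℝ) / 8) / (u ^ ((1 : ℝ) / 8)) ^ (2 * l.length) =
      u ^ ((1 - 2 * (l.length : ℝ)) / 8) := by
    rw [← Real.rpow_natCast, ← Real.rpow_mul hu.le, ← Real.rpow_sub hu]
    congr 1
    push_cast
    ring
  rwa [e1, e2] at h

theorem near {h : ℝ → ℝ} {m t B : ℝ} (hm : m ≤ t)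
    (hb : ∀ s, m < s → s < t → |h s| ≤ B * (t - s) ^ (-(7 : ℝ) / 8)) :
    |∫ s in m..t, h s| ≤ 8 * B * (t - m) ^ ((1 : ℝ) / 8) := by
  have hi : IntervalIntegrable (fun s => (t - s) ^ (-(7 : ℝ) / 8)) volume m t := by
    have := (intervalIntegral.intervalIntegrable_rpow' (r := -(7 : ℝ) / 8) (a := t - m) (b := 0)
      (by norm_num)).comp_sub_left t
    simpa using this
  have h1 := intervalIntegral.norm_integral_le_of_norm_le (μ := volume) (f := h) hm
    (g := fun s => B * (t - s) ^ (-(7 : ℝ) / 8)) ?_ (hi.const_mul B)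
  · rw [intervalIntegral.integral_const_mul,
      intervalIntegral.integral_comp_sub_left (fun u : ℝ => u ^ (-(7 : ℝ) / 8)) t, sub_self,
      integral_rpow (Or.inl (by norm_num))] at h1
    rw [Real.norm_eq_abs] at h1
    refine h1.trans (le_of_eq ?_)
    have e : -(7 : ℝ) / 8 + 1 = 1 / 8 := by norm_num
    rw [e, Real.zero_rpow (by norm_num)]
    ring
  · filter_upwards [(Set.countable_singleton t).measure_zero volume |> measure_eq_zero_iff_ae_notMem.1]
      with s hs hs'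
    exact hb s hs'.1 (lt_of_le_of_ne hs'.2 hs)

theorem far {h : ℝ → ℝ} {d t B : ℝ} (hd : 0 < d) (hm : d ≤ t) (hB : 0 ≤ B)
    (hb : ∀ s, 0 < s → s < t → |h s| ≤ B * (t - s) ^ (-(9 : ℝ) / 8)) :
    |∫ s in (0 : ℝ)..(t - d), h s| ≤ 8 * B * d ^ (-(1 : ℝ) / 8) := by
  have h0 : (0 : ℝ) ∉ uIcc d t := by
    rw [uIcc_of_le hm]; exact fun h => absurd h.1 (not_le.2 hd)
  have hi : IntervalIntegrable (fun s => (t - s) ^ (-(9 : ℝ) / 8)) volume 0 (t - d) := by
    have := ((intervalIntegral.intervalIntegrable_rpow (μ := volume) (r := -(9 : ℝ) / 8) (a := d)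
      (b := t) (Or.inr h0)).comp_sub_left t).symm
    simpa using this
  have h1 := intervalIntegral.norm_integral_le_of_norm_le (μ := volume) (f := h) (sub_nonneg.2 hm)
    (g := fun s => B * (t - s) ^ (-(9 : ℝ) / 8)) ?_ (hi.const_mul B)
  · rw [intervalIntegral.integral_const_mul,
      intervalIntegral.integral_comp_sub_left (fun u : ℝ => u ^ (-(9 : ℝ) / 8)) t, sub_zero,
      sub_sub_cancel, integral_rpow (Or.inr ⟨by norm_num, h0⟩)] at h1
    rw [Real.norm_eq_abs] at h1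
    refine h1.trans ?_
    have e : -(9 : ℝ) / 8 + 1 = -1 / 8 := by norm_num
    rw [e]
    have : 0 ≤ B * t ^ (-(1 : ℝ) / 8) := mul_nonneg hB (Real.rpow_nonneg (hd.le.trans hm) _)
    have e2 : B * ((t ^ (-(1 : ℝ) / 8) - d ^ (-(1 : ℝ) / 8)) / (-1 / 8)) =
      8 * B * d ^ (-(1 : ℝ) / 8) - 8 * (B * t ^ (-(1 : ℝ) / 8)) := by ring
    rw [e2]
    linarith
  · exact Eventually.of_forall fun s hs => hb s hs.1 (by linarith [hs.2])

end G2P

open G2P

theorem g2 (h0 : S_G0) (h1 : S_G1) : S_G2 := by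
  intro Q c hQ
  have hG := h1 Q c hQ
  have hc : 0 ≤ c := zero_le_one.trans hQ.one
  have key : ∀ τ f, TL τ f → ∀ t ∈ Icc 0 τ, ∀ l x,
      pdl l (Gq Q f t) x = ∫ s in (0 : ℝ)..t, Q (t - s) (pdl l (f s)) x := by
    intro τ f hf t ht l x
    rw [hG.comm τ f l hf t ht]
    rfl
  refine ⟨?_, ?_⟩
  · intro τ f H ε hτ hf hH hε hτε t ht l hl h4 x
    have hH0 : 0 ≤ H := (hH t ht).nonneg
    rw [key τ f hf t ht]
    have := near (h := fun s => Q (t - s) (pdl l (f s)) x) (B := c * H) ht.1 fun s hs hs' => by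
      have hs2 : s ∈ Icc 0 τ := ⟨hs.le, hs'.le.trans ht.2⟩
      show |Q (t - s) (pdl l (f s)) x| ≤ _
      rw [← hQ.comm _ _ l (hf.at' hs2)]
      refine (hol' hQ (hf.at' hs2) (hH s hs2) (sub_pos.2 hs') hl (by omega) x).trans
        (mul_le_mul_of_nonneg_left ?_ (by positivity))
      refine Real.rpow_le_rpow_of_exponent_ge (sub_pos.2 hs') (by linarith [ht.2]) ?_
      have : (l.length : ℝ) ≤ 4 := by exact_mod_cast h4
      linarith
    refine this.trans ?_
    rw [sub_zero]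
    have h8 : t ^ ((1 : ℝ) / 8) ≤ ε := by
      calc t ^ ((1 : ℝ) / 8) ≤ (ε ^ 8) ^ ((1 : ℝ) / 8) :=
            Real.rpow_le_rpow ht.1 (ht.2.trans hτε) (by norm_num)
        _ = ε := by rw [← Real.rpow_natCast, ← Real.rpow_mul hε.le]; norm_num
    have h9 : 0 ≤ c * H := by positivity
    nlinarith [mul_le_mul_of_nonneg_left h8 h9, mul_nonneg h9 hε.le]
  · intro τ f H hτ hf hH t ht l hl x y
    have hH0 : 0 ≤ H := (hH t ht).nonneg
    have h9 : 0 ≤ c * H := by positivity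
    rcases eq_or_ne x y with rfl | hxy
    · simp
    have hr : 0 < ‖x - y‖ := norm_pos_iff.2 (sub_ne_zero.2 hxy)
    set r := ‖x - y‖ with hrd
    have hl0 : l ≠ [] := by rintro rfl; simp at hl
    have hcont : ∀ z, ContinuousOn (fun s => Q (t - s) (pdl l (f s)) z) (Icc 0 τ) := fun z =>
      (h0 Q c hQ).2.2 τ _ (hf.pdl l) t z
    have hint : ∀ z a b, a ∈ Icc 0 τ → b ∈ Icc 0 τ →
        IntervalIntegrable (fun s => Q (t - s) (pdl l (f s)) z) volume a b := fun z a b ha hb =>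
      ((hcont z).mono (uIcc_subset_Icc ha hb)).intervalIntegrable
    have h0τ : (0 : ℝ) ∈ Icc 0 τ := ⟨le_rfl, ht.1.trans ht.2⟩
    rw [key τ f hf t ht, key τ f hf t ht,
      ← intervalIntegral.integral_sub (hint x _ _ h0τ ht) (hint y _ _ h0τ ht)]
    set h : ℝ → ℝ := fun s => Q (t - s) (pdl l (f s)) x - Q (t - s) (pdl l (f s)) y with hh
    have hn : ∀ s, 0 < s → s < t → |h s| ≤ 2 * (c * H) * (t - s) ^ (-(7 : ℝ) / 8) := by
      intro s hs hs'
      have hs2 : s ∈ Icc 0 τ := ⟨hs.le, hs'.le.trans ht.2⟩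
      have e : (1 - 2 * (l.length : ℝ)) / 8 = -(7 : ℝ) / 8 := by rw [hl]; norm_num
      have b := fun z => hol' hQ (hf.at' hs2) (hH s hs2) (sub_pos.2 hs') hl0 (by omega) z
      rw [e, hQ.comm _ _ l (hf.at' hs2)] at b
      have := (abs_sub _ _).trans (add_le_add (b x) (b y))
      simp only [hh]
      linarith
    have hf' : ∀ s, 0 < s → s < t → |h s| ≤ 4 * (c * H) * r * (t - s) ^ (-(9 : ℝ) / 8) := by
      intro s hs hs'
      have hs2 : s ∈ Icc 0 τ := ⟨hs.le, hs'.le.trans ht.2⟩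
      have b : ∀ a z, |pd a (pdl l (Q (t - s) (f s))) z| ≤ c * H * (t - s) ^ (-(9 : ℝ) / 8) := by
        intro a z
        have e : (1 - 2 * ((a :: l).length : ℝ)) / 8 = -(9 : ℝ) / 8 := by
          rw [List.length_cons, hl]; norm_num
        have := hol' hQ (l := a :: l) (hf.at' hs2) (hH s hs2) (sub_pos.2 hs') (by simp)
          (by rw [List.length_cons]; omega) z
        rwa [e] at this
      have := lip_of_pd (sm_pdl l (hQ.sm _ _ (hf.at' hs2))) b x y
      rw [hQ.comm _ _ l (hf.at' hs2)] at this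
      simp only [hh]
      linarith
    have hq : 0 < √r := Real.sqrt_pos.2 hr
    have e1 : (r ^ 4) ^ ((1 : ℝ) / 8) = √r := by
      rw [← Real.rpow_natCast, ← Real.rpow_mul hr.le, Real.sqrt_eq_rpow]; norm_num
    have e2 : r * (r ^ 4) ^ (-(1 : ℝ) / 8) = √r := by
      rw [← Real.rpow_natCast, ← Real.rpow_mul hr.le, Real.sqrt_eq_rpow]
      nth_rw 1 [← Real.rpow_one r]
      rw [← Real.rpow_add hr]; norm_num
    have h10 : 0 ≤ c * H * √r := by positivity
    rcases le_total t (r ^ 4) with hd | hd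
    · have := near (h := h) ht.1 hn
      rw [sub_zero] at this
      have h8 : t ^ ((1 : ℝ) / 8) ≤ √r := e1 ▸ Real.rpow_le_rpow ht.1 hd (by norm_num)
      nlinarith [mul_le_mul_of_nonneg_left h8 h9]
    · have hd0 : 0 < r ^ 4 := by positivity
      have hm : t - r ^ 4 ∈ Icc 0 τ := ⟨sub_nonneg.2 hd, by linarith [ht.2]⟩
      have hi : ∀ a b, a ∈ Icc 0 τ → b ∈ Icc 0 τ → IntervalIntegrable h volume a b :=
        fun a b ha hb => (hint x a b ha hb).sub (hint y a b ha hb)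
      rw [← intervalIntegral.integral_add_adjacent_intervals (hi _ _ h0τ hm) (hi _ _ hm ht)]
      have b1 := far (h := h) hd0 hd (by positivity) hf'
      have b2 := near (h := h) (m := t - r ^ 4) (by linarith) fun s hs hs' =>
        hn s (hm.1.trans_lt hs) hs'
      rw [sub_sub_cancel, e1] at b2
      have e3 : 8 * (4 * (c * H) * r) * (r ^ 4) ^ (-(1 : ℝ) / 8) = 32 * (c * H * √r) := by
        rw [← e2]; ring
      rw [e3] at b1
      refine (abs_add_le _ _).trans ?_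
      linarith

end Pool.Agent.P.MP_2cea5e_gt.III
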