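import Pool.Agent.P.MP_2cea5e_gt.III.Tool

/-!
Chapter III: the Duhamel integral solves the equation, in the form of a Taylor estimate.
-/

open scoped ContDiff ComplexOrder Matrix Topology
open MeasureTheory Set Filter

noncomputable section

namespace Pool.Agent.P.MP_2cea5e_gt.III

open II

namespace G3P

theorem ii {τ a b : ℝ} {u : ℝ → ℝ} (h : ContinuousOn u (Icc 0 τ)) (ha : a ∈ Icc 0 τ)
    (hb : b ∈ Icc 0 τ) : IntervalIntegrable u volume a b :=
  (h.mono (uIcc_subset_Icc ha hb)).intervalIntegrable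

theorem bnd {a b C : ℝ} {u : ℝ → ℝ} (hab : a ≤ b) (h : ∀ s ∈ Icc a b, |u s| ≤ C) :
    |∫ s in a..b, u s| ≤ C * (b - a) := by
  have := intervalIntegral.norm_integral_le_of_norm_le_const (a := a) (b := b) (f := u) (C := C)
    fun s hs => h s (Ioc_subset_Icc_self (by rwa [uIoc_of_le hab] at hs))
  rwa [Real.norm_eq_abs, abs_of_nonneg (sub_nonneg.2 hab)] at this

theorem lap2 {g : Fn} {A : ℝ} {k : ℕ} (hg : SmC g) (h : Nb univ (k + 4) g A) :
    Nb univ k (lap (lap g)) (16 * A) :=
  ((Nb.lap (k := k + 2) hg h).lap (sm_lap hg)).le (by linarith)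

theorem split {τ t t' : ℝ} {u v : ℝ → ℝ} (hu : ContinuousOn u (Icc 0 τ))
    (hv : ContinuousOn v (Icc 0 τ)) (ht : t ∈ Icc 0 τ) (ht' : t' ∈ Icc 0 τ) :
    (∫ s in (0 : ℝ)..t', u s) - ∫ s in (0 : ℝ)..t, v s =
      (∫ s in t..t', u s) + ∫ s in (0 : ℝ)..t, (u s - v s) := by
  have z : (0 : ℝ) ∈ Icc 0 τ := ⟨le_rfl, ht.1.trans ht.2⟩
  rw [intervalIntegral.integral_sub (ii hu z ht) (ii hv z ht),
    ← intervalIntegral.integral_add_adjacent_intervals (ii hu z ht) (ii hu ht ht')]
  ring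

end G3P

open G3P in
theorem g3 (h0 : S_G0) (h1 : S_G1) : S_G3 := fun Q c hQ => by
  obtain ⟨a1, a2, a3⟩ := h0 Q c hQ
  have g1 := h1 Q c hQ
  have c1 := hQ.one
  constructor
  · intro τ f A hτ hf hA t ht t' ht' x
    wlog h : t ≤ t' generalizing t t'
    · rw [abs_sub_comm, abs_sub_comm t']
      exact this t' ht' t ht (le_of_not_ge h)
    have A0 := (hA t ht).nonneg
    have p : 0 ≤ c * A * (t' - t) := mul_nonneg (by positivity) (sub_nonneg.2 h)
    have b1 := bnd h (u := fun s => Q (t' - s) (f s) x) (C := c * A) fun s hs =>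
      have m : s ∈ Icc 0 τ := ⟨ht.1.trans hs.1, hs.2.trans ht'.2⟩
      hQ.sup _ _ _ (hf.at' m) (fun y => (hA s m).zero' (mem_univ y)) x
    have b2 := bnd ht.1 (u := fun s => Q (t' - s) (f s) x - Q (t - s) (f s) x)
      (C := 16 * (c * A * (t' - t))) fun s hs =>
      have m : s ∈ Icc 0 τ := ⟨hs.1, hs.2.trans ht.2⟩
      (a1 _ _ _ _ x (hf.at' m) (sub_nonneg.2 hs.2) (sub_le_sub_right h s) fun y =>
        (lap2 (k := 0) (hf.sm s m) (hA s m)).zero' (mem_univ y)).trans_eq (by ring)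
    have b3 := mul_le_mul_of_nonneg_left (show t - 0 ≤ 1 by linarith [ht.2]) p
    simp only [Gq]
    rw [split (a3 τ f hf t' x) (a3 τ f hf t x) ht ht', abs_of_nonneg (sub_nonneg.2 h)]
    refine (abs_add_le _ _).trans ?_
    linarith
  · intro τ f A hτ hf hA hL t ht t' ht' h x
    have z : (0 : ℝ) ∈ Icc 0 τ := ⟨le_rfl, ht.1.trans ht.2⟩
    have A0 := (hA t ht).nonneg
    have h' := sub_nonneg.2 h
    have p : 0 ≤ c * A * (t' - t) ^ 2 := by positivity
    have b1 := bnd h (u := fun s => Q (t' - s) (f s) x - f t x) (C := 17 * (c * A * (t' - t)))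
      fun s hs => by
        have m : s ∈ Icc 0 τ := ⟨ht.1.trans hs.1, hs.2.trans ht'.2⟩
        have e1 := a1 _ _ _ _ x (hf.at' m) le_rfl (sub_nonneg.2 hs.2) fun y =>
          (lap2 (k := 0) (hf.sm s m) ((hA s m).ord (by norm_num))).zero' (mem_univ y)
        have e2 := hL s m t ht x
        rw [hQ.zero _ (hf.at' m)] at e1
        rw [abs_of_nonneg (sub_nonneg.2 hs.1)] at e2
        have e3 := mul_le_mul_of_nonneg_left (show t' - s - 0 ≤ t' - t by linarith [hs.1])
          (show 0 ≤ c * A by positivity)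
        have e4 := mul_le_mul_of_nonneg_left (show s - t ≤ t' - t by linarith [hs.2]) A0
        have e5 := mul_le_mul_of_nonneg_right c1 (mul_nonneg A0 h')
        refine (abs_sub_le _ (f s x) _).trans ?_
        linarith
    have b2 := bnd ht.1 (u := fun s => Q (t' - s) (f s) x - Q (t - s) (f s) x +
      (t' - t) * Q (t - s) (lap (lap (f s))) x) (C := 256 * (c * A * (t' - t) ^ 2)) fun s hs => by
        have m : s ∈ Icc 0 τ := ⟨hs.1, hs.2.trans ht.2⟩
        have e1 := a2 _ _ _ _ x (hf.at' m) (sub_nonneg.2 hs.2) (sub_le_sub_right h s) fun y =>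
          (lap2 (k := 0) (sm_lap (sm_lap (hf.sm s m)))
            (lap2 (k := 4) (hf.sm s m) (hA s m))).zero' (mem_univ y)
        rw [sub_sub_sub_cancel_right] at e1
        exact e1.trans_eq (by ring)
    have b3 := mul_le_mul_of_nonneg_left (show t - 0 ≤ 1 by linarith [ht.2]) p
    have u1 := a3 τ f hf t' x
    have u2 := a3 τ f hf t x
    have u3 := a3 τ _ hf.lap.lap t x
    rw [intervalIntegral.integral_sub (ii u1 ht ht') intervalIntegrable_const,
      intervalIntegral.integral_const, smul_eq_mul] at b1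
    rw [intervalIntegral.integral_add ((ii u1 z ht).sub (ii u2 z ht)) ((ii u3 z ht).const_mul _),
      intervalIntegral.integral_const_mul] at b2
    rw [g1.lap τ f hf t ht, g1.lap τ _ hf.lap t ht]
    simp only [Gq]
    rw [split u1 u2 ht ht']
    refine le_trans (le_of_eq (congrArg abs ?_)) ((abs_add_le _ _).trans
      ((add_le_add b1 b2).trans ?_))
    · ring
    · nlinarith

end Pool.Agent.P.MP_2cea5e_gt.III
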