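import Pool.Agent.P.MP_2cea5e_gt.III.Def
import Pool.Agent.P.MP_2cea5e_gt.II.Real

/-!
Chapter III: the complex Hessian under holomorphic and affine maps.
-/

open scoped ContDiff ComplexOrder Matrix Topology
open MeasureTheory Set Filter

noncomputable section

namespace Pool.Agent.P.MP_2cea5e_gt.III

open II

namespace HolP

theorem pd_comp {w : Fn} (hw : SmC w) {T : C2 → C2} {y : C2} (hT : DifferentiableAt ℂ T y)
    (q : Fin 4) : pd q (w ∘ T) y = ∑ r, co r (fderiv ℂ T y (dir q)) * pd r w (T y) := by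
  have h := (hw.hfd (T y)).comp y (hT.hasFDerivAt.restrictScalars ℝ)
  rw [← fderiv_apply]
  exact congrArg (fun A : C2 →L[ℝ] ℝ => A (dir q)) h.fderiv

theorem pd2_comp {w : Fn} (hw : SmC w) {T : C2 → C2} {z : C2} (hT : AnalyticAt ℂ T z)
    (p q : Fin 4) : pd p (pd q (w ∘ T)) z =
      fderiv ℝ w (T z) (fderiv ℂ (fderiv ℂ T) z (dir p) (dir q)) +
        ∑ r, co r (fderiv ℂ T z (dir q)) *
          ∑ s, co s (fderiv ℂ T z (dir p)) * pd s (pd r w) (T z) := by
  have e : pd q (w ∘ T) =ᶠ[𝓝 z] fun y => ∑ r, co r (fderiv ℂ T y (dir q)) * (pd r w ∘ T) y :=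
    hT.eventually_analyticAt.mono fun y hy => pd_comp hw hy.differentiableAt q
  rw [(pd_congr p e).eq_of_nhds, fderiv_apply, ← Finset.sum_add_distrib]
  have h1 : HasFDerivAt (fun y => fderiv ℂ T y (dir q))
      (((fderiv ℂ (fderiv ℂ T) z).flip (dir q)).restrictScalars ℝ) z := by
    have := hT.fderiv.differentiableAt.hasFDerivAt.clm_apply (hasFDerivAt_const (dir q) z)
    simpa using this.restrictScalars ℝ
  have h2 : ∀ r, HasFDerivAt (pd r w ∘ T) (fderiv ℝ (pd r w ∘ T) z) z := fun r =>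
    (((sm_pd r hw).diff (T z)).comp z (hT.differentiableAt.restrictScalars ℝ)).hasFDerivAt
  have h3 := HasFDerivAt.fun_sum (u := Finset.univ) fun r _ =>
    (((co r).hasFDerivAt.comp z h1).mul (h2 r))
  have h4 := congrArg (fun A : C2 →L[ℝ] ℝ => A (dir p)) h3.fderiv
  refine Eq.trans h4 ?_
  rw [ContinuousLinearMap.sum_apply]
  refine Finset.sum_congr rfl fun r _ => ?_
  have h5 : fderiv ℝ (pd r w ∘ T) z (dir p) = _ := pd_comp (sm_pd r hw) hT.differentiableAt p
  simp [h5]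
  ring

theorem dir_one : dir 1 = Complex.I • dir 0 := by
  funext k; fin_cases k <;> simp [dir]

theorem dir_three : dir 3 = Complex.I • dir 2 := by
  funext k; fin_cases k <;> simp [dir]

theorem jac_aff (z₀ : C2) (J : M2) (y : C2) :
    AnalyticAt ℂ (aff z₀ J) y ∧ jac (aff z₀ J) y = J := by
  let A : C2 →L[ℂ] C2 := LinearMap.toContinuousLinearMap (Matrix.mulVecLin J)
  refine ⟨analyticAt_const.add (A.analyticAt y), ?_⟩
  have h : HasFDerivAt (aff z₀ J) A y := A.hasFDerivAt.const_add z₀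
  ext p q
  simp [jac, h.fderiv, A]

theorem Ee_lin (i : Fin 4) (c : Fin 4 → ℝ) {F : Fin 4 → Fn} (hF : ∀ k, SmC (F k)) :
    Ee i (fun y => ∑ k, c k * F k y) = fun y => ∑ k, c k * Ee i (F k) y := by
  have s : ∀ k, SmC fun y => c k * F k y := fun k => ContDiff.mul contDiff_const (hF k)
  simp only [Fin.sum_univ_four]
  rw [Ee_add' i (ContDiff.add (ContDiff.add (s 0) (s 1)) (s 2)) (s 3),
    Ee_add' i (ContDiff.add (s 0) (s 1)) (s 2), Ee_add' i (s 0) (s 1)]
  simp only [Ee_cmul' i _ (hF _)]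

end HolP

open HolP

theorem hol (h : S_Mx) : S_Hol := by
  intro w T z hw hT
  have e0 : Mx (jac T z) *ᵥ Eg w (T z) =
      vec ((jac T z)ᵀ * hm (Eg w (T z)) * (jac T z).map (starRingEnd ℂ)) := by
    rw [← h.2.2.1, h.1]
  rw [e0]
  have c10 := congrFun (pd_comm 1 0 hw) (T z)
  have c20 := congrFun (pd_comm 2 0 hw) (T z)
  have c30 := congrFun (pd_comm 3 0 hw) (T z)
  have c21 := congrFun (pd_comm 2 1 hw) (T z)
  have c31 := congrFun (pd_comm 3 1 hw) (T z)
  have c32 := congrFun (pd_comm 3 2 hw) (T z)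
  have j0 : ∀ p, fderiv ℂ T z (dir 0) p = jac T z p 0 := fun p => rfl
  have j1 : ∀ p, fderiv ℂ T z (dir 2) p = jac T z p 1 := fun p => rfl
  have hII : ∀ v : C2, Complex.I • Complex.I • v = -v := fun v => by
    rw [smul_smul, Complex.I_mul_I, neg_one_smul]
  funext i
  fin_cases i
  · simp only [Eg, Fin.zero_eta, Ee_zero, pd2_comp hw hT, dir_one, map_smul,
      ContinuousLinearMap.smul_apply, hII, map_neg]
    simp [vec, hm, Matrix.mul_apply, Fin.sum_univ_two, Fin.sum_univ_four, co, j0, Eg, Ee_zero,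
      Ee_one, Ee_two, Ee_three, c10, c20, c30, c21, c31, c32]
    ring
  · simp only [Eg, Fin.mk_one, Ee_one, pd2_comp hw hT, dir_three, map_smul,
      ContinuousLinearMap.smul_apply, hII, map_neg]
    simp [vec, hm, Matrix.mul_apply, Fin.sum_univ_two, Fin.sum_univ_four, co, j1, Eg, Ee_zero,
      Ee_one, Ee_two, Ee_three, c10, c20, c30, c21, c31, c32]
    ring
  · simp only [Eg, Fin.reduceFinMk, Ee_two, pd2_comp hw hT, dir_one, dir_three, map_smul,
      ContinuousLinearMap.smul_apply, hII, map_neg]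
    simp [vec, hm, Matrix.mul_apply, Fin.sum_univ_two, Fin.sum_univ_four, co, j0, j1, Eg, Ee_zero,
      Ee_one, Ee_two, Ee_three, c10, c20, c30, c21, c31, c32]
    ring
  · simp only [Eg, Fin.reduceFinMk, Ee_three, pd2_comp hw hT, dir_one, dir_three, map_smul,
      ContinuousLinearMap.smul_apply, hII, map_neg]
    simp [vec, hm, Matrix.mul_apply, Fin.sum_univ_two, Fin.sum_univ_four, co, j0, j1, Eg, Ee_zero,
      Ee_one, Ee_two, Ee_three, c10, c20, c30, c21, c31, c32]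
    ring

theorem affT (h0 : S_Real) (h1 : S_Mx) (h2 : S_Hol) : S_Aff := by
  intro z₀ J hJ f w hf hw
  have hA : ContDiff ℝ ∞ (aff z₀ J) := contDiff_iff_contDiffAt.2 fun y =>
    ((jac_aff z₀ J y).1.contDiffAt).restrict_scalars ℝ
  have hE : ∀ u, SmC u → ∀ y, Eg (u ∘ aff z₀ J) y = Mx J *ᵥ Eg u (aff z₀ J y) := fun u hu y => by
    rw [h2 u _ y hu (jac_aff z₀ J y).1, (jac_aff z₀ J y).2]
  have hE' : ∀ u, SmC u → ∀ i y, Ee i (u ∘ aff z₀ J) y = ∑ k, Mx J i k * Ee k u (aff z₀ J y) :=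
    fun u hu i y => congrFun (hE u hu y) i
  have hc : ∀ y k, ∑ i, cf i (f ∘ aff z₀ J) y * Mx J i k = cf k f (aff z₀ J y) := fun y k => by
    simp only [((h0 _ (hf.comp hA)).1 y).2.2.1, ((h0 _ hf).1 _).2.2.1, hE f hf]
    exact h1.2.2.2.2.2.1 J _ k hJ
  have hL : ∀ (y : C2) (X : Fin 4 → ℝ), ∑ i, cf i (f ∘ aff z₀ J) y * ∑ k, Mx J i k * X k =
      ∑ k, cf k f (aff z₀ J y) * X k := fun y X => by
    simp only [← hc, Finset.sum_mul, Finset.mul_sum, mul_assoc]
    exact Finset.sum_comm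
  refine ⟨hE f hf, ?_, ?_⟩
  · funext y
    simp only [Lam, hE' w hw, hL, Function.comp]
  · funext y
    have e1 : ∀ i j, Ee i (Ee j (w ∘ aff z₀ J)) y =
        ∑ k, Mx J j k * ∑ l, Mx J i l * Ee l (Ee k w) (aff z₀ J y) := fun i j => by
      have e2 : Ee j (w ∘ aff z₀ J) = fun y => ∑ k, Mx J j k * (Ee k w ∘ aff z₀ J) y :=
        funext fun y => hE' w hw j y
      rw [e2, Ee_lin i _ fun k => (sm_Ee k hw).comp hA]
      simp only [hE' _ (sm_Ee _ hw)]
    simp only [PiO, e1, Function.comp_apply, mul_assoc, ← Finset.mul_sum, hL]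
    calc ∑ i, cf i (f ∘ aff z₀ J) y *
          ∑ k, cf k f (aff z₀ J y) * ∑ l, Mx J i l * Ee l (Ee k w) (aff z₀ J y)
        = ∑ i, cf i (f ∘ aff z₀ J) y *
          ∑ l, Mx J i l * ∑ k, cf k f (aff z₀ J y) * Ee l (Ee k w) (aff z₀ J y) := by
          refine Finset.sum_congr rfl fun i _ => ?_
          congr 1
          simp only [Finset.mul_sum]
          rw [Finset.sum_comm]
          exact Finset.sum_congr rfl fun _ _ => Finset.sum_congr rfl fun _ _ => by ring
      _ = _ := hL y _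

end Pool.Agent.P.MP_2cea5e_gt.III
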