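import Pool.Agent.P.MP_2cea5e_gt.III.I1

/-!
Chapter III: the limit of the iteration.
-/

open scoped ContDiff ComplexOrder Matrix Topology
open MeasureTheory Set Filter

noncomputable section

namespace Pool.Agent.P.MP_2cea5e_gt.III

open II

namespace I4P

theorem geo {u : ℕ → ℝ} {C : ℝ} (h : ∀ n, |u (n + 1) - u n| ≤ C * (3 / 4) ^ n) {N n : ℕ}
    (hn : N ≤ n) : |u n - u N| ≤ 4 * C * (3 / 4) ^ N := by
  have c0 : 0 ≤ C := by simpa using (abs_nonneg _).trans (h 0)
  have : |u n - u N| ≤ 4 * C * (3 / 4) ^ N - 4 * C * (3 / 4) ^ n := by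
    induction hn with
    | refl => simp
    | @step n _ ih =>
      have := abs_sub_le (u (n + 1)) (u n) (u N)
      rw [Nat.succ_eq_add_one, pow_succ]
      linarith [h n]
  have p : 0 ≤ 4 * C * (3 / 4) ^ n := by positivity
  linarith

theorem ll {u : Fn} (hu : SmC u) (z : C2) : lap (lap u) z = ∑ a, ∑ b, pdl [a, a, b, b] u z :=
  Finset.sum_congr rfl fun a _ =>
    congrFun (pdl_sum' [a, a] Finset.univ fun b _ => sm_pdl [b, b] hu) z

end I4P

open I4P

theorem i4 (h : S_Lim) : S_I4 := by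
  intro α _ G c η τ C Φ hG hΦ hτ h1 hW hA hC
  have hc0 : 0 ≤ c := zero_le_one.trans hG.one
  have sm := fun n t ht b => US.sm ((hW n).mem t ht) b
  have tf := fun n b => (hΦ b).tl (hW n)
  have ex : ∀ t b, ∃ g, t ∈ Icc 0 τ → SmC g ∧
      ∀ k ε, 0 < ε → ∃ N, ∀ n, N ≤ n → Nb univ k (It G Φ n t b - g) ε := fun t b => by
    by_cases ht : t ∈ Icc 0 τ
    · refine (h (fun n => It G Φ n t b) (fun n => sm n t ht b)
        (fun k => (hA k).imp fun _ a n => a n t ht b) fun ε hε => ?_).imp fun _ a _ => a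
      have : Tendsto (fun N : ℕ => 4 * C * (3 / 4 : ℝ) ^ N) atTop (𝓝 (4 * C * 0)) :=
        (tendsto_pow_atTop_nhds_zero_of_lt_one (by norm_num) (by norm_num)).const_mul _
      obtain ⟨N, hN⟩ := (this.eventually_lt_const (u := ε / 2) (by simpa using hε)).exists
      refine ⟨N, fun n hn n' hn' x => ?_⟩
      have a := abs_le.1 (geo (u := fun n => It G Φ n t b x) (fun n => hC n t ht b x) hn)
      have b := abs_le.1 (geo (u := fun n => It G Φ n t b x) (fun n => hC n t ht b x) hn')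
      exact abs_le.2 ⟨by linarith [a.1, b.2], by linarith [a.2, b.1]⟩
    · exact ⟨0, fun a => absurd a ht⟩
  choose V hV using ex
  have sV := fun t ht b => (hV t b ht).1
  have pt : ∀ t ∈ Icc 0 τ, ∀ b l z,
      Tendsto (fun n => pdl l (It G Φ n t b) z) atTop (𝓝 (pdl l (V t b) z)) := fun t ht b l z =>
    Metric.tendsto_atTop.2 fun ε hε => ((hV t b ht).2 l.length (ε / 2) (half_pos hε)).imp
      fun N a n hn => by
        have := a n hn l le_rfl z trivial
        rw [pdl_sub l (sm n t ht b) (sV t ht b)] at this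
        exact this.trans_lt (half_lt_self hε)
  have bV : ∀ k A, ∀ t ∈ Icc 0 τ, (∀ n, SN k (It G Φ n t) A) → SN k (V t) A :=
    fun k A t ht a b l hl z _ => le_of_tendsto' (pt t ht b l z).abs fun n => a n b l hl z trivial
  have U1 : ∀ k, ∃ B, 0 ≤ B ∧ ∀ n b, ∀ s ∈ Icc 0 τ, Nb univ k (Φ (It G Φ n s) b) B := fun k => by
    obtain ⟨A, a⟩ := hA (k + 4)
    exact (IsPhi.bd hΦ k A).imp fun _ d => ⟨d.1, fun n b s hs => d.2 b _ ((hW n).mem s hs) (a n s hs)⟩
  have U2 : ∀ k, ∃ L, 0 ≤ L ∧ ∀ n, ∀ s ∈ Icc 0 τ, ∀ t ∈ Icc 0 τ,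
      SN k (It G Φ n t - It G Φ n s) (L * |t - s|) := fun k => by
    obtain ⟨B, b0, hB⟩ := U1 (4 + k)
    refine ⟨c * B, by positivity, fun n s hs t ht b => ?_⟩
    cases n with
    | zero => exact (Nb.zero (by positivity)).congr fun _ _ => .of_eq (sub_self _)
    | succ n => exact hG.nlip h1 (tf n b) (hB n b) hs ht
  have gV : Good η τ V := by
    have tl : ∀ b, TL τ fun t => V t b := fun b => ⟨fun t ht => sV t ht b, fun k =>
      (hA k).imp fun A a t ht => bV k A t ht (fun n => a n t ht) b, fun k =>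
        (U2 k).imp fun L a s hs t ht l hl z _ => by
          rw [pdl_sub l (sV t ht b) (sV s hs b)]
          refine le_of_tendsto' ((pt t ht b l z).sub (pt s hs b l z)).abs fun n => ?_
          have := a.2 n s hs t ht b l hl z trivial
          rwa [Pi.sub_apply, pdl_sub l (sm n t ht b) (sm n s hs b)] at this⟩
    exact ⟨fun t ht => ⟨fun b => (tl b).at' ht, bV 2 η t ht fun n => ((hW n).mem t ht).2⟩, tl⟩
  obtain ⟨A, a⟩ := hA 4
  obtain ⟨D, d0, hD⟩ := IsPhi.lip hΦ 0 A
  obtain ⟨B, b0, hB⟩ := U1 8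
  obtain ⟨L, l0, hL⟩ := U2 4
  refine ⟨V, gV, funext fun b => funext fun z => ?_, c * (B + D * L), fun t ht t' ht' htt b z => ?_⟩
  · refine tendsto_nhds_unique (pt 0 ⟨le_rfl, hτ.le⟩ b [] z) (tendsto_const_nhds.congr fun n => ?_)
    cases n with
    | zero => rfl
    | succ n => exact (congrFun (hG.zero _) z).symm
  have t1 : Tendsto (fun n => Φ (It G Φ n t) b z) atTop (𝓝 (Φ (V t) b z)) :=
    Metric.tendsto_nhds.2 fun ε hε => by
      obtain ⟨e, e0, -, he⟩ := exists_eps d0 (half_pos hε)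
      filter_upwards [eventually_all.2 fun b => eventually_atTop.2 ((hV t b ht).2 4 e e0)] with n hn
      exact ((hD b _ ((hW n).mem t ht) _ (gV.mem t ht) (a n t ht) (bV 4 A t ht fun n => a n t ht)
        e e0.le hn).zero' (mem_univ z)).trans_lt (he.trans_lt (half_lt_self hε))
  have t2 : Tendsto (fun n => lap (lap (It G Φ n t b)) z) atTop (𝓝 (lap (lap (V t b)) z)) := by
    simp only [fun n => ll (sm n t ht b) z, ll (sV t ht b) z]
    exact tendsto_finsetSum _ fun _ _ => tendsto_finsetSum _ fun _ _ => pt t ht b _ z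
  have sh := tendsto_add_atTop_nat 1
  refine le_of_tendsto' ((((pt t' ht' b [] z).comp sh).sub ((pt t ht b [] z).comp sh)).sub
    ((t1.sub (t2.comp sh)).const_mul (t' - t))).abs fun n => ?_
  refine hG.tay τ _ _ h1 (tf n b) (fun s hs => (hB n b s hs).le (by nlinarith))
    (fun s hs s' hs' x => ?_) t ht t' ht' htt z
  refine ((hD b _ ((hW n).mem s hs) _ ((hW n).mem s' hs') (a n s hs) (a n s' hs') _
    (by positivity) (hL n s' hs' s hs)).zero' (mem_univ x)).trans ?_
  nlinarith [mul_nonneg b0 (abs_nonneg (s - s'))]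

end Pool.Agent.P.MP_2cea5e_gt.III
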