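import Pool.Agent.P.MP_2cea5e_gt.III.Tool

/-!
Chapter III: assembly of the iteration, rescaling of time, and the final regularity step.
-/

open scoped ContDiff ComplexOrder Matrix Topology
open MeasureTheory Set Filter

noncomputable section

namespace Pool.Agent.P.MP_2cea5e_gt.III

open II

theorem iter (h0 : S_SG) (h1 : S_G1) (h2 : S_G2) (h3 : S_G3) (hp : S_Phi) (i1 : S_I1) (i2 : S_I2)
    (i3 : S_I3) (i4 : S_I4) : S_Iter := by
  obtain ⟨Q, c, hQ⟩ := h0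
  have hc : 0 < 300 * c := by linarith [hQ.one]
  have hG : IsG (Gq Q) (300 * c) := ⟨h1 Q c hQ, h2 Q c hQ, h3 Q c hQ⟩
  have hd : 0 < 1 / (512 * (300 * c)) := by positivity
  refine ⟨1 / (512 * (300 * c)), hd, fun α _ η a R hη ha had hR => ?_⟩
  have hΦ := hp α η _ a R hd.le ha had hR
  have hq0 : 0 ≤ 256 * (1 / (512 * (300 * c))) := by positivity
  have hq : 300 * c * (256 * (1 / (512 * (300 * c)))) ≤ 1 / 2 := by
    have hc' : c ≠ 0 := by linarith [hQ.one]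
    apply le_of_eq
    field_simp
    norm_num
  obtain ⟨τ, μ, hτ, hτ1, hn⟩ := i1 α _ _ η _ _ hG hΦ hη hq0 hq
  have hb := i2 α _ _ η _ τ _ hG hΦ hq0 hq hτ1 (fun n => (hn n).1)
    (fun n t ht => ((hn n).2 t ht).1)
  obtain ⟨τ', C, hτ', hle, hC⟩ := i3 α _ _ η _ τ _ hG hΦ hq0 hq hτ hτ1 (fun n => (hn n).1) hb
  refine ⟨τ', hτ', i4 α _ _ η τ' C _ hG hΦ.ord hτ' (hle.trans hτ1)
    (fun n => (hn n).1.mono hle) (fun k => ?_) hC⟩
  obtain ⟨A, hA⟩ := hb k
  exact ⟨A, fun n t ht => hA n t (Icc_subset_Icc_right hle ht)⟩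

theorem kap (h : S_Fin) : StShort := by
  intro ι _ m ψ κ c hm hψ hκ
  obtain ⟨τ, hτ, φ, hφ⟩ := h ι m ψ (16 * c / κ) hm hψ
  have hmap : MapsTo (fun t : ℝ => κ / 16 * t) (Ico 0 (16 * τ / κ)) (Ico 0 τ) := by
    intro t ht
    refine ⟨mul_nonneg (by positivity) ht.1, ?_⟩
    have h2 := (lt_div_iff₀ hκ).1 ht.2
    show κ / 16 * t < τ
    linarith
  refine ⟨16 * τ / κ, by positivity, fun t => φ (κ / 16 * t), ?_, ?_, ?_, ?_, ?_, ?_⟩
  · intro σ
    have hs : ContDiff ℝ ∞ fun q : ℝ × C2 => ((κ / 16 * q.1, q.2) : ℝ × C2) :=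
      (contDiff_const.mul contDiff_fst).prodMk contDiff_snd
    exact (hφ.smooth σ).comp hs.contDiffOn fun q hq => ⟨hmap hq.1, mem_univ _⟩
  · intro σ z
    simpa using hφ.init σ z
  · exact fun t ht => hφ.inv _ (hmap ht)
  · exact fun t ht => hφ.glue _ (hmap ht)
  · exact fun t ht => hφ.pos _ (hmap ht)
  · intro t ht σ z
    have hl : HasDerivWithinAt (fun t : ℝ => κ / 16 * t) (κ / 16) (Ico 0 (16 * τ / κ)) t := by
      simpa using ((hasDerivAt_id t).const_mul (κ / 16)).hasDerivWithinAt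
    have h2 := (hφ.flow _ (hmap ht) σ z).comp t hl hmap
    have e : (16 * scal (ψ σ + φ (κ / 16 * t) σ) z - 16 * c / κ) * (κ / 16) =
        κ * scal (ψ σ + φ (κ / 16 * t) σ) z - c := by
      field_simp
    rw [e] at h2
    exact h2

namespace IterP

theorem cl {τ : ℝ} {F : ℝ → Fn} (hs : ∀ t ∈ Icc 0 τ, SmC (F t))
    (hl : ∀ R k, ∃ C, ∀ s ∈ Icc 0 τ, ∀ t ∈ Icc 0 τ, Nb (cb R) k (F t - F s) (C * |t - s|)) :
    Cl (Ico 0 τ) F := by
  refine ⟨fun t ht => hs t (Ico_subset_Icc_self ht), fun l => ?_⟩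
  rintro ⟨s, y⟩ ⟨hs0, -⟩
  have hs1 : s ∈ Icc 0 τ := Ico_subset_Icc_self hs0
  obtain ⟨C, hC⟩ := hl (‖y‖ + 1) l.length
  have e1 : ContinuousWithinAt (fun q : ℝ × C2 => pdl l (F s) q.2) (Ico 0 τ ×ˢ univ) (s, y) :=
    (((sm_pdl l (hs s hs1)).continuous.comp continuous_snd).continuousAt).continuousWithinAt
  have e2 : Tendsto (fun q : ℝ × C2 => pdl l (F q.1) q.2 - pdl l (F s) q.2)
      (𝓝[Ico 0 τ ×ˢ univ] (s, y)) (𝓝 0) := by
    have e3 : Tendsto (fun q : ℝ × C2 => C * |q.1 - s|) (𝓝[Ico 0 τ ×ˢ univ] (s, y)) (𝓝 0) := by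
      have : Continuous fun q : ℝ × C2 => C * |q.1 - s| := by fun_prop
      have h2 := (this.tendsto (s, y)).mono_left
        (nhdsWithin_le_nhds (s := (Ico 0 τ ×ˢ univ : Set (ℝ × C2))))
      simpa using h2
    refine squeeze_zero_norm' ?_ e3
    have e4 : ∀ᶠ q : ℝ × C2 in 𝓝 (s, y), ‖q.2‖ < ‖y‖ + 1 :=
      (continuous_snd.norm.tendsto (s, y)).eventually_lt_const (lt_add_one _)
    filter_upwards [self_mem_nhdsWithin, mem_nhdsWithin_of_mem_nhds e4] with q hq hq2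
    have hq1 : q.1 ∈ Icc 0 τ := Ico_subset_Icc_self hq.1
    have := hC s hs1 q.1 hq1 l le_rfl q.2 (mem_cb.2 (le_of_lt hq2))
    rw [pdl_sub l (hs _ hq1) (hs _ hs1)] at this
    exact this
  have := e2.add e1
  simpa [ContinuousWithinAt] using this

end IterP

theorem endT (h : StJS) : S_End := by
  intro ι m ψ κ c τ φ hψ hτ h0 hg hl ⟨C, hC⟩
  have key : ∀ σ, ContDiffOn ℝ ∞ (fun q : ℝ × C2 => (ψ σ + φ q.1 σ) q.2) (Ico 0 τ ×ˢ univ) ∧
      ∀ t ∈ Ico 0 τ, ∀ z, HasDerivWithinAt (fun s => (ψ σ + φ s σ) z)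
        (κ * scal (ψ σ + φ t σ) z - c) (Ico 0 τ) t := by
    intro σ
    refine h (fun t => ψ σ + φ t σ) 0 τ 0 κ c hτ (IterP.cl ?_ ?_) ?_ ?_
    · exact fun t ht => sm_add (hψ.smooth σ) ((hg t ht).1.sm σ)
    · intro R k
      obtain ⟨D, hD⟩ := hl σ R k
      refine ⟨D, fun s hs t ht => ?_⟩
      rw [add_sub_add_left_eq_sub]
      exact hD s hs t ht
    · exact fun t ht z => (hg t (Ico_subset_Icc_self ht)).2 σ z
    · intro t ht _ z
      have := der_of_taylor (u := fun s => φ s σ z)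
        (w := fun s => κ * scal (ψ σ + φ s σ) z - c) (C := C)
        (fun s hs s' hs' hss => hC s hs s' hs' hss σ z) ht
      exact this.const_add (ψ σ z)
  refine ⟨fun σ => ?_, fun σ z => by rw [h0]; rfl,
    fun t ht => (hg t (Ico_subset_Icc_self ht)).1.inv,
    fun t ht => (hg t (Ico_subset_Icc_self ht)).1.glue,
    fun t ht => (hg t (Ico_subset_Icc_self ht)).2, fun t ht σ z => ?_⟩
  · have e : ContDiffOn ℝ ∞ (fun q : ℝ × C2 => ψ σ q.2) (Ico 0 τ ×ˢ univ) :=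
      ((hψ.smooth σ).comp contDiff_snd).contDiffOn
    refine ((key σ).1.sub e).congr fun q _ => ?_
    simp
  · have := ((key σ).2 t ht z).sub_const (ψ σ z)
    simpa using this

end Pool.Agent.P.MP_2cea5e_gt.III
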