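import Pool.Agent.P.MP_2cea5e_gt.III.Def

/-!
Chapter III: the profile of the biharmonic heat kernel.
-/

open scoped ContDiff Topology
open MeasureTheory Set Filter

noncomputable section

namespace Pool.Agent.P.MP_2cea5e_gt.III

open II

namespace KerP

open SchwartzMap FourierTransform LineDeriv

theorem mono_bd (n : ℕ) (x : ℝ) :
    |x| ^ n * Real.exp (-(x ^ 2 / 2)) ≤ n.factorial * Real.exp (1 / 2) := by
  have h1 := Real.pow_div_factorial_le_exp |x| (abs_nonneg x) n
  have h0 : (0 : ℝ) < n.factorial := by exact_mod_cast n.factorial_pos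
  rw [div_le_iff₀ h0] at h1
  have h2 : Real.exp |x| * Real.exp (-(x ^ 2 / 2)) ≤ Real.exp (1 / 2) := by
    rw [← Real.exp_add]
    refine Real.exp_le_exp.2 ?_
    nlinarith [sq_abs x, sq_nonneg (|x| - 1)]
  calc |x| ^ n * Real.exp (-(x ^ 2 / 2))
      ≤ Real.exp |x| * n.factorial * Real.exp (-(x ^ 2 / 2)) :=
        mul_le_mul_of_nonneg_right h1 (Real.exp_pos _).le
    _ = n.factorial * (Real.exp |x| * Real.exp (-(x ^ 2 / 2))) := by ring
    _ ≤ _ := mul_le_mul_of_nonneg_left h2 h0.le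

theorem poly_bd (P : Polynomial ℤ) (k : ℕ) : ∃ C : ℝ, ∀ x : ℝ,
    |x| ^ k * (|Polynomial.aeval x P| * Real.exp (-(x ^ 2 / 2))) ≤ C := by
  induction P using Polynomial.induction_on' with
  | add p q hp hq =>
    obtain ⟨C, hC⟩ := hp
    obtain ⟨D, hD⟩ := hq
    refine ⟨C + D, fun x => ?_⟩
    have h1 := mul_le_mul_of_nonneg_left
      (mul_le_mul_of_nonneg_right (abs_add_le (Polynomial.aeval x p) (Polynomial.aeval x q))
        (Real.exp_pos (-(x ^ 2 / 2))).le) (pow_nonneg (abs_nonneg x) k)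
    rw [map_add]
    nlinarith [hC x, hD x]
  | monomial n a =>
    refine ⟨|(a : ℝ)| * ((k + n).factorial * Real.exp (1 / 2)), fun x => ?_⟩
    rw [Polynomial.aeval_monomial, abs_mul, abs_pow, eq_intCast]
    have := mul_le_mul_of_nonneg_left (mono_bd (k + n) x) (abs_nonneg (a : ℝ))
    rw [pow_add] at this
    linarith

/-- The Gaussian as a rapidly decreasing function. -/
def gs : SchwartzMap ℝ ℝ where
  toFun := fun y => Real.exp (-(y ^ 2 / 2))
  smooth' := by fun_prop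
  decay' := fun k n => by
    obtain ⟨C, hC⟩ := poly_bd (Polynomial.hermite n) k
    refine ⟨C, fun x => ?_⟩
    rw [norm_iteratedFDeriv_eq_norm_iteratedDeriv, iteratedDeriv_eq_iterate,
      Polynomial.deriv_gaussian_eq_hermite_mul_gaussian, Real.norm_eq_abs, Real.norm_eq_abs,
      abs_mul, abs_mul, abs_pow, abs_neg, abs_one, one_pow, one_mul,
      abs_of_pos (Real.exp_pos _)]
    exact hC x

abbrev E4 : Type := EuclideanSpace ℝ (Fin 4)

/-- The coordinate vectors. -/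
def ee (a : Fin 4) : E4 := EuclideanSpace.single a 1

theorem inner_ee (x : E4) (a : Fin 4) : inner ℝ x (ee a) = x a := by
  simp [ee, EuclideanSpace.inner_single_right]

theorem exists_h : ∃ h : SchwartzMap E4 ℂ,
    ∀ x, h x = (Real.exp (-((2 * Real.pi) ^ 4 * (‖x‖ ^ 2) ^ 2)) : ℝ) := by
  set c : ℝ := √2 * (2 * Real.pi) ^ 2 with hc
  have hc1 : 1 ≤ c := by
    have h1 : (1 : ℝ) ≤ √2 := Real.one_le_sqrt.2 (by norm_num)
    have h2 : (1 : ℝ) ≤ (2 * Real.pi) ^ 2 := one_le_pow₀ (by linarith [Real.pi_gt_three])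
    exact one_le_mul_of_one_le_of_one_le h1 h2
  have hg : (fun x : E4 => c * ‖x‖ ^ 2).HasTemperateGrowth :=
    (Function.HasTemperateGrowth.const c).mul (Function.hasTemperateGrowth_norm_sq E4)
  have hu : ∃ (k : ℕ) (C : ℝ), ∀ x : E4, ‖x‖ ≤ C * (1 + ‖c * ‖x‖ ^ 2‖) ^ k := by
    refine ⟨1, 1, fun x => ?_⟩
    rw [Real.norm_eq_abs, abs_of_nonneg (by positivity), pow_one, one_mul]
    nlinarith [sq_nonneg (‖x‖ - 1), sq_nonneg ‖x‖]
  refine ⟨postcompCLM Complex.ofRealCLM (compCLM ℝ hg hu gs), fun x => ?_⟩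
  change ((Real.exp (-((c * ‖x‖ ^ 2) ^ 2 / 2)) : ℝ) : ℂ) = _
  congr 3
  rw [hc, mul_pow, mul_pow, Real.sq_sqrt (by norm_num)]
  ring

/-- Multiplication by a coordinate. -/
def M (a : Fin 4) : SchwartzMap E4 ℂ →L[ℝ] SchwartzMap E4 ℂ :=
  smulLeftCLM ℂ (inner ℝ · (ee a))

theorem M_apply (a : Fin 4) (f : SchwartzMap E4 ℂ) (x : E4) : M a f x = x a * f x := by
  rw [M, smulLeftCLM_apply_apply (Function.hasTemperateGrowth_inner_left _), inner_ee,
    Complex.real_smul]

/-- Derivative in a coordinate direction. -/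
def D (a : Fin 4) (f : SchwartzMap E4 ℂ) : SchwartzMap E4 ℂ := lineDerivOp (ee a) f

theorem D_apply (a : Fin 4) (f : SchwartzMap E4 ℂ) (x : E4) : D a f x = fderiv ℝ f x (ee a) := rfl

/-- The symbol of the derivative. -/
def N (a : Fin 4) (f : SchwartzMap E4 ℂ) : SchwartzMap E4 ℂ :=
  -(2 * Real.pi * Complex.I) • M a f

theorem N_apply (a : Fin 4) (f : SchwartzMap E4 ℂ) (x : E4) :
    N a f x = -(2 * Real.pi * Complex.I) * (x a * f x) := by
  rw [N, _root_.smul_apply, M_apply, smul_eq_mul]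

theorem D_fourier (a : Fin 4) (f : SchwartzMap E4 ℂ) : D a (fourier f) = fourier (N a f) :=
  lineDerivOp_fourier_eq f (ee a)

theorem fourier_D (a : Fin 4) (f : SchwartzMap E4 ℂ) : fourier (D a f) = -N a (fourier f) := by
  rw [N, neg_smul, neg_neg]
  exact fourier_lineDerivOp_eq f (ee a)

/-- The Laplacian. -/
def L (f : SchwartzMap E4 ℂ) : SchwartzMap E4 ℂ := ∑ a, D a (D a f)

/-- The symbol of the Laplacian. -/
def S (f : SchwartzMap E4 ℂ) : SchwartzMap E4 ℂ := ∑ a, N a (N a f)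

theorem L_fourier (f : SchwartzMap E4 ℂ) : L (fourier f) = fourier (S f) := by
  simp only [L, S, D_fourier, fourier_sum]

theorem norm_sq (x : E4) : ‖x‖ ^ 2 = ∑ a, x a ^ 2 := EuclideanSpace.real_norm_sq_eq x

theorem S_apply (f : SchwartzMap E4 ℂ) (x : E4) :
    S f x = -((2 * Real.pi) ^ 2 * (‖x‖ ^ 2 : ℝ)) * f x := by
  rw [S, _root_.sum_apply, norm_sq]
  simp only [N_apply, Fin.sum_univ_four]
  push_cast
  linear_combination (4 * Real.pi ^ 2 * (x 0 ^ 2 + x 1 ^ 2 + x 2 ^ 2 + x 3 ^ 2) * f x) *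
    Complex.I_mul_I

theorem D_N (a : Fin 4) (f : SchwartzMap E4 ℂ) (x : E4) :
    D a (N a f) x = -(2 * Real.pi * Complex.I) * (f x + x a * D a f x) := by
  have e : (N a f : E4 → ℂ) = fun x => -(2 * Real.pi * Complex.I) * (x a * f x) :=
    funext (N_apply a f)
  have h1 : HasFDerivAt (fun x : E4 => ((x a : ℝ) : ℂ))
      (Complex.ofRealCLM.comp (EuclideanSpace.proj a)) x :=
    (Complex.ofRealCLM.comp (EuclideanSpace.proj (𝕜 := ℝ) a)).hasFDerivAt
  have h2 := (h1.fun_mul (f.hasFDerivAt x)).const_mul (-(2 * Real.pi * Complex.I))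
  rw [D_apply, D_apply, e, h2.fderiv]
  simp [ee]
  ring

theorem D_h {h : SchwartzMap E4 ℂ}
    (hh : ∀ x, h x = (Real.exp (-((2 * Real.pi) ^ 4 * (‖x‖ ^ 2) ^ 2)) : ℝ)) (a : Fin 4) (x : E4) :
    D a h x = -(4 * (2 * Real.pi) ^ 4 * (‖x‖ ^ 2 : ℝ) * x a) * h x := by
  have e : (h : E4 → ℂ) =
      fun x => ((Real.exp (-((2 * Real.pi) ^ 4 * (‖x‖ ^ 2) ^ 2)) : ℝ) : ℂ) := funext hh
  have h1 := ((((hasStrictFDerivAt_norm_sq x).hasFDerivAt.pow 2).const_mul
    ((2 * Real.pi) ^ 4)).fun_neg).exp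
  have h2 := Complex.ofRealCLM.hasFDerivAt.comp x h1
  rw [D_apply, hh, e]
  refine (congrArg (fun A : E4 →L[ℝ] ℂ => A (ee a)) h2.fderiv).trans ?_
  simp only [ContinuousLinearMap.comp_apply, Complex.ofRealCLM_apply, smul_apply, neg_apply,
    innerSL_apply_apply, inner_ee, smul_eq_mul, nsmul_eq_mul]
  push_cast
  ring

theorem exists_k : ∃ k : SchwartzMap E4 ℂ, ∫ x, k x = 1 ∧
    ∀ x, L (L k) x = k x + (∑ a, x a * D a k x) / 4 := by
  obtain ⟨h, hh⟩ := exists_h
  refine ⟨fourier h, ?_, fun x => ?_⟩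
  · have h1 : fourierInv (fourier h) = h := fourierInv_fourier_eq h
    have h2 := congrArg (fun f : SchwartzMap E4 ℂ => f 0) h1
    simp only [fourierInv_coe, Real.fourierInv_eq, hh] at h2
    simpa using h2
  · have hp : (2 * Real.pi * Complex.I : ℂ) ≠ 0 := Complex.two_pi_I_ne_zero
    have h1 : ∑ a, D a (N a h) =
        (-(2 * Real.pi * Complex.I) * 4) • h + (2 * Real.pi * Complex.I * 4) • S (S h) := by
      ext y
      rw [_root_.sum_apply, _root_.add_apply, _root_.smul_apply,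
        _root_.smul_apply, S_apply, S_apply]
      simp only [D_N, D_h hh, Fin.sum_univ_four, smul_eq_mul]
      rw [norm_sq, Fin.sum_univ_four]
      push_cast
      ring
    have h3 : fourier (∑ a, D a (N a h)) = fourier ((-(2 * Real.pi * Complex.I) * 4) • h +
        (2 * Real.pi * Complex.I * 4) • S (S h)) := by rw [h1]
    rw [fourier_sum, FourierTransform.fourier_add, FourierTransform.fourier_smul,
      FourierTransform.fourier_smul] at h3
    have h2 := congrArg (fun f : SchwartzMap E4 ℂ => f x) h3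
    simp only [fourier_D, ← D_fourier,
      _root_.sum_apply, _root_.add_apply, _root_.smul_apply, _root_.neg_apply,
      N_apply, smul_eq_mul, Fin.sum_univ_four] at h2
    rw [L_fourier, L_fourier, Fin.sum_univ_four]
    apply mul_left_cancel₀ hp
    linear_combination (-1 / 4) * h2

/-- Real coordinates of the chart. -/
def eL : C2 ≃ₗ[ℝ] E4 where
  toFun y := WithLp.toLp 2 fun a => co a y
  invFun x := ∑ a, x a • dir a
  map_add' y z := by
    ext a
    simp
  map_smul' c y := by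
    ext a
    simp
  left_inv y := sum_co_dir y
  right_inv x := by
    ext a
    simp [co_dir]

/-- Real coordinates of the chart. -/
def eC : C2 ≃L[ℝ] E4 := eL.toContinuousLinearEquiv

theorem eC_apply (y : C2) (a : Fin 4) : eC y a = co a y := rfl

theorem eC_dir (a : Fin 4) : eC (dir a) = ee a := by
  ext b
  rw [eC_apply, co_dir]
  simp [ee]

/-- Transfer to the chart. -/
def Tf (c : ℝ) (f : SchwartzMap E4 ℂ) : Fn := fun y => c * (f (eC y)).re

theorem pd_Tf (c : ℝ) (a : Fin 4) (f : SchwartzMap E4 ℂ) : pd a (Tf c f) = Tf c (D a f) := by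
  funext y
  have h1 := (Complex.reCLM.hasFDerivAt.comp y
    ((f.hasFDerivAt (eC y)).comp y eC.hasFDerivAt)).const_mul c
  refine (congrArg (fun A : C2 →L[ℝ] ℝ => A (dir a)) h1.fderiv).trans ?_
  simp [Tf, D_apply, eC_dir]

theorem lap_Tf (c : ℝ) (f : SchwartzMap E4 ℂ) : lap (Tf c f) = Tf c (L f) := by
  funext y
  simp only [lap, pd_Tf]
  simp only [Tf, L, _root_.sum_apply, Complex.re_sum, Finset.mul_sum]

theorem dk_Tf (c : ℝ) (f : SchwartzMap E4 ℂ) : Dk (Tf c f) := by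
  have key : ∀ f : SchwartzMap E4 ℂ, ∃ g : SchwartzMap C2 ℝ, Tf c f = g := fun f =>
    ⟨c • postcompCLM Complex.reCLM (compCLMOfContinuousLinearEquiv ℝ eC f), rfl⟩
  constructor
  · obtain ⟨g, hg⟩ := key f
    rw [hg]
    exact g.smooth ⊤
  · intro l n
    have h1 : ∃ f' : SchwartzMap E4 ℂ, pdl l (Tf c f) = Tf c f' := by
      induction l with
      | nil => exact ⟨f, rfl⟩
      | cons a l ih =>
        obtain ⟨f', hf'⟩ := ih
        exact ⟨D a f', by rw [pdl_cons, hf', pd_Tf]⟩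
    obtain ⟨f', hf'⟩ := h1
    obtain ⟨g, hg⟩ := key f'
    have := one_add_le_sup_seminorm_apply (𝕜 := ℝ) (m := (n, 0)) (k := n) (n := 0) le_rfl le_rfl g
    simp only [norm_iteratedFDeriv_zero, Real.norm_eq_abs] at this
    rw [hf', hg]
    exact ⟨_, this⟩

theorem int_Tf : ∃ c₁ : ℝ, 0 < c₁ ∧ ∀ (c : ℝ) (f : SchwartzMap E4 ℂ),
    ∫ y, Tf c f y = c * (c₁ * (∫ x, f x).re) := by
  refine ⟨Measure.addHaarScalarFactor (Measure.map eC volume) volume,
    Measure.addHaarScalarFactor_pos_of_isAddHaarMeasure _ _, fun c f => ?_⟩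
  have h1 := Measure.isAddLeftInvariant_eq_smul (Measure.map eC (volume : Measure C2))
    (volume : Measure E4)
  have h2 : ∫ x, (f x).re ∂(Measure.map eC (volume : Measure C2)) = ∫ y, (f (eC y)).re :=
    eC.toHomeomorph.measurableEmbedding.integral_map _
  have h3 : ∫ x, (f x).re = (∫ x, f x).re := integral_re f.integrable
  unfold Tf
  rw [integral_const_mul, ← h2]
  conv_lhs => rw [h1]
  rw [integral_smul_nnreal_measure, h3]
  rfl

end KerP

open KerP in
theorem ker : S_Ker := by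
  obtain ⟨k, hk1, hk2⟩ := exists_k
  obtain ⟨c₁, hc₁, hc⟩ := int_Tf
  refine ⟨Tf c₁⁻¹ k, dk_Tf _ _, ?_, fun y => ?_⟩
  · rw [hc, hk1, Complex.one_re, mul_one, inv_mul_cancel₀ hc₁.ne']
  · simp only [lap_Tf, pd_Tf]
    simp only [Tf, hk2, eC_apply, Fin.sum_univ_four, Complex.add_re, Complex.div_ofNat_re,
      Complex.re_ofReal_mul]
    ring

end Pool.Agent.P.MP_2cea5e_gt.III
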