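import Pool.Agent.P.MP_2cea5e_gt.III.Tool

/-! Chapter III: limits of bounded sequences of smooth functions. -/

open scoped ContDiff ComplexOrder Matrix Topology
open MeasureTheory Set Filter

noncomputable section

namespace Pool.Agent.P.MP_2cea5e_gt.III

open II

namespace LimP

theorem cauchy {F : ℕ → Fn} (hs : ∀ n, SmC (F n)) (hb : ∀ k, ∃ A, ∀ n, Nb univ k (F n) A)
    (hc : ∀ ε, 0 < ε → ∃ N, ∀ n, N ≤ n → ∀ n', N ≤ n' → ∀ x, |F n x - F n' x| ≤ ε) (k : ℕ) :
    ∀ ε, 0 < ε → ∃ N, ∀ n, N ≤ n → ∀ n', N ≤ n' → Nb univ k (F n - F n') ε := by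
  induction k with
  | zero =>
    intro ε hε
    obtain ⟨N, hN⟩ := hc ε hε
    exact ⟨N, fun n hn n' hn' => Nb.of_zero fun z _ => hN n hn n' hn' z⟩
  | succ k ih =>
    intro ε hε
    obtain ⟨A, hA⟩ := hb (k + 1 + 1)
    have hA0 : 0 ≤ A := (hA 0).nonneg
    set H : ℝ := 4 * (A + A) with hH
    have hH0 : 0 ≤ H := by positivity
    set s : ℝ := ε / (2 * (H + 1)) with hs'
    have hs0 : 0 < s := by positivity
    have hr : 0 < s ^ 2 := by positivity
    obtain ⟨N, hN⟩ := ih (ε / 2 / (1 + 2 / s ^ 2)) (by positivity)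
    refine ⟨N, fun n hn n' hn' => ?_⟩
    have hsm := sm_sub (hs n) (hs n')
    have h1 : Sb (k + 1) (F n - F n') H := Sb.of_nb hsm ((hA n).sub (hs n) (hs n') (hA n'))
    refine ((hN n hn n' hn').interp hsm h1 hr).le ?_
    rw [Real.sqrt_sq hs0.le]
    have e1 : ε / 2 / (1 + 2 / s ^ 2) + 2 * (ε / 2 / (1 + 2 / s ^ 2)) / s ^ 2 = ε / 2 := by
      field_simp
    have e2 : H * s ≤ ε / 2 := by
      rw [hs', ← mul_div_assoc, div_le_div_iff₀ (by positivity) (by positivity)]
      nlinarith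
    linarith

end LimP

open LimP in
theorem lim : S_Lim := by
  intro F hs hb hc
  have hC := cauchy hs hb hc
  have hC' : ∀ k ε, 0 < ε → ∃ N, ∀ n, N ≤ n → ∀ n', N ≤ n' → ∀ l : List (Fin 4), l.length ≤ k →
      ∀ z, |pdl l (F n) z - pdl l (F n') z| ≤ ε := by
    intro k ε hε
    obtain ⟨N, hN⟩ := hC k ε hε
    refine ⟨N, fun n hn n' hn' l hl z => ?_⟩
    have := hN n hn n' hn' l hl z (mem_univ _)
    rwa [pdl_sub l (hs n) (hs n')] at this
  have hex : ∀ (l : List (Fin 4)) z, ∃ y, Tendsto (fun n => pdl l (F n) z) atTop (𝓝 y) := by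
    intro l z
    refine cauchySeq_tendsto_of_complete (Metric.cauchySeq_iff.2 fun ε hε => ?_)
    obtain ⟨N, hN⟩ := hC' l.length (ε / 2) (half_pos hε)
    refine ⟨N, fun n hn n' hn' => ?_⟩
    rw [Real.dist_eq]
    exact (hN n hn n' hn' l le_rfl z).trans_lt (half_lt_self hε)
  choose D hD using hex
  have hU : ∀ k ε, 0 < ε → ∃ N, ∀ n, N ≤ n → ∀ l : List (Fin 4), l.length ≤ k →
      ∀ z, |pdl l (F n) z - D l z| ≤ ε := by
    intro k ε hε
    obtain ⟨N, hN⟩ := hC' k ε hε
    refine ⟨N, fun n hn l hl z => ?_⟩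
    have ht : Tendsto (fun n' => |pdl l (F n) z - pdl l (F n') z|) atTop
        (𝓝 |pdl l (F n) z - D l z|) := (tendsto_const_nhds.sub (hD l z)).abs
    exact le_of_tendsto ht (eventually_atTop.2 ⟨N, fun n' hn' => hN n hn n' hn' l hl z⟩)
  have hder : ∀ l z, HasFDerivAt (D l) (∑ a, D (a :: l) z • co a) z := by
    intro l z
    refine hasFDerivAt_of_tendstoUniformly (l := atTop) (f := fun n => pdl l (F n))
      (f' := fun n y => ∑ a, pdl (a :: l) (F n) y • co a)
      (g' := fun y => ∑ a, D (a :: l) y • co a) ?_ ?_ (hD l) z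
    · refine Metric.tendstoUniformly_iff.2 fun ε hε => ?_
      obtain ⟨N, hN⟩ := hU (l.length + 1) (ε / 5) (by positivity)
      refine eventually_atTop.2 ⟨N, fun n hn y => ?_⟩
      rw [dist_comm, dist_eq_norm, ← Finset.sum_sub_distrib]
      refine (norm_sum_le _ _).trans_lt ?_
      have : ∀ a ∈ (Finset.univ : Finset (Fin 4)),
          ‖pdl (a :: l) (F n) y • co a - D (a :: l) y • co a‖ ≤ ε / 5 := by
        intro a _
        have h1 := hN n hn (a :: l) (by simp) y
        refine ContinuousLinearMap.opNorm_le_bound _ (by positivity) fun v => ?_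
        have e : (pdl (a :: l) (F n) y • co a - D (a :: l) y • co a) v =
            (pdl (a :: l) (F n) y - D (a :: l) y) * co a v := by
          simp only [ContinuousLinearMap.sub_apply, ContinuousLinearMap.smul_apply, smul_eq_mul]
          ring
        rw [e, Real.norm_eq_abs, abs_mul]
        exact mul_le_mul h1 (abs_co_le a v) (abs_nonneg _) (by positivity)
      refine (Finset.sum_le_sum this).trans_lt ?_
      simp only [Finset.sum_const, Finset.card_univ, Fintype.card_fin, nsmul_eq_mul]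
      push_cast
      linarith
    · intro n y
      have := SmC.hfd (sm_pdl l (hs n)) y
      rwa [fderiv_eq_sum] at this
  obtain ⟨hsm, hpd⟩ := sm_family D hder
  refine ⟨D [], hsm, fun k ε hε => ?_⟩
  obtain ⟨N, hN⟩ := hU k ε hε
  refine ⟨N, fun n hn l hl z _ => ?_⟩
  rw [pdl_sub l (hs n) hsm, hpd l]
  exact hN n hn l hl z

end Pool.Agent.P.MP_2cea5e_gt.III
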