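import Pool.Agent.P.MP_2cea5e_gt.III.Tool

/-!
Chapter III: the Hessians of local potentials under the chart changes.
-/

open scoped ContDiff ComplexOrder Matrix Topology
open MeasureTheory Set Filter

noncomputable section

namespace Pool.Agent.P.MP_2cea5e_gt.III

open II

namespace MonEP

variable {f g : Fn} {z : C2}

theorem cd_pd (a : Fin 4) (h : ContDiffAt ℝ ∞ f z) : ContDiffAt ℝ ∞ (pd a f) z :=
  (h.fderiv_right (m := ∞) (by simp)).clm_apply contDiffAt_const

theorem pd_add_at (a : Fin 4) (hf : DifferentiableAt ℝ f z) (hg : DifferentiableAt ℝ g z) :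
    pd a (f + g) z = pd a f z + pd a g z := by
  simp only [pd]; rw [fderiv_add hf hg]; rfl

theorem ev_diff (h : ContDiffAt ℝ ∞ f z) : ∀ᶠ y in 𝓝 z, DifferentiableAt ℝ f y :=
  ((h.of_le (m := 1) (by exact_mod_cast le_top)).eventually (by simp)).mono fun _ hy =>
    hy.differentiableAt (by simp)

theorem Ee_add_at (i : Fin 4) (hf : ContDiffAt ℝ ∞ f z) (hg : ContDiffAt ℝ ∞ g z) :
    Ee i (f + g) z = Ee i f z + Ee i g z := by
  have e : ∀ p q, pd p (pd q (f + g)) z = pd p (pd q f) z + pd p (pd q g) z := fun p q => by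
    have h1 : pd q (f + g) =ᶠ[𝓝 z] pd q f + pd q g := by
      filter_upwards [ev_diff hf, ev_diff hg] with y h1 h2 using pd_add_at q h1 h2
    rw [(pd_congr p h1).eq_of_nhds]
    exact pd_add_at p ((cd_pd q hf).differentiableAt (by simp))
      ((cd_pd q hg).differentiableAt (by simp))
  simp only [Ee, e, mul_add, Finset.sum_add_distrib]

theorem Ee_aff (i : Fin 4) (c : ℝ) (l : C2 →L[ℝ] ℝ) (z : C2) : Ee i (fun y => c + l y) z = 0 := by
  have e : ∀ q, pd q (fun y => c + l y) = fun _ => l (dir q) := fun q => by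
    funext y
    simp only [pd]
    rw [(l.hasFDerivAt.const_add c).fderiv]
  simp [Ee, e, pd_const]

theorem cont_Mx (i j : Fin 4) : Continuous fun J : M2 => Mx J i j := by
  have h : Continuous fun J : M2 => Jᵀ * hm (Pi.single j 1) * J.map (starRingEnd ℂ) :=
    (continuous_id.matrix_transpose.matrix_mul continuous_const).matrix_mul
      (continuous_id.matrix_map Complex.continuous_conj)
  fin_cases i
  · exact Complex.continuous_re.comp (h.matrix_elem 0 0)
  · exact Complex.continuous_re.comp (h.matrix_elem 1 1)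
  · exact Complex.continuous_re.comp (h.matrix_elem 0 1)
  · exact Complex.continuous_im.comp (h.matrix_elem 0 1)

theorem tor_nhds (hz : Tor z) : ∀ᶠ y in 𝓝 z, Tor y :=
  eventually_all.2 fun k => (continuous_apply k).continuousAt.eventually_ne (hz k)

/-- The statement at a point of the open torus. -/
theorem torus (h0 : S_Mon) (h1 : S_Hol) {ι : Type} {m : ι → Matrix (Fin 2) (Fin 2) ℤ}
    {u : ι → Fn} (hm : IsFan m) (hu : Pt m u) (σ τ : ι) (hz : Tor z) :
    Eg (u τ) z = Mx (jac (mon (tN m σ τ)) z) *ᵥ Eg (u σ) (mon (tN m σ τ) z) := by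
  obtain ⟨t1, t2, t3, -, -, t6, -, t8, t9, -⟩ := h0
  obtain ⟨a, b, hg⟩ := hu.glue σ τ
  set B := (m τ)⁻¹ with hB
  let l : C2 →L[ℝ] ℝ := ∑ k, ∑ j, (b k * B k j) •
    Complex.reCLM.comp (ContinuousLinearMap.proj (R := ℝ) (φ := fun _ : Fin 2 => ℂ) j)
  let c : ℝ := a + ∑ k, ∑ j, b k * B k j * Real.log ‖z j‖
  let T : C2 → C2 := fun y j => Complex.log (y j / z j)
  have hT : AnalyticAt ℂ T z := AnalyticAt.pi fun j =>
    (((ContinuousLinearMap.proj (R := ℂ) (φ := fun _ : Fin 2 => ℂ) j).analyticAt z).div_const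
      (c := z j)).clog (by simp [hz j])
  have hw : SmC fun y => c + l y := contDiff_const.add l.contDiff
  have e : u σ ∘ mon (tN m σ τ) =ᶠ[𝓝 z] u τ + (fun y => c + l y) ∘ T := by
    filter_upwards [tor_nhds hz] with y hy
    have h := hg _ (t1 B y hy)
    rw [t2 _ _ _ hy, t2 _ _ _ hy, hB, Matrix.mul_nonsing_inv _ (hm.unimod τ), t3] at h
    have hl : ∀ j, (T y j).re = Real.log ‖y j‖ - Real.log ‖z j‖ := fun j => by
      simp only [T]
      rw [Complex.log_re, norm_div, Real.log_div (norm_ne_zero_iff.2 (hy j))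
        (norm_ne_zero_iff.2 (hz j))]
    simp only [t6 _ _ _ hy, ← hB] at h
    simp only [Function.comp, Pi.add_apply, tN, ← hB, c, l, Fin.sum_univ_two,
      add_apply, smul_apply, ContinuousLinearMap.comp_apply,
      ContinuousLinearMap.proj_apply, Complex.reCLM_apply, smul_eq_mul, hl] at h ⊢
    linarith
  rw [← h1 _ _ _ (hu.sm σ) (t9 _ _ (t8 _ _ hz)).1]
  funext i
  have h2 := congrFun (h1 _ T z hw hT) i
  have h3 : Eg (fun y => c + l y) (T z) = 0 := funext fun j => Ee_aff j c l _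
  rw [h3, Matrix.mulVec_zero] at h2
  have h4 : ContDiffAt ℝ ∞ ((fun y => c + l y) ∘ T) z :=
    hw.contDiffAt.comp z (hT.contDiffAt.restrict_scalars ℝ)
  simp only [Eg] at h2 ⊢
  rw [(Ee_congr i e).eq_of_nhds, Ee_add_at i (hu.sm τ).contDiffAt h4, h2, Pi.zero_apply, add_zero]

end MonEP

theorem monE (h0 : S_Mon) (h1 : S_Hol) : S_MonE := by
  intro ι m u hm hu σ τ z hz
  obtain ⟨ha, hj⟩ := h0.2.2.2.2.2.2.2.2.1 _ z hz
  have hd := h0.2.2.2.2.2.2.2.2.2.2
  funext i
  have c1 : ContinuousAt (fun y => Eg (u τ) y i) z := (sm_Ee i (hu.sm τ)).cont.continuousAt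
  have cJ : ContinuousAt (fun y => jac (mon (tN m σ τ)) y) z :=
    continuousAt_pi.2 fun p => continuousAt_pi.2 fun q => (hj p q).continuousAt
  have c2 : ContinuousAt (fun y =>
      (Mx (jac (mon (tN m σ τ)) y) *ᵥ Eg (u σ) (mon (tN m σ τ) y)) i) z := by
    simp only [Matrix.mulVec, dotProduct]
    exact tendsto_finsetSum _ fun j _ => ((MonEP.cont_Mx i j).continuousAt.comp cJ).mul
      ((sm_Ee j (hu.sm σ)).cont.continuousAt.comp ha.continuousAt)
  exact tendsto_nhds_unique_of_frequently_eq c1 c2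
    ((mem_closure_iff_frequently.1 (hd z)).mono fun y hy =>
      congrFun (MonEP.torus h0 h1 hm hu σ τ hy) i)

end Pool.Agent.P.MP_2cea5e_gt.III
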