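import Pool.Agent.P.MP_2cea5e_gt.III.Def

/-!
Chapter III: the algebra of Hermitian two by two matrices in real coordinates.
-/

open scoped ContDiff ComplexOrder Matrix Topology

noncomputable section

namespace Pool.Agent.P.MP_2cea5e_gt.III

open II

namespace MxP

theorem vec_hm (g : Fin 4 → ℝ) : vec (hm g) = g := by
  ext i
  fin_cases i <;> simp [vec, hm]

theorem det_hm (g : Fin 4 → ℝ) : (hm g).det = (Vq g : ℂ) := by
  rw [Matrix.det_fin_two]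
  apply Complex.ext <;> simp [hm, Vq, pow_two] <;> ring

theorem mv (J : M2) (g : Fin 4 → ℝ) :
    Mx J *ᵥ g = vec (Jᵀ * hm g * J.map (starRingEnd ℂ)) := by
  ext i
  fin_cases i <;>
    simp [Mx, vec, hm, Matrix.mulVec, dotProduct, Fin.sum_univ_four, Matrix.mul_apply,
      Fin.sum_univ_two] <;> ring

theorem hm_mv (J : M2) (g : Fin 4 → ℝ) :
    hm (Mx J *ᵥ g) = Jᵀ * hm g * J.map (starRingEnd ℂ) := by
  rw [mv]
  ext p q
  fin_cases p <;> fin_cases q <;> apply Complex.ext <;>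
    simp [vec, hm, Matrix.mul_apply, Fin.sum_univ_two] <;> ring

theorem Vq_mv (J : M2) (g : Fin 4 → ℝ) : Vq (Mx J *ᵥ g) = Complex.normSq J.det * Vq g := by
  have h := det_hm (Mx J *ᵥ g)
  have e : (J.map (starRingEnd ℂ)).det = starRingEnd ℂ J.det := ((starRingEnd ℂ).map_det J).symm
  rw [hm_mv, Matrix.det_mul, Matrix.det_mul, Matrix.det_transpose, det_hm, e, mul_right_comm,
    Complex.mul_conj] at h
  exact_mod_cast h.symm

theorem Vq_add (g h : Fin 4 → ℝ) : Vq (g + h) = Vq g + bq g h + Vq h := by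
  simp only [Vq, bq, Pi.add_apply]
  ring

theorem bq_mv (J : M2) (g h : Fin 4 → ℝ) :
    bq (Mx J *ᵥ g) (Mx J *ᵥ h) = Complex.normSq J.det * bq g h := by
  have h1 := Vq_mv J (g + h)
  rw [Matrix.mulVec_add, Vq_add, Vq_add, Vq_mv, Vq_mv] at h1
  linarith

theorem sum_cv (g h : Fin 4 → ℝ) : ∑ i, cv g i * h i = bq g h * (Vq g)⁻¹ := by
  simp [cv, bq, Fin.sum_univ_four]
  ring

theorem cv_mv (J : M2) (g : Fin 4 → ℝ) (k : Fin 4) (hJ : J.det ≠ 0) :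
    ∑ i, cv (Mx J *ᵥ g) i * Mx J i k = cv g k := by
  have h0 : Complex.normSq J.det ≠ 0 := fun h => hJ (Complex.normSq_eq_zero.1 h)
  have h1 := sum_cv (Mx J *ᵥ g) (Mx J *ᵥ Pi.single k 1)
  have h2 := sum_cv g (Pi.single k 1)
  rw [bq_mv, Vq_mv, mul_inv, mul_mul_mul_comm, mul_inv_cancel₀ h0, one_mul, ← h2] at h1
  simpa [Pi.single_apply] using h1

theorem sm_Mx (J : C2 → M2) (z : C2) (h : ∀ p q, ContDiffAt ℝ ∞ (fun y => J y p q) z)
    (i j : Fin 4) : ContDiffAt ℝ ∞ (fun y => Mx (J y) i j) z := by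
  have key : ∀ p q, ContDiffAt ℝ ∞
      (fun y => ((J y)ᵀ * hm (Pi.single j 1) * (J y).map (starRingEnd ℂ)) p q) z := by
    intro p q
    simp only [Matrix.mul_apply, Matrix.transpose_apply, Matrix.map_apply]
    exact ContDiffAt.sum fun s _ => (ContDiffAt.sum fun r _ => (h r p).mul contDiffAt_const).mul
      (Complex.conjCLE.contDiff.contDiffAt.comp z (h s q))
  fin_cases i
  · exact Complex.reCLM.contDiff.contDiffAt.comp z (key 0 0)
  · exact Complex.reCLM.contDiff.contDiffAt.comp z (key 1 1)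
  · exact Complex.reCLM.contDiff.contDiffAt.comp z (key 0 1)
  · exact Complex.imCLM.contDiff.contDiffAt.comp z (key 0 1)

theorem chol (g : Fin 4 → ℝ) (h0 : 0 < g 0) (hV : 0 < Vq g) :
    ∃ J : M2, J.det ≠ 0 ∧ Mx J *ᵥ g = I0 := by
  obtain ⟨s, hs, es⟩ : ∃ s : ℝ, 0 < s ∧ s ^ 2 = g 0 :=
    ⟨√(g 0), Real.sqrt_pos.2 h0, Real.sq_sqrt h0.le⟩
  obtain ⟨t, ht, et⟩ : ∃ t : ℝ, 0 < t ∧ t ^ 2 = Vq g :=
    ⟨√(Vq g), Real.sqrt_pos.2 hV, Real.sq_sqrt hV.le⟩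
  have e1 : g 1 = (t ^ 2 + g 2 ^ 2 + g 3 ^ 2) / s ^ 2 := by
    rw [et, es, Vq]
    field_simp
    ring
  refine ⟨!![⟨1 / s, 0⟩, ⟨-g 2 / (s * t), g 3 / (s * t)⟩; 0, ⟨s / t, 0⟩], ?_, ?_⟩
  · rw [Matrix.det_fin_two]
    intro h
    have := congrArg Complex.re h
    simp [hs.ne', ht.ne'] at this
  · rw [mv]
    ext i
    fin_cases i <;> simp [vec, hm, I0, Matrix.mul_apply, Fin.sum_univ_two]
    · rw [← es]; field_simp
    · rw [← es, e1]; field_simp; ring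
    · rw [← es]; field_simp; ring
    · rw [← es]; field_simp; ring

theorem pert (g h : Fin 4 → ℝ) (h0 : 0 < g 0) (hV : 0 < Vq g) (h1 : |bq g h| ≤ Vq g / 4)
    (h2 : |Vq h| ≤ Vq g / 4) : 0 < (g + h) 0 ∧ Vq g / 2 ≤ Vq (g + h) := by
  have a1 := (abs_le.1 h1).1
  have a2 := (abs_le.1 h2).1
  have a3 : Vq g / 2 ≤ Vq (g + h) := by rw [Vq_add]; linarith
  have a4 : bq g (g + h) = 2 * Vq g + bq g h := by
    simp only [Vq, bq, Pi.add_apply]
    ring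
  have a5 : ∀ k : Fin 4 → ℝ, k 0 * (g 0 * bq g k) = k 0 ^ 2 * Vq g + g 0 ^ 2 * Vq k +
      (g 0 * k 2 - k 0 * g 2) ^ 2 + (g 0 * k 3 - k 0 * g 3) ^ 2 := fun k => by
    simp only [Vq, bq]
    ring
  have a6 : 0 < Vq (g + h) := by linarith
  have a7 : 0 < (g + h) 0 * (g 0 * bq g (g + h)) := by rw [a5]; positivity
  exact ⟨(mul_pos_iff_of_pos_right (mul_pos h0 (by linarith))).1 a7, a3⟩

end MxP

theorem mx : S_Mx :=
  ⟨MxP.vec_hm, fun g => by rw [MxP.det_hm, Complex.ofReal_re], MxP.hm_mv, MxP.Vq_mv, MxP.bq_mv,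
    MxP.cv_mv, MxP.sm_Mx, MxP.chol, MxP.pert⟩

end Pool.Agent.P.MP_2cea5e_gt.III
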