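import Pool.Agent.P.MP_2cea5e_gt.III.Tool

/-!
Chapter III: basic properties of the operators `Pk`.
-/

open scoped ContDiff ComplexOrder Matrix Topology
open MeasureTheory Set Filter

noncomputable section

namespace Pool.Agent.P.MP_2cea5e_gt.III

open II

namespace P1P

variable {L g : Fn}

theorem sm_shift (hg : SmC g) (v : C2) : SmC fun x => g (x - v) :=
  ContDiff.comp hg (contDiff_id.sub contDiff_const)

theorem pdl_sh (l : List (Fin 4)) (g : Fn) (v : C2) :
    pdl l (fun x => g (x - v)) = fun x => pdl l g (x - v) := by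
  induction l with
  | nil => rfl
  | cons a l ih =>
    funext x
    rw [pdl_cons, ih, pdl_cons]
    simp only [pd, fderiv_comp_sub]

theorem meas (hL : Dk L) (hg : Continuous g) (lam : ℝ) (x : C2) :
    AEStronglyMeasurable (fun y => L y * g (x - lam • y)) volume :=
  (hL.sm.cont.mul (hg.comp (by fun_prop))).aestronglyMeasurable

theorem le_bd {A : ℝ} (hA : ∀ y, |g y| ≤ A) (y w : C2) : |L y * g w| ≤ |L y| * A := by
  rw [abs_mul]
  exact mul_le_mul_of_nonneg_left (hA _) (abs_nonneg _)

theorem int (hL : Dk L) (hg : Bd g) (lam : ℝ) (x : C2) :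
    Integrable fun y => L y * g (x - lam • y) := by
  obtain ⟨A, hA⟩ := hg.abs
  exact (hL.int.abs.mul_const A).mono' (meas hL hg.sm.cont lam x)
    (Eventually.of_forall fun y => le_bd hA _ _)

theorem fd_lin (hg : SmC g) (lam : ℝ) (x y : C2) (a : Fin 4) :
    DifferentiableAt ℝ (fun y => g (x - lam • y)) y ∧
    fderiv ℝ (fun y => g (x - lam • y)) y (dir a) = -lam * pd a g (x - lam • y) := by
  have h1 : HasFDerivAt (fun y : C2 => x - lam • y) (-(lam • ContinuousLinearMap.id ℝ C2)) y :=
    ((hasFDerivAt_id y).const_smul lam).const_sub x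
  have h2 := (hg.hfd (x - lam • y)).comp y h1
  refine ⟨h2.differentiableAt, ?_⟩
  rw [show (fun y => g (x - lam • y)) = g ∘ fun y => x - lam • y from rfl, h2.fderiv]
  simp [pd]

end P1P

open P1P in
theorem p1 (h : S_Par) : S_P1 := by
  intro L g hL hg
  refine ⟨int hL hg, fun lam => ?_, fun x => ?_, fun lam x A hA => ?_, fun lam x a => ?_⟩
  · have e : ∀ l y, pdl l (fun x => L y * g (x - lam • y)) =
        fun x => L y * pdl l g (x - lam • y) := fun l y => by
      rw [pdl_cmul' l _ (sm_shift hg.sm _), pdl_sh]
    have := h C2 volume (fun y x => L y * g (x - lam • y))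
      (Eventually.of_forall fun y => ContDiff.mul contDiff_const (sm_shift hg.sm _))
      (fun l z => by simp only [e]; exact meas hL (hg.pdl l).sm.cont lam z) fun l R => by
        obtain ⟨A, hA⟩ := (hg.pdl l).abs
        refine ⟨fun y => |L y| * A, hL.int.abs.mul_const A, Eventually.of_forall fun y z _ => ?_⟩
        rw [e]
        exact le_bd hA _ _
    refine ⟨this.1, fun l => (this.2 l).trans ?_⟩
    simp only [e]
    rfl
  · obtain ⟨A, hA⟩ := hg.abs
    refine continuous_of_dominated (bound := fun y => |L y| * A)
      (fun lam => meas hL hg.sm.cont lam x)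
      (fun lam => Eventually.of_forall fun y => le_bd hA _ _) (hL.int.abs.mul_const A)
      (Eventually.of_forall fun y => continuous_const.mul (hg.sm.cont.comp (by fun_prop)))
  · rw [← integral_mul_const]
    exact norm_integral_le_of_norm_le (f := fun y => L y * g (x - lam • y))
      (hL.int.abs.mul_const A) (Eventually.of_forall fun y => le_bd hA _ _)
  · have e : ∀ y, L y * fderiv ℝ (fun y => g (x - lam • y)) y (dir a) =
        -lam * (L y * pd a g (x - lam • y)) := fun y => by
      rw [(fd_lin hg.sm lam x y a).2]; ring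
    have := integral_mul_fderiv_eq_neg_fderiv_mul_of_integrable (μ := volume) (f := L)
      (g := fun y => g (x - lam • y)) (v := dir a) (int (hL.pd a) hg lam x)
      (by simp only [e]; exact (int hL (hg.pd a) lam x).const_mul _) (int hL hg lam x)
      (fun y _ => hL.sm.diff y) fun y _ => (fd_lin hg.sm lam x y a).1
    simp only [e] at this
    rw [integral_const_mul, neg_mul, neg_inj] at this
    exact this

end Pool.Agent.P.MP_2cea5e_gt.III
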