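import Pool.Agent.P.MP_2cea5e_gt.III.Tool

/-!
Chapter III: the Hoelder gain of the rescaled kernels.
-/

open scoped ContDiff Topology
open MeasureTheory Set Filter

noncomputable section

namespace Pool.Agent.P.MP_2cea5e_gt.III

open II

namespace P2P

theorem move (h : S_P1) {g : Fn} (hg : Bd g) (lam : ℝ) (x : C2) (l : List (Fin 4)) :
    ∀ L, Dk L → lam ^ l.length * Pk L lam (pdl l g) x = Pk (pdl l L) lam g x := by
  induction l with
  | nil => intro L _; simp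
  | cons a l ih =>
    intro L hL
    rw [List.length_cons, pow_succ, mul_assoc, pdl_cons, (h L _ hL (hg.pdl l)).2.2.2.2 lam x a,
      ih _ (hL.pd a), pdl_pd l a hL.sm, pdl_cons]

theorem int_zero (h : S_P1) {L : Fn} (hL : Dk L) (a : Fin 4) : ∫ y, pd a L y = 0 := by
  have := (h L _ hL (Bd.const 1)).2.2.2.2 0 0 a
  simpa [Pk] using this.symm

theorem sqrt_le {μ : ℝ} (hμ : 0 < μ) (x y : C2) :
    √‖x - μ ^ 2 • y - x‖ ≤ μ * (1 + ‖y‖) := by
  rw [sub_sub_cancel_left, norm_neg, norm_smul, Real.norm_of_nonneg (sq_nonneg μ)]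
  refine Real.sqrt_le_iff.2 ⟨by positivity, ?_⟩
  rw [mul_pow]
  exact mul_le_mul_of_nonneg_left (by nlinarith [norm_nonneg y]) (sq_nonneg μ)

theorem gain (h : S_P1) {L g : Fn} (hL : Dk L) (h0 : ∫ y, L y = 0) (hg : Bd g) {H μ : ℝ}
    (hH : Hs g H) (hμ : 0 < μ) (x : C2) :
    |Pk L (μ ^ 2) g x| ≤ (∫ y, (1 + ‖y‖) ^ 1 * |L y|) * H * μ := by
  have e : Pk L (μ ^ 2) g x = ∫ y, (L y * g (x - μ ^ 2 • y) - L y * g x) := by
    rw [integral_sub ((h L g hL hg).1 _ x) (hL.int.mul_const _), integral_mul_const, h0, zero_mul,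
      sub_zero, Pk]
  rw [e, mul_assoc, ← integral_mul_const, ← Real.norm_eq_abs]
  refine norm_integral_le_of_norm_le ((hL.integrable 1).mul_const _)
    (Eventually.of_forall fun y => ?_)
  rw [← mul_sub, Real.norm_eq_abs, abs_mul]
  have h1 := (hH (x - μ ^ 2 • y) x).trans
    (mul_le_mul_of_nonneg_left (sqrt_le hμ x y) hH.nonneg)
  exact (mul_le_mul_of_nonneg_left h1 (abs_nonneg _)).trans_eq (by ring)

end P2P

open P2P in
theorem p2 (h : S_P1) : S_P2 := by
  intro L hL l hl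
  refine ⟨∫ y, (1 + ‖y‖) ^ 1 * |pdl l L y|, fun g H μ hg hH hμ x => ?_⟩
  have h0 : ∫ y, pdl l L y = 0 := by
    obtain ⟨a, l', rfl⟩ := List.exists_cons_of_ne_nil hl
    exact int_zero h (hL.pdl l') a
  have h1 := gain h (hL.pdl l) h0 hg hH hμ x
  have p : 0 < μ ^ (2 * l.length) := by positivity
  rw [← move h hg _ x l L hL, ← pow_mul, abs_mul, abs_of_pos p] at h1
  rw [((h L g hL hg).2.1 _).2 l, ← mul_div_assoc, le_div_iff₀' p]
  exact h1

end Pool.Agent.P.MP_2cea5e_gt.III
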