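import Pool.Agent.P.MP_2cea5e_gt.III.Tool

/-!
Chapter III: the derivative of the kernel operator in the scale parameter.
-/

open scoped ContDiff ComplexOrder Matrix Topology
open MeasureTheory Set Filter

noncomputable section

namespace Pool.Agent.P.MP_2cea5e_gt.III

open II

namespace P3P

theorem sm_co (a : Fin 4) : SmC fun y => co a y := (co a).contDiff

theorem pd_co_mul (a b : Fin 4) {K : Fn} (hK : SmC K) :
    pd b (fun y => co a y * K y) = fun y => co a (dir b) * K y + co a y * pd b K y := by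
  rw [pd_mul' b (sm_co a) hK]
  funext y
  simp only [pd, ContinuousLinearMap.fderiv]

theorem dk_co (a : Fin 4) {K : Fn} (hK : Dk K) : Dk fun y => co a y * K y := by
  refine ⟨(sm_co a).mul hK.sm, fun l N => ?_⟩
  induction l using List.reverseRecOn generalizing K with
  | nil =>
    obtain ⟨C, hC⟩ := hK.dec [] (N + 1)
    refine ⟨C, fun y => le_trans ?_ (hC y)⟩
    simp only [pdl_nil, abs_mul, pow_succ, mul_assoc]
    refine mul_le_mul_of_nonneg_left (mul_le_mul_of_nonneg_right ?_ (abs_nonneg _)) (by positivity)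
    linarith [abs_co_le a y]
  | append_singleton l b ih =>
    obtain ⟨C, hC⟩ := hK.dec l N
    obtain ⟨D, hD⟩ := ih (hK.pd b)
    refine ⟨|co a (dir b)| * C + D, fun y => ?_⟩
    rw [pdl_concat, pd_co_mul a b hK.sm,
      pdl_add' l (contDiff_const.mul hK.sm) ((sm_co a).mul (sm_pd b hK.sm)), pdl_cmul' l _ hK.sm]
    have p : 0 ≤ (1 + ‖y‖) ^ N := by positivity
    refine (mul_le_mul_of_nonneg_left (abs_add_le _ _) p).trans ?_
    rw [mul_add, abs_mul, mul_left_comm]
    exact add_le_add (mul_le_mul_of_nonneg_left (hC y) (abs_nonneg _)) (hD y)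

theorem dk_lap {L : Fn} (hL : Dk L) : Dk (lap L) := by
  refine ⟨sm_lap hL.sm, fun l N => ?_⟩
  choose C hC using fun a : Fin 4 => hL.dec (a :: a :: l) N
  refine ⟨∑ a, C a, fun y => ?_⟩
  rw [pdl_lap l hL.sm]
  have p : 0 ≤ (1 + ‖y‖) ^ N := by positivity
  refine (mul_le_mul_of_nonneg_left (Finset.abs_sum_le_sum_abs _ _) p).trans ?_
  rw [Finset.mul_sum]
  exact Finset.sum_le_sum fun a _ => hC a y

theorem pk_lap (h : S_P1) {L g : Fn} (hL : Dk L) (hg : Bd g) (lam : ℝ) (x : C2) :
    Pk (lap L) lam g x = lam ^ 2 * Pk L lam (lap g) x := by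
  have e1 : Pk (lap L) lam g x = ∑ a, Pk (pd a (pd a L)) lam g x := by
    simp only [Pk, lap, Finset.sum_mul]
    exact integral_finsetSum _ fun a _ => (h _ g ((hL.pd a).pd a) hg).1 lam x
  have e2 : Pk L lam (lap g) x = ∑ a, Pk L lam (pd a (pd a g)) x := by
    simp only [Pk, lap, Finset.mul_sum]
    exact integral_finsetSum _ fun a _ => (h L _ hL ((hg.pd a).pd a)).1 lam x
  rw [e1, e2, Finset.mul_sum]
  refine Finset.sum_congr rfl fun a _ => ?_
  rw [← (h _ g (hL.pd a) hg).2.2.2.2 lam x a, ← (h L _ hL (hg.pd a)).2.2.2.2 lam x a]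
  ring

theorem der (h : S_P1) {K g : Fn} (hK : Dk K) (hg : Bd g) (lam : ℝ) (x : C2) :
    HasDerivAt (fun r => Pk K r g x)
      (-∑ a, Pk (fun y => co a y * K y) lam (pd a g) x) lam := by
  obtain ⟨A, hA0, hA⟩ := hg.bd0 1
  have hi : ∀ r a, Integrable fun y => co a y * K y * pd a g (x - r • y) := fun r a =>
    (h _ _ (dk_co a hK) (hg.pd a)).1 r x
  have key := hasDerivAt_integral_of_dominated_loc_of_deriv_le (μ := volume) (s := univ)
    (x₀ := lam) (F := fun r y => K y * g (x - r • y))
    (F' := fun r y => -∑ a, co a y * K y * pd a g (x - r • y))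
    (bound := fun y => 4 * A * ((1 + ‖y‖) ^ 1 * |K y|)) univ_mem
    (Eventually.of_forall fun r => ((h K g hK hg).1 r x).aestronglyMeasurable)
    ((h K g hK hg).1 lam x)
    (integrable_finsetSum _ fun a _ => hi lam a).neg.aestronglyMeasurable
    (Eventually.of_forall fun y r _ => by
      rw [norm_neg, Real.norm_eq_abs]
      refine (Finset.abs_sum_le_sum_abs _ _).trans
        ((Finset.sum_le_card_nsmul _ _ (A * ((1 + ‖y‖) ^ 1 * |K y|)) fun a _ => ?_).trans
          (le_of_eq (by simp [mul_assoc])))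
      rw [abs_mul, abs_mul, pow_one, mul_comm A]
      exact mul_le_mul (mul_le_mul_of_nonneg_right (by linarith [abs_co_le a y]) (abs_nonneg _))
        (hA [a] le_rfl _ (mem_univ _)) (abs_nonneg _) (by positivity))
    ((hK.integrable 1).const_mul _)
    (Eventually.of_forall fun y r _ => by
      have h1 : HasDerivAt (fun r : ℝ => x - r • y) (-y) r := by
        simpa using ((hasDerivAt_id r).smul_const y).const_sub x
      have h2 := ((hg.sm.hfd _).comp_hasDerivAt r h1).const_mul (K y)
      rw [map_neg, fderiv_apply] at h2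
      refine h2.congr_deriv ?_
      rw [mul_neg, Finset.mul_sum]
      congr 1
      exact Finset.sum_congr rfl fun a _ => by ring)
  have e := key.2
  rw [integral_neg, integral_finsetSum _ fun a _ => hi lam a] at e
  exact e

end P3P

open P3P

theorem p3 (h : S_P1) : S_P3 := by
  intro K g hK hg lam x hl
  convert der h hK.dk hg lam x using 2
  apply mul_left_cancel₀ hl.ne'
  have e1 : lam * ∑ a, Pk (fun y => co a y * K y) lam (pd a g) x =
      4 * Pk (lap (lap K)) lam g x := by
    rw [Finset.mul_sum,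
      Finset.sum_congr rfl fun a _ => (h _ g (dk_co a hK.dk) hg).2.2.2.2 lam x a]
    simp only [Pk]
    rw [← integral_finsetSum _ fun a _ => (h _ g ((dk_co a hK.dk).pd a) hg).1 lam x,
      ← integral_const_mul]
    congr 1
    funext y
    rw [← Finset.sum_mul, ← mul_assoc, hK.eq y]
    congr 1
    simp only [pd_co_mul _ _ hK.dk.sm, co_dir, if_true, one_mul, Finset.sum_add_distrib,
      Finset.sum_const, Finset.card_univ, Fintype.card_fin, nsmul_eq_mul]
    push_cast
    ring
  rw [e1, pk_lap h (dk_lap hK.dk) hg, pk_lap h hK.dk hg.lap]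
  ring

end Pool.Agent.P.MP_2cea5e_gt.III
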