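import Pool.Agent.P.MP_2cea5e_gt.III.Tool

/-!
Chapter III: differentiation under the integral sign.
-/

open scoped ContDiff ComplexOrder Matrix Topology
open MeasureTheory Set Filter

noncomputable section

namespace Pool.Agent.P.MP_2cea5e_gt.III

open II

theorem ParP.norm_co_le (a : Fin 4) : ‖co a‖ ≤ 1 :=
  ContinuousLinearMap.opNorm_le_bound _ zero_le_one fun v => by
    simpa using abs_co_le a v

theorem par : S_Par := by
  intro Θ _ μ F hs hm hb
  have ii : ∀ (l : List (Fin 4)) z, Integrable (fun θ => pdl l (F θ) z) μ := fun l z => by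
    obtain ⟨b, h1, h2⟩ := hb l ‖z‖
    exact h1.mono' (hm l z) (h2.mono fun θ h => h z le_rfl)
  refine sm_family (fun l z => ∫ θ, pdl l (F θ) z ∂μ) fun l z => ?_
  choose b h1 h2 using fun p : Fin 4 => hb (p :: l) (‖z‖ + 1)
  have i1 : ∀ p, Integrable (fun θ => pdl (p :: l) (F θ) z • co p) μ :=
    fun p => (ii (p :: l) z).smul_const _
  have i2 : AEStronglyMeasurable (fun θ => ∑ p, pdl (p :: l) (F θ) z • co p) μ :=
    Finset.aestronglyMeasurable_fun_sum _ fun p _ => (hm (p :: l) z).smul_const _
  have h3 := hasFDerivAt_integral_of_dominated_of_fderiv_le (𝕜 := ℝ) (μ := μ)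
    (bound := fun θ => ∑ p, b p θ) (F := fun y θ => pdl l (F θ) y)
    (F' := fun y θ => ∑ p, pdl (p :: l) (F θ) y • co p) (x₀ := z)
    (Metric.ball_mem_nhds z one_pos) (Eventually.of_forall fun y => hm l y) (ii l z)
    i2
    ((ae_all_iff.2 h2).mono fun θ h y hy => by
      refine (norm_sum_le _ _).trans (Finset.sum_le_sum fun p _ => ?_)
      have h4 : ‖y‖ ≤ ‖z‖ + 1 := by
        have := norm_sub_norm_le y z
        rw [mem_ball_iff_norm] at hy
        linarith
      rw [norm_smul]
      exact (mul_le_of_le_one_right (norm_nonneg _) (ParP.norm_co_le p)).trans (h p y h4))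
    (integrable_finsetSum _ fun p _ => h1 p)
    (hs.mono fun θ h y _ => by
      have := (sm_pdl l h).hfd y
      rwa [fderiv_eq_sum] at this)
  rwa [integral_finsetSum _ fun p _ => i1 p,
    Finset.sum_congr rfl fun p _ => integral_smul_const _ (co p)] at h3

end Pool.Agent.P.MP_2cea5e_gt.III
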