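import Pool.Agent.P.MP_2cea5e_gt.III.Tool

/-!
Chapter III: finitely many small patches in which the metric is almost flat.
-/

open scoped ContDiff ComplexOrder Matrix Topology
open MeasureTheory Set Filter

noncomputable section

namespace Pool.Agent.P.MP_2cea5e_gt.III

open II

namespace PatP

theorem aff_zero (x : C2) (J : M2) : aff x J 0 = x := by simp [aff]

theorem affi_self (x : C2) (J : M2) : affi x J x = 0 := by simp [affi, aff]

theorem loc (h0 : S_Real) (h1 : S_Mx) (h2 : S_Aff) {f : Fn} (hf : Adm f) {d : ℝ} (hd : 0 < d)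
    (x : C2) : ∃ (J : M2) (β ρ : Fn), J.det ≠ 0 ∧ SmC β ∧ SmC ρ ∧ Cs 1 β ∧ Cs 1 ρ ∧
      (∀ y, |β y| ≤ 1) ∧ (∀ y, 0 ≤ ρ y) ∧ (∀ y, ρ y ≤ 1) ∧ (∀ y, β y ≠ 0 → ρ y = 1) ∧
      (∀ y, ρ y ≠ 0 → ∀ i, |Ee i (f ∘ aff x J) y - I0 i| ≤ d) ∧
      {x' | β (affi x J x') = 1} ∈ 𝓝 x := by
  obtain ⟨-, hv, -, hp⟩ := (h0 f hf.sm).1 x
  obtain ⟨p1, p2⟩ := hp.1 (hf.pos x)
  obtain ⟨J, hJ, hM⟩ := h1.2.2.2.2.2.2.2.1 (Eg f x) p1 (hv ▸ p2)
  have e0 : Eg (f ∘ aff x J) 0 = I0 := by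
    rw [(h2 x J hJ f f hf.sm hf.sm).1, aff_zero, hM]
  have hs : SmC (f ∘ aff x J) := ContDiff.comp hf.sm (sm_aff' x J)
  have hev : ∀ᶠ y in 𝓝 (0 : C2), ∀ i, |Ee i (f ∘ aff x J) y - I0 i| ≤ d := by
    refine eventually_all.2 fun i => ?_
    have hc : Continuous fun y => |Ee i (f ∘ aff x J) y - I0 i| :=
      ((sm_Ee i hs).continuous.sub continuous_const).abs
    have : |Ee i (f ∘ aff x J) 0 - I0 i| < d := by
      rw [show Ee i (f ∘ aff x J) 0 = I0 i from congrFun e0 i, sub_self, abs_zero]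
      exact hd
    exact (hc.continuousAt.eventually_lt continuousAt_const this).mono fun y hy => hy.le
  obtain ⟨r₀, hr₀, hb⟩ := Metric.eventually_nhds_iff_ball.1 hev
  set r := min r₀ 1 with hr
  have hr0 : 0 < r := lt_min hr₀ one_pos
  have hr1 : r ≤ 1 := min_le_right _ _
  let ρ : ContDiffBump (0 : C2) := ⟨r / 2, r, by linarith, by linarith⟩
  let β : ContDiffBump (0 : C2) := ⟨r / 4, r / 2, by linarith, by linarith⟩
  have hρ : ∀ y, ρ y ≠ 0 → y ∈ Metric.ball (0 : C2) r := fun y hy => by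
    have : y ∈ Function.support ρ := hy
    rwa [ρ.support_eq] at this
  have hβ : ∀ y, β y ≠ 0 → y ∈ Metric.ball (0 : C2) (r / 2) := fun y hy => by
    have : y ∈ Function.support β := hy
    rwa [β.support_eq] at this
  refine ⟨J, β, ρ, hJ, β.contDiff, ρ.contDiff, fun z hz => ?_, fun z hz => ?_, fun y => ?_,
    fun y => ρ.nonneg, fun y => ρ.le_one, fun y hy => ?_, fun y hy => ?_, ?_⟩
  · by_contra h
    have := mem_ball_zero_iff.1 (hβ z h)
    linarith
  · by_contra h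
    have := mem_ball_zero_iff.1 (hρ z h)
    linarith
  · rw [abs_of_nonneg β.nonneg]
    exact β.le_one
  · exact ρ.one_of_mem_closedBall (Metric.ball_subset_closedBall (hβ y hy))
  · exact hb y (Metric.ball_subset_ball (min_le_left _ _) (hρ y hy))
  · have ht : Tendsto (affi x J) (𝓝 x) (𝓝 0) := by
      have := (sm_affi x J).continuous.tendsto x
      rwa [affi_self] at this
    filter_upwards [ht.eventually (Metric.closedBall_mem_nhds (0 : C2) β.rIn_pos)] with y hy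
    exact β.one_of_mem_closedBall hy

end PatP

theorem pat (h0 : S_Real) (h1 : S_Mx) (h2 : S_Aff) : S_Pat := by
  intro ι _ ψ d hd hψ
  choose J β ρ a1 a2 a3 a4 a5 a6 a7 a8 a9 a10 a11 using
    fun (σ : ι) (x : C2) => PatP.loc h0 h1 h2 (hψ σ) hd x
  choose t _ ht using fun σ : ι => (isCompact_closedBall (0 : C2) 1).elim_nhds_subcover
    (fun x => {x' | β σ x (affi x (J σ x) x') = 1}) fun x _ => a11 σ x
  have := Fintype.ofFinite ι
  refine ⟨Σ σ : ι, t σ, inferInstance, ⟨{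
    σ := fun a => a.1
    z := fun a => a.2
    J := fun a => J a.1 a.2
    β := fun a => β a.1 a.2
    ρ := fun a => ρ a.1 a.2
    det := fun a => a1 _ _
    smβ := fun a => a2 _ _
    smρ := fun a => a3 _ _
    csβ := fun a => a4 _ _
    csρ := fun a => a5 _ _
    absβ := fun a => a6 _ _
    ρ0 := fun a => a7 _ _
    ρ1 := fun a => a8 _ _
    βρ := fun a => a9 _ _
    flat := fun a => a10 _ _
    cover := fun s x hx => ?_ }⟩⟩
  obtain ⟨y, hy, hxy⟩ := mem_iUnion₂.1 (ht s (mem_closedBall_zero_iff.2 hx))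
  exact ⟨⟨s, y, hy⟩, rfl, hxy⟩

end Pool.Agent.P.MP_2cea5e_gt.III
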