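import Pool.Agent.P.MP_2cea5e_gt.III.OrdT

/-!
Chapter III: Hoelder bounds for the nonlinearity.
-/

open scoped ContDiff ComplexOrder Matrix Topology
open MeasureTheory Set Filter

noncomputable section

namespace Pool.Agent.P.MP_2cea5e_gt.III

open II

namespace PhiP

variable {α : Type} {η d : ℝ} {a : α → (Fin 4 → Fin 4) → (α → Fn) → Fn} {R : α → (α → Fn) → Fn}

theorem crd (b : α) (l : List (Fin 4)) : Ord (US α η) univ l.length fun V => pdl l (V b) :=
  ((Ord.coord (fun _ h => US.sm h) b).pdl l).mono (zero_add _).le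

theorem low (ha : ∀ b p, Ord (US α η) univ 3 (a b p)) (hR : ∀ b, Ord (US α η) univ 3 (R b))
    (b : α) (l : List (Fin 4)) : ∃ L, Ord (US α η) univ (l.length + 3) L ∧ ∀ V ∈ US α η,
      pdl l (Phi a R V b) =
        (fun z => ∑ p : Fin 4 → Fin 4, (a b p V * pdl (l ++ List.ofFn p) (V b)) z) + L V := by
  induction l with
  | nil => exact ⟨R b, hR b, fun _ _ => rfl⟩
  | cons c l ih =>
    obtain ⟨L, h1, h2⟩ := ih
    refine ⟨_, ((Ord.sum Finset.univ fun (p : Fin 4 → Fin 4) _ =>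
      (((ha b p).pd c).mono (by simp)).mul ((crd b (l ++ List.ofFn p)).mono (by simp))).add
        ((h1.pd c).mono (by simp))), fun V hV => ?_⟩
    have s : ∀ p : Fin 4 → Fin 4, SmC (a b p V * pdl (l ++ List.ofFn p) (V b)) := fun p =>
      sm_mul ((ha b p).sm V hV) (sm_pdl _ (US.sm hV b))
    rw [pdl_cons, h2 V hV, pd_add c (sm_sum _ fun p _ => s p) (h1.sm V hV),
      pd_sum' c _ fun p _ => s p]
    funext z
    simp only [fun p => pd_mul c ((ha b p).sm V hV) (sm_pdl (l ++ List.ofFn p) (US.sm hV b)),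
      Pi.add_apply, Finset.sum_add_distrib, List.cons_append, pdl_cons]
    ring

theorem hsum {F : (Fin 4 → Fin 4) → Fn} {H : ℝ} (h : ∀ p, Hs (F p) H) :
    Hs (fun z => ∑ p, F p z) (256 * H) :=
  (Hs.sum Finset.univ fun p _ => h p).le (by simp)

theorem bda [Finite α] (ha : ∀ b p, Ord (US α η) univ 3 (a b p)) (A : ℝ) :
    ∃ C, 0 ≤ C ∧ ∀ b p, ∀ V ∈ US α η, SN 4 V A → Hs (a b p V) C := by
  obtain ⟨C, c0, c⟩ := unif_fin (J := α × (Fin 4 → Fin 4))
    (p := fun j C => ∀ V ∈ US α η, SN 4 V A → Hs (a j.1 j.2 V) C)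
    (fun _ _ _ e c V hV h => (c V hV h).le e) fun j =>
      let ⟨_, _, c⟩ := (ha j.1 j.2).bd 1 A
      ⟨_, fun V hV h => Hs.of_nb ((ha j.1 j.2).sm V hV) (c V hV h)⟩
  exact ⟨C, c0, fun b p => c (b, p)⟩

theorem gen [Finite α] (ha : ∀ b p, Ord (US α η) univ 3 (a b p))
    (hd : ∀ b p, ∀ V ∈ US α η, ∀ z, |a b p V z| ≤ d) (hR : ∀ b, Ord (US α η) univ 3 (R b))
    (n : ℕ) (A : ℝ) : ∃ C, 0 ≤ C ∧ ∀ V ∈ US α η, SN (n + 3) V A → SN 4 V A → ∀ M, 1 ≤ M →
      SN (n + 4) V M → ∀ S, SS (n + 4) V S → ∀ b, Sb n (Phi a R V b) (256 * d * S + C * M) := by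
  choose L h1 h2 using low ha hR
  obtain ⟨C₁, c1, hC₁⟩ := bda ha A
  obtain ⟨C₂, c2, hC₂⟩ := unif_list n (p := fun l C => ∀ b, ∀ V ∈ US α η,
    SN (l.length + 3) V A → ∀ M, 1 ≤ M → SN (l.length + 4) V M → Nb univ 1 (L b l V) (C * M))
    (fun _ _ _ e c b V hV h M hM h' => (c b V hV h M hM h').le
      (mul_le_mul_of_nonneg_right e (zero_le_one.trans hM))) fun l =>
    (unif_fin (p := fun b C => ∀ V ∈ US α η, SN (l.length + 3) V A → ∀ M, 1 ≤ M →
      SN (l.length + 4) V M → Nb univ 1 (L b l V) (C * M))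
      (fun _ _ _ e c V hV h M hM h' => (c V hV h M hM h').le
        (mul_le_mul_of_nonneg_right e (zero_le_one.trans hM))) fun b =>
      ((h1 b l).tame 0 A).imp fun _ c V hV h M hM h' =>
        c.2 V hV (h.ord (by omega)) M hM (h'.ord (by omega))).imp fun _ c => c.2
  refine ⟨256 * C₁ + 4 * C₂, by positivity, fun V hV u v M hM w S s b l hl => ?_⟩
  subst hl
  rw [h2 b l V hV]
  exact ((hsum fun p => (hC₁ b p V hV v).mul (s b (l ++ List.ofFn p) (by simp)) (hd b p V hV)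
    fun z => w b _ (by simp) z trivial).add (Hs.of_nb ((h1 b l).sm V hV)
      (hC₂ l le_rfl b V hV u M hM w))).le (le_of_eq (by ring))

end PhiP

open PhiP

theorem phi : S_Phi := by
  intro α _ η d a R _ ha hd hR
  refine ⟨fun b => (Ord.sum Finset.univ fun (p : Fin 4 → Fin 4) _ =>
    (ha b p).succ.mul' ((crd b (List.ofFn p)).mono (by simp))).add' (hR b).succ, ?_, fun k A => ?_,
    fun A => ?_⟩
  · obtain ⟨C, c0, c⟩ := gen ha hd hR 0 1
    exact ⟨C, c0, fun V hV u S _ s b =>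
      (c V hV (u.ord (by norm_num)) u 1 le_rfl u S s b [] rfl).le (by rw [mul_one])⟩
  · obtain ⟨C, c0, c⟩ := gen ha hd hR (k + 1) A
    exact ⟨C, c0, fun V hV u M hM w S _ s b => c V hV u (u.ord (by omega)) M hM w S s b⟩
  obtain ⟨C₁, c1, hC₁⟩ := bda ha A
  have key : ∀ {J : Type} [Finite J] {F : J → (α → Fn) → Fn}, (∀ j, Ord (US α η) univ 3 (F j)) →
      ∃ C, 0 ≤ C ∧ ∀ j, ∀ V ∈ US α η, ∀ V' ∈ US α η, SN 4 V A → SN 4 V' A →
        ∀ D, 0 ≤ D → SN 4 (V - V') D → Nb univ 1 (F j V - F j V') (C * D) := fun h =>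
    unif_fin (fun _ _ _ e c V hV V' hV' a a' D hD d =>
      (c V hV V' hV' a a' D hD d).le (mul_le_mul_of_nonneg_right e hD))
      fun j => ((h j).lip 1 A).imp fun _ c => c.2
  obtain ⟨C₂, c2, hC₂⟩ := key (J := α × (Fin 4 → Fin 4)) fun j => ha j.1 j.2
  obtain ⟨C₃, c3, hC₃⟩ := key hR
  refine ⟨256 * (C₁ + 8 * C₂ * max A 0) + 4 * C₃, by positivity,
    fun V hV V' hV' u u' D d0 w S _ s b => ?_⟩
  have v := u.ord (k' := 4) (by norm_num)
  have v' := u'.ord (k' := 4) (by norm_num)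
  have e : Phi a R V b - Phi a R V' b = (fun z => ∑ p : Fin 4 → Fin 4,
      (a b p V * pdl (List.ofFn p) ((V - V') b) + (a b p V - a b p V') * pdl (List.ofFn p) (V' b)) z)
        + (R b V - R b V') := by
    funext z
    simp only [Phi, Pi.sub_apply, Pi.add_apply, Pi.mul_apply,
      fun l => pdl_sub l (US.sm hV b) (US.sm hV' b)]
    rw [add_sub_add_comm, ← Finset.sum_sub_distrib]
    exact congrArg (· + _) (Finset.sum_congr rfl fun p _ => by ring)
  rw [e]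
  have sa := fun p => sm_sub ((ha b p).sm V hV) ((ha b p).sm V' hV')
  have sp := fun p : Fin 4 → Fin 4 => sm_pdl (List.ofFn p) (US.sm hV' b)
  exact ((hsum fun p => ((hC₁ b p V hV v).mul (s b (List.ofFn p) (by simp)) (hd b p V hV)
    fun z => w b _ (by simp) z trivial).add (Hs.of_nb (sm_mul (sa p) (sp p))
      (Nb.mul (sa p) (sp p) (mul_nonneg c2 d0) (le_max_right A 0)
        (hC₂ (b, p) V hV V' hV' v v' D d0 w) (((u' b).max0.ord (by simp)).pdl _)))).add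
    (Hs.of_nb (sm_sub ((hR b).sm V hV) ((hR b).sm V' hV'))
      (hC₃ b V hV V' hV' v v' D d0 w))).le (le_of_eq (by ring))

end Pool.Agent.P.MP_2cea5e_gt.III
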