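import Pool.Agent.P.MP_2cea5e_gt.III.Def
import Pool.Agent.P.MP_2cea5e_gt.II.Real

/-!
Chapter III: small perturbations of a toric Kaehler metric are Kaehler.
-/

open scoped ContDiff ComplexOrder Matrix Topology
open MeasureTheory Set Filter

noncomputable section

namespace Pool.Agent.P.MP_2cea5e_gt.III

open II

namespace PosP

theorem bd {ι : Type} [Finite ι] (g : ι → C2 → ℝ) (hg : ∀ σ, Continuous (g σ)) :
    ∃ B : ℝ, 0 ≤ B ∧ ∀ σ, ∀ y ∈ cb 1, g σ y ≤ B := by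
  have h : ∀ σ, ∃ B : ℝ, ∀ y ∈ cb 1, g σ y ≤ B := fun σ => by
    obtain ⟨B, hB⟩ := (isCompact_closedBall (0 : C2) 1).bddAbove_image (hg σ).continuousOn
    exact ⟨B, fun y hy => hB ⟨y, hy, rfl⟩⟩
  choose B hB using h
  obtain ⟨M, hM⟩ := (Set.finite_range B).bddAbove
  exact ⟨max M 0, le_max_right _ _,
    fun σ y hy => ((hB σ y hy).trans (hM ⟨σ, rfl⟩)).trans (le_max_left _ _)⟩

theorem abs_Ee {u : Fn} {ε : ℝ} {y : C2} (h : ∀ p q, |pd p (pd q u) y| ≤ ε) (i : Fin 4) :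
    |Ee i u y| ≤ ε := by
  have h0 : 0 ≤ ε := (abs_nonneg _).trans (h 0 0)
  have k := fun p q => abs_le.1 (h p q)
  rw [abs_le]
  fin_cases i
  · simp only [Fin.zero_eta, Ee_zero]
    constructor <;> linarith [k 0 0, k 1 1]
  · simp only [Fin.mk_one, Ee_one]
    constructor <;> linarith [k 2 2, k 3 3]
  · simp only [Fin.reduceFinMk, Ee_two]
    constructor <;> linarith [k 0 2, k 1 3]
  · simp only [Fin.reduceFinMk, Ee_three]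
    constructor <;> linarith [k 0 3, k 1 2]

theorem abs_bq {g h : Fin 4 → ℝ} {B ε : ℝ} (hg : ∀ i, |g i| ≤ B) (hh : ∀ i, |h i| ≤ ε) :
    |bq g h| ≤ 6 * (B * ε) := by
  have k : ∀ i j, |g i * h j| ≤ B * ε := fun i j => by
    rw [abs_mul]
    exact mul_le_mul (hg i) (hh j) (abs_nonneg _) ((abs_nonneg _).trans (hg i))
  have k' := fun i j => abs_le.1 (k i j)
  rw [abs_le, bq]
  constructor <;> linarith [k' 1 0, k' 0 1, k' 2 2, k' 3 3]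

theorem abs_Vq {h : Fin 4 → ℝ} {ε : ℝ} (hh : ∀ i, |h i| ≤ ε) : |Vq h| ≤ 3 * (ε * ε) := by
  have h1 := abs_bq hh hh
  have h2 : bq h h = 2 * Vq h := by simp only [bq, Vq]; ring
  rw [h2, abs_mul, abs_two] at h1
  linarith

end PosP

open PosP

theorem pos (h0 : S_Real) (h1 : S_Mx) (h2 : S_Mon) (h3 : S_MonE) : S_Pos := by
  intro ι _ m ψ hm hK
  have hvol : ∀ σ z, vol (ψ σ) z = Vq (Eg (ψ σ) z) := fun σ z => ((h0 _ (hK.smooth σ)).1 z).2.1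
  have hp : ∀ σ z, 0 < Ee 0 (ψ σ) z ∧ 0 < vol (ψ σ) z := fun σ z =>
    ((h0 _ (hK.smooth σ)).1 z).2.2.2.1 (hK.pos σ z)
  obtain ⟨U, hU0, hU⟩ := bd (fun σ y => (vol (ψ σ) y)⁻¹) fun σ =>
    (h0 _ (hK.smooth σ)).2.1.continuous.inv₀ fun y => (hp σ y).2.ne'
  obtain ⟨B, hB0, hB⟩ := bd (fun (q : ι × Fin 4) y => |Ee q.2 (ψ q.1) y|) fun q =>
    (sm_Ee q.2 (hK.smooth q.1)).continuous.abs
  obtain ⟨ε, hε0, hε1, hε2⟩ : ∃ ε : ℝ, 0 < ε ∧ ε ≤ 1 ∧ 4 * (6 * B + 3) * (U + 1) * ε ≤ 1 := by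
    have hd : 0 < 4 * (6 * B + 3) * (U + 1) := by positivity
    refine ⟨min 1 (4 * (6 * B + 3) * (U + 1))⁻¹, lt_min one_pos (inv_pos.2 hd), min_le_left _ _, ?_⟩
    calc _ ≤ 4 * (6 * B + 3) * (U + 1) * (4 * (6 * B + 3) * (U + 1))⁻¹ :=
          mul_le_mul_of_nonneg_left (min_le_right _ _) hd.le
      _ = 1 := mul_inv_cancel₀ hd.ne'
  refine ⟨ε, hε0, fun φ hφ hN => ?_⟩
  have loc : ∀ σ, ∀ y ∈ cb 1, |bq (Eg (ψ σ) y) (Eg (φ σ) y)| ≤ Vq (Eg (ψ σ) y) / 4 ∧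
      |Vq (Eg (φ σ) y)| ≤ Vq (Eg (ψ σ) y) / 4 := by
    intro σ y hy
    have e1 : ∀ i, |Eg (φ σ) y i| ≤ ε := abs_Ee fun p q => hN σ [p, q] le_rfl y hy
    have e2 := abs_bq (g := Eg (ψ σ) y) (fun i => hB (σ, i) y hy) e1
    have e3 := abs_Vq e1
    have e4 := (hp σ y).2
    have e5 : 1 ≤ (U + 1) * vol (ψ σ) y := by
      have := hU σ y hy
      rw [inv_le_iff_one_le_mul₀ e4] at this
      nlinarith
    have e6 : (6 * B + 3) * ε ≤ vol (ψ σ) y / 4 := by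
      have e7 : 0 ≤ (6 * B + 3) * ε := by positivity
      have e8 := mul_le_mul_of_nonneg_left e5 e7
      have e9 := mul_le_mul_of_nonneg_left hε2 e4.le
      nlinarith
    rw [← hvol]
    constructor <;> nlinarith [mul_nonneg hB0 hε0.le]
  have hPψ : Pt m ψ := ⟨hK.smooth, hK.glue⟩
  have hPφ : Pt m φ := ⟨hφ.sm, fun σ τ => ⟨0, 0, fun w hw => by simp [hφ.glue σ τ w hw]⟩⟩
  have tor : ∀ τ z, Tor z → |bq (Eg (ψ τ) z) (Eg (φ τ) z)| ≤ Vq (Eg (ψ τ) z) / 4 ∧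
      |Vq (Eg (φ τ) z)| ≤ Vq (Eg (ψ τ) z) / 4 := by
    intro τ z hz
    have hw := h2.1 (m τ)⁻¹ z hz
    obtain ⟨σ, hσ⟩ := hm.cover fun k => Real.log ‖mon (m τ)⁻¹ z k‖
    have hy : mon (tN m σ τ) z ∈ cb 1 := by
      rw [tN, ← h2.2.1 _ _ z hz, cb, mem_closedBall_zero_iff, pi_norm_le_iff_of_nonneg zero_le_one]
      intro j
      rw [← Real.log_nonpos_iff (norm_nonneg _), h2.2.2.2.2.2.1 _ _ j hw]
      exact hσ j
    have hD := h2.2.2.2.2.2.2.2.1 (tN m σ τ) z hz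
    obtain ⟨e1, e2⟩ := loc σ _ hy
    rw [h3 ι m ψ hm hPψ σ τ z hD, h3 ι m φ hm hPφ σ τ z hD, h1.2.2.2.2.1, h1.2.2.2.1, h1.2.2.2.1,
      abs_mul, abs_mul, abs_of_nonneg (Complex.normSq_nonneg _), mul_div_assoc]
    exact ⟨mul_le_mul_of_nonneg_left e1 (Complex.normSq_nonneg _),
      mul_le_mul_of_nonneg_left e2 (Complex.normSq_nonneg _)⟩
  intro σ z
  have c1 : ∀ i, Continuous fun y => Eg (ψ σ) y i := fun i => (sm_Ee i (hK.smooth σ)).continuous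
  have c2 : ∀ i, Continuous fun y => Eg (φ σ) y i := fun i => (sm_Ee i (hφ.sm σ)).continuous
  have hcl : IsClosed {y | |bq (Eg (ψ σ) y) (Eg (φ σ) y)| ≤ Vq (Eg (ψ σ) y) / 4 ∧
      |Vq (Eg (φ σ) y)| ≤ Vq (Eg (ψ σ) y) / 4} := by
    rw [Set.ofPred_and]
    refine IsClosed.inter (isClosed_le ?_ ?_) (isClosed_le ?_ ?_) <;> simp only [bq, Vq] <;> fun_prop
  obtain ⟨e1, e2⟩ := closure_minimal (fun y hy => tor σ y hy) hcl (h2.2.2.2.2.2.2.2.2.2.2 z)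
  obtain ⟨e3, e4⟩ := h1.2.2.2.2.2.2.2.2 _ _ (hp σ z).1 (hvol σ z ▸ (hp σ z).2) e1 e2
  have hs : SmC (ψ σ + φ σ) := ContDiff.add (hK.smooth σ) (hφ.sm σ)
  have e5 : Eg (ψ σ + φ σ) z = Eg (ψ σ) z + Eg (φ σ) z :=
    funext fun i => congrFun (Ee_add' i (hK.smooth σ) (hφ.sm σ)) z
  have e6 := ((h0 _ hs).1 z).2.1
  rw [← e5] at e3 e4
  rw [← e6, ← hvol] at e4
  exact ⟨((h0 _ hs).1 z).2.2.2.2 ⟨e3, by linarith [(hp σ z).2]⟩, e4⟩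

end Pool.Agent.P.MP_2cea5e_gt.III
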