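import Pool.Agent.P.MP_2cea5e_gt.III.Tool

/-! Chapter III: the biharmonic heat flow from its kernel. -/

open scoped ContDiff Topology
open MeasureTheory Set Filter

noncomputable section

namespace Pool.Agent.P.MP_2cea5e_gt.III

open II

namespace SGP

theorem root8 {μ : ℝ} : √(√(μ ^ 8)) = μ ^ 2 := by
  rw [show μ ^ 8 = (μ ^ 4) ^ 2 by ring, Real.sqrt_sq (by positivity),
    show μ ^ 4 = (μ ^ 2) ^ 2 by ring, Real.sqrt_sq (by positivity)]

theorem der_root {u : ℝ} (hu : 0 < u) :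
    HasDerivAt (fun r : ℝ => √(√r)) (1 / (4 * √(√u) ^ 3)) u := by
  have h1 : 0 < √u := Real.sqrt_pos.2 hu
  have h2 : 0 < √(√u) := Real.sqrt_pos.2 h1
  have h := (Real.hasDerivAt_sqrt h1.ne').comp u (Real.hasDerivAt_sqrt hu.ne')
  refine h.congr_deriv ?_
  have e : √u = √(√u) ^ 2 := (Real.sq_sqrt h1.le).symm
  generalize √(√u) = a at h2 e ⊢
  rw [e]
  field_simp
  ring

end SGP

theorem sg (h0 : S_Ker) (h1 : S_P1) (h2 : S_P2) (h3 : S_P3) : S_SG := by
  obtain ⟨K, hK⟩ := h0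
  obtain ⟨C, hC0, hC⟩ := unif_list 5 (p := fun l C => l ≠ [] → ∀ (g : Fn) (H μ : ℝ), Bd g →
      Hs g H → 0 < μ → ∀ x, |pdl l (Pk K (μ ^ 2) g) x| ≤ C * H * (μ / μ ^ (2 * l.length)))
    (fun l C C' hc h hl g H μ hg hH hμ x => (h hl g H μ hg hH hμ x).trans (by
      have := hH.nonneg
      gcongr))
    (fun l => by
      by_cases hl : l = []
      · exact ⟨0, fun h => absurd hl h⟩
      · obtain ⟨C, hC⟩ := h2 K hK.dk l hl
        exact ⟨C, fun _ => hC⟩)
  have hI : 0 ≤ ∫ y, |K y| := integral_nonneg fun y => abs_nonneg _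
  refine ⟨fun u g => Pk K (√(√u)) g, 1 + (∫ y, |K y|) + C, ?_⟩
  refine ⟨by linarith, fun u g hg => ((h1 K g hK.dk hg).2.1 _).1,
    fun u g l hg => ((h1 K g hK.dk hg).2.1 _).2 l, fun u g g' hg hg' => ?_,
    fun u g g' hg hg' => ?_, fun u g A hg hA x => ?_, fun g hg => ?_, fun g x hg => ?_,
    fun u g x hg hu => ?_, fun g H μ l hg hH hμ hl hl5 x => ?_⟩
  · funext x
    simp only [Pk, Pi.add_apply, mul_add]
    exact integral_add ((h1 K g hK.dk hg).1 _ x) ((h1 K g' hK.dk hg').1 _ x)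
  · funext x
    simp only [Pk, Pi.sub_apply, mul_sub]
    exact integral_sub ((h1 K g hK.dk hg).1 _ x) ((h1 K g' hK.dk hg').1 _ x)
  · have hA0 : 0 ≤ A := (abs_nonneg _).trans (hA x)
    refine ((h1 K g hK.dk hg).2.2.2.1 _ x A hA).trans (mul_le_mul_of_nonneg_right ?_ hA0)
    linarith
  · funext x
    simp only [Pk, Real.sqrt_zero, zero_smul, sub_zero]
    rw [integral_mul_const, hK.one, one_mul]
  · exact ((h1 K g hK.dk hg).2.2.1 x).comp (Real.continuous_sqrt.comp Real.continuous_sqrt)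
  · have h4 : 0 < √(√u) := Real.sqrt_pos.2 (Real.sqrt_pos.2 hu)
    have h := (h3 K g hK hg _ x h4).comp u (SGP.der_root hu)
    refine h.congr_deriv ?_
    field_simp
  · simp only [SGP.root8]
    refine (hC l hl5 hl g H μ hg hH hμ x).trans ?_
    have := hH.nonneg
    gcongr
    linarith

end Pool.Agent.P.MP_2cea5e_gt.III
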