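import Pool.Agent.P.MP_2cea5e_gt.III.OrdT

/-!
Chapter III: the scalar curvature and the coefficients of the patches as tame operators.
-/

open scoped ContDiff ComplexOrder Matrix Topology
open MeasureTheory Set Filter

noncomputable section

namespace Pool.Agent.P.MP_2cea5e_gt.III

open II

namespace ScPP

theorem ol_cv {α : Type} {𝒰 : Set (α → Fn)} {m : ℕ} {G : (α → Fn) → C2 → Fin 4 → ℝ}
    (hG : ∀ j, OL 𝒰 m fun V z => G V z j) {v : Fn} (hv : Continuous v) (h0 : ∀ z, 0 < v z)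
    (hl : ∀ V ∈ 𝒰, ∀ z, v z ≤ Vq (G V z)) (i : Fin 4) : OL 𝒰 m fun V z => cv (G V z) i := by
  have h1 : OL 𝒰 m fun V z => Vq (G V z) :=
    ((((hG 0).mul' (hG 1)).sub' ((hG 2).mul' (hG 2))).sub' ((hG 3).mul' (hG 3))).congr'
      fun V _ => funext fun z => by simp only [Vq, sq]
  refine OL.mul' ?_ (h1.inv hv h0 hl)
  fin_cases i
  exacts [hG 1, hG 0, (hG 2).cmul _, (hG 3).cmul _]

theorem pd_logv (h : S_Real) {f : Fn} (hf : Adm f) (q : Fin 4) :
    pd q (fun y => Real.log (vol f y)) = fun z => ∑ j, cf j f z * pd q (Ee j f) z := by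
  obtain ⟨h1, h2, -⟩ := h f hf.sm
  have s := fun j => sm_Ee j hf.sm
  rw [pd_log' q h2 fun z => ((h1 z).2.2.2.1 (hf.pos z)).2.ne']
  have e : vol f = Ee 0 f * Ee 1 f - Ee 2 f * Ee 2 f - Ee 3 f * Ee 3 f := funext fun z => by
    simp only [(h1 z).2.1, Vq, Eg, sq, Pi.sub_apply, Pi.mul_apply]
  have e2 := congrArg (pd q) e
  rw [pd_sub q (sm_sub (sm_mul (s 0) (s 1)) (sm_mul (s 2) (s 2))) (sm_mul (s 3) (s 3)),
    pd_sub q (sm_mul (s 0) (s 1)) (sm_mul (s 2) (s 2)), pd_mul q (s 0) (s 1), pd_mul q (s 2) (s 2),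
    pd_mul q (s 3) (s 3)] at e2
  funext z
  simp [e2, cf, Fin.sum_univ_four]
  ring

theorem Ee_logv (h : S_Real) {f : Fn} (hf : Adm f) (i : Fin 4) (z : C2) :
    Ee i (fun y => Real.log (vol f y)) z = ∑ j, cf j f z * Ee i (Ee j f) z +
      ∑ p, ∑ q, ec i p q * ∑ j, pd p (cf j f) z * pd q (Ee j f) z := by
  have c := ((h f hf.sm).2.2 hf).1
  have s := fun q j => sm_pd q (sm_Ee j hf.sm)
  have e : ∀ p q, pd p (pd q fun y => Real.log (vol f y)) z =
      ∑ j, (pd p (cf j f) z * pd q (Ee j f) z + cf j f z * pd p (pd q (Ee j f)) z) := fun p q => by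
    rw [pd_logv h hf, pd_sum' p _ fun j _ => (c j).mul (s q j)]
    exact Finset.sum_congr rfl fun j _ => congrFun (pd_mul' p (c j) (s q j)) z
  have e2 : ∑ j, cf j f z * Ee i (Ee j f) z =
      ∑ p, ∑ q, ec i p q * ∑ j, cf j f z * pd p (pd q (Ee j f)) z := by
    simp only [Ee.eq_def i, Finset.mul_sum]
    rw [Finset.sum_comm]
    refine Finset.sum_congr rfl fun p _ => ?_
    rw [Finset.sum_comm]
    exact Finset.sum_congr rfl fun q _ => Finset.sum_congr rfl fun j _ => mul_left_comm _ _ _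
  rw [e2, Ee.eq_def i]
  simp only [e, Finset.sum_add_distrib, mul_add]
  exact add_comm _ _

theorem cv_I0 (i : Fin 4) : cv I0 i = I0 i := by
  fin_cases i <;> simp [cv, Vq, I0]

theorem near (d' : ℝ) (hd : 0 < d') : ∃ d : ℝ, 0 < d ∧ ∀ g : Fin 4 → ℝ, (∀ i, |g i - I0 i| ≤ d) →
    1 / 2 ≤ Vq g ∧ ∀ i j, |I0 i * I0 j - cv g i * cv g j| ≤ d' := by
  have c1 : Continuous Vq := by unfold Vq; fun_prop
  have v1 : Vq I0 = 1 := by simp [Vq, I0]
  have c2 : ∀ i, ContinuousAt (fun g => cv g i) I0 := fun i => by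
    refine (Continuous.continuousAt ?_).mul
      (c1.continuousAt.inv₀ (by rw [v1]; exact one_ne_zero))
    fun_prop
  have e : ∀ᶠ g in 𝓝 I0, 1 / 2 ≤ Vq g ∧ ∀ i j, |I0 i * I0 j - cv g i * cv g j| ≤ d' := by
    refine (c1.continuousAt.eventually_const_le (by rw [v1]; norm_num)).and
      (eventually_all.2 fun i => eventually_all.2 fun j => ?_)
    exact (continuousAt_const.sub ((c2 i).mul (c2 j))).abs.eventually_le_const
      (by simpa [cv_I0] using hd)
  obtain ⟨d, d0, hd⟩ := Metric.nhds_basis_closedBall.eventually_iff.1 e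
  exact ⟨d, d0, fun g hg => hd ((dist_pi_le_iff d0.le).2 hg)⟩

theorem sum4 (Φ : Fin 4 → Fin 4 → Fin 4 → Fin 4 → ℝ) :
    ∑ p : Fin 4 → Fin 4, Φ (p 0) (p 1) (p 2) (p 3) = ∑ a, ∑ b, ∑ c, ∑ e, Φ a b c e := by
  simp only [← Fintype.sum_prod_type']
  exact Fintype.sum_equiv ⟨fun p => (p 0, p 1, p 2, p 3), fun x => ![x.1, x.2.1, x.2.2.1, x.2.2.2],
    fun p => funext fun k => by fin_cases k <;> rfl, fun _ => rfl⟩ _ _ fun _ => rfl

theorem Ee_Ee {X : Fn} (hX : SmC X) (i j : Fin 4) (y : C2) : ∑ p : Fin 4 → Fin 4,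
    ec i (p 0) (p 1) * ec j (p 2) (p 3) * pdl (List.ofFn p) X y = Ee i (Ee j X) y := by
  have s : ∀ c e, SmC (pd c (pd e X)) := fun c e => sm_pd c (sm_pd e hX)
  have e1 : ∀ a b, pd a (pd b (Ee j X)) y = ∑ c, ∑ e, ec j c e * pdl [a, b, c, e] X y :=
    fun a b => by
      refine (congrFun (pdl_sum' [a, b] _ fun c _ =>
        sm_sum _ fun e _ => contDiff_const.mul (s c e)) y).trans
        (Finset.sum_congr rfl fun c _ => ?_)
      rw [pdl_sum' [a, b] _ fun e _ => contDiff_const.mul (s c e)]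
      exact Finset.sum_congr rfl fun e _ => congrFun (pdl_cmul' [a, b] _ (s c e)) y
  refine (sum4 fun a b c e => ec i a b * ec j c e * pdl [a, b, c, e] X y).trans ?_
  simp only [Ee.eq_def i, e1, Finset.mul_sum, mul_assoc]

theorem ll {X : Fn} (hX : SmC X) (y : C2) :
    lap (lap X) y = 16 * ∑ i, ∑ j, I0 i * I0 j * Ee i (Ee j X) y := by
  have e : lap X = fun z => 4 * (Ee 0 X + Ee 1 X) z := funext (lap_eq X)
  have s := fun j => sm_Ee j hX
  rw [lap_eq, e, Ee_cmul _ _ (sm_add (s 0) (s 1)), Ee_cmul _ _ (sm_add (s 0) (s 1)),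
    Ee_add _ (s 0) (s 1), Ee_add _ (s 0) (s 1)]
  simp [I0, Fin.sum_univ_four]
  ring

end ScPP

open ScPP

theorem scP (h : S_Real) : S_ScP := fun α 𝒰 ψ φ hψ hφ hA => by
  have g : ∀ j, OL 𝒰 2 fun V => Ee j (ψ + φ V) := fun j => ((OL.const hψ.sm).add hφ).Ee j
  have c : ∀ i, OL 𝒰 2 fun V => cf i (ψ + φ V) := fun i =>
    (ol_cv (G := fun V => Eg (ψ + φ V)) g (v := fun z => vol ψ z / 2)
      ((h ψ hψ.sm).2.1.cont.div_const 2)
      (fun z => half_pos (((h ψ hψ.sm).1 z).2.2.2.1 (hψ.pos z)).2)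
      (fun V hV z => ((h _ (hA V hV).1.sm).1 z).2.1 ▸ (hA V hV).2 z) i).congr'
      fun V hV => funext fun z => ((h _ (hA V hV).1.sm).1 z).2.2.1 i
  have c3 : ∀ i, OL 𝒰 3 fun V => cf i (ψ + φ V) := fun i => (c i).mono (by omega)
  refine ⟨c, (OL.sum Finset.univ fun i _ => (c3 i).mul'
    ((OL.sum Finset.univ fun j _ => (c3 j).mul' (OL.const (sm_Ee i (sm_Ee j hψ.sm)))).add'
      (OL.sum Finset.univ fun p _ => OL.sum Finset.univ fun q _ =>
        (OL.sum Finset.univ fun j _ => ((c j).pd p).mul' ((g j).pd q)).cmul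
          (ec i p q)))).neg.congr' fun V hV => funext fun z => ?_⟩
  have a := (hA V hV).1
  have s := hφ.sm V hV
  have e : ∀ i j, Ee i (Ee j (ψ + φ V)) z = Ee i (Ee j ψ) z + Ee i (Ee j (φ V)) z := fun i j => by
    rw [Ee_add j hψ.sm s, Ee_add i (sm_Ee j hψ.sm) (sm_Ee j s), Pi.add_apply]
  simp only [Pi.add_apply, Pi.neg_apply, ((h _ a.sm).2.2 a).2.2 z, Lam, PiO, Ee_logv h a, e,
    mul_add, Finset.sum_add_distrib, mul_assoc, ← Finset.mul_sum]
  ring

theorem coef (h : S_Real) : S_Coef := fun d' hd' => by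
  obtain ⟨d, d0, hd⟩ := near (d' / 16) (by positivity)
  refine ⟨d, d0, fun α 𝒰 ρ F sρ cρ ρ0 ρ1 hF hb => ?_⟩
  have n : ∀ V ∈ 𝒰, ∀ y, _ := fun V hV y => hd (gt ρ (F V) y) fun i => by
    rw [gt, add_sub_cancel_left, abs_mul, abs_of_nonneg (ρ0 y)]
    by_cases h0 : ρ y = 0
    · rw [h0, zero_mul]; exact d0.le
    · exact (mul_le_of_le_one_left (abs_nonneg _) (ρ1 y)).trans (hb V hV y h0 i)
  have c : ∀ i, OL 𝒰 2 fun V y => cv (gt ρ (F V) y) i :=
    ol_cv (fun j => (OL.cst _).add' ((OL.const sρ).mul' ((hF.Ee j).sub' (OL.cst _))))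
      continuous_const (fun _ => one_half_pos) fun V hV y => (n V hV y).1
  refine ⟨fun p => Ord.of_OL (R := 1) (OL.mono ((OL.sum _ fun i _ => OL.sum _ fun j _ =>
    ((OL.cst _).sub' ((c i).mul' (c j))).mul' (OL.cst _)).cmul 16) (by omega))
    fun V _ y hy => ?_, fun p V hV y => ?_, fun V hV X hX => ⟨sm_sum _ fun i _ => sm_sum _
      fun j _ => (((c i).sm V hV).mul ((c j).sm V hV)).mul (sm_Ee i (sm_Ee j hX)),
      fun y => ?_, fun y hy => ?_⟩⟩
  · have e : gt ρ (F V) y = I0 := funext fun i => by rw [gt, cρ y hy, zero_mul, add_zero]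
    simp [ac, e, cv_I0]
  · have b : ∀ i j, |(I0 i * I0 j - cv (gt ρ (F V) y) i * cv (gt ρ (F V) y) j) *
        (ec i (p 0) (p 1) * ec j (p 2) (p 3))| ≤ d' / 16 * (1 / 4 * (1 / 4)) := fun i j => by
      rw [abs_mul, abs_mul]
      exact mul_le_mul ((n V hV y).2 i j) (mul_le_mul (abs_ec_le _ _ _) (abs_ec_le _ _ _)
        (abs_nonneg _) (by norm_num)) (by positivity) (by positivity)
    have := (Finset.abs_sum_le_sum_abs _ _).trans (Finset.sum_le_sum fun i (_ : i ∈ Finset.univ) =>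
      (Finset.abs_sum_le_sum_abs _ Finset.univ).trans (Finset.sum_le_sum fun j _ => b i j))
    simp only [Finset.sum_const, Finset.card_univ, Fintype.card_fin, nsmul_eq_mul] at this
    rw [ac, abs_mul, abs_of_pos (by norm_num : (0 : ℝ) < 16)]
    push_cast at this
    linarith
  · rw [ll hX, At, ← mul_sub]
    simp only [← Finset.sum_sub_distrib, ← sub_mul]
    simp only [ac, ← Ee_Ee hX, Finset.sum_mul, Finset.mul_sum, mul_assoc]
    rw [Finset.sum_comm]
    exact Finset.sum_congr rfl fun i _ => Finset.sum_comm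
  · have e : gt ρ (F V) y = Eg (F V) y := funext fun i => by
      rw [gt, hy, one_mul, add_sub_cancel, Eg]
    simp only [At, PiO, e, ((h _ (hF.sm V hV)).1 y).2.2.1]

end Pool.Agent.P.MP_2cea5e_gt.III
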