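import Pool.Agent.P.MP_2cea5e_gt.III.OrdT

/-!
Chapter III: the principal part commutes with the patch operators up to order three.
-/

open scoped ContDiff ComplexOrder Matrix Topology
open MeasureTheory Set Filter

noncomputable section

namespace Pool.Agent.P.MP_2cea5e_gt.III

open II

namespace Sys2P

theorem cs_ai {ι α : Type} {ψ : ι → Fn} {d : ℝ} (P : Pat ψ d α) (b : α) :
    ∃ R, Cs R (P.β b ∘ P.Ai b) := by
  obtain ⟨R, h⟩ := (isCompact_closedBall (0 : C2) 1).exists_bound_of_continuousOn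
    (sm_aff' (P.z b) (P.J b)).continuous.continuousOn
  refine ⟨R, fun z hz => P.csβ b _ (not_le.1 fun c => hz.not_ge ?_)⟩
  have := h _ (mem_cb.2 c)
  rwa [Pat.Ai, aff_affi _ (P.det b)] at this

theorem sm_piO {f w : Fn} (hf : ∀ i, SmC (cf i f)) (hw : SmC w) : SmC (PiO f w) :=
  sm_sum _ fun i _ => sm_sum _ fun j _ => ((hf i).mul (hf j)).mul (sm_Ee i (sm_Ee j hw))

theorem ol_com {α : Type} {𝒰 : Set (α → Fn)} {f X : (α → Fn) → Fn} {u : Fn} (hu : SmC u)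
    (hf : ∀ i, OL 𝒰 2 fun V => cf i (f V)) (hX : OL 𝒰 0 X) :
    OL 𝒰 3 fun V => PiO (f V) (u * X V) - u * PiO (f V) (X V) := by
  refine (OL.sum Finset.univ fun i _ => OL.sum Finset.univ fun j _ =>
    (((hf i).mul (hf j)).mono (by norm_num)).mul
      (((hX.com j hu).Ee i).add ((hX.Ee j).com i hu))).congr' fun V hV => funext fun z => ?_
  have s := hX.sm V hV
  simp only [PiO, Pi.sub_apply, Pi.mul_apply, Pi.add_apply, Finset.mul_sum,
    ← Finset.sum_sub_distrib, fun i j => Ee_sub i (sm_Ee j (sm_mul hu s)) (sm_mul hu (sm_Ee j s))]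
  exact Finset.sum_congr rfl fun i _ => Finset.sum_congr rfl fun j _ => by ring

end Sys2P

open Sys2P

theorem sys2 (_h0 : S_Real) (h1 : S_Aff) (h2 : S_Tr) (h3 : S_TrPi) : S_Sys2 := by
  intro ι α _ m ψ d P Av hm hAv b τ 𝒰 f X hK hf hX
  obtain ⟨R, hR⟩ := cs_ai P b
  have sI : ContDiff ℝ ∞ (P.Ai b) := sm_affi _ _
  have sb : SmC (P.β b ∘ P.Ai b) := (P.smβ b).comp sI
  have oX := hX.comp sI
  have oK := ol_com sb (hf (P.σ b)) oX
  have oY := ((OL.const sb).mul oX).avg hAv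
  refine ((h3 ι m hm (P.σ b) τ R α 𝒰 f _ hK (hf τ) oY fun V _ => hAv.cs (hR.mul_right _)).sub
    ((h2 ι m hm).2.2.2.2 (P.σ b) τ R α 𝒰 3 _ (oK.avg hAv) fun V _ =>
      hAv.cs (((hR.mul_right _).PiO _).sub (hR.mul_right _)))).congr' fun V hV => ?_
  have sX := oX.sm V hV
  have sc := fun i => (hf (P.σ b) i).sm V hV
  have e1 : (P.β b * PiO (f V (P.σ b) ∘ P.A b) (X V)) ∘ P.Ai b =
      P.β b ∘ P.Ai b * PiO (f V (P.σ b)) (X V ∘ P.Ai b) := by
    have e := (h1 (P.z b) (P.J b) (P.det b) _ _ ((hK V hV).smooth (P.σ b)) sX).2.2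
    have e' : (X V ∘ P.Ai b) ∘ aff (P.z b) (P.J b) = X V :=
      funext fun y => congrArg (X V) (affi_aff _ (P.det b) y)
    rw [e'] at e
    funext z
    simp only [Pat.A, e, Function.comp_apply, Pi.mul_apply, Pat.Ai, aff_affi _ (P.det b)]
  have e2 := hAv.sub _ _ (sm_piO sc (sm_mul sb sX)) (sm_mul sb (sm_piO sc sX))
  rw [← hAv.pi _ _ ⟨(hK V hV).smooth _, (hK V hV).pos _⟩ ((hK V hV).inv _) (sm_mul sb sX)] at e2
  rw [e2, Pat.E, e1]
  funext z
  change _ - PiO _ (Tr m _ τ (Av (P.β b ∘ P.Ai b * X V ∘ P.Ai b))) z = _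
  simp only [Pi.sub_apply, Tr]
  split_ifs <;> ring

end Pool.Agent.P.MP_2cea5e_gt.III
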