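import Pool.Agent.P.MP_2cea5e_gt.III.OrdT

/-!
Chapter III: the principal part under a change of chart.
-/

open scoped ContDiff ComplexOrder Matrix Topology
open MeasureTheory Set Filter

noncomputable section

namespace Pool.Agent.P.MP_2cea5e_gt.III

open II

namespace TrPiP

variable {ι : Type} {m : ι → Matrix (Fin 2) (Fin 2) ℤ} {σ τ : ι}

theorem tr_mem (X : Fn) {z : C2} (hz : z ∈ DomT (tN m σ τ)) :
    Tr m σ τ X z = X (mon (tN m σ τ) z) := if_pos hz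

theorem tr_zero {X : Fn} {R₀ : ℝ} (hX : Cs R₀ X) {z : C2}
    (hz : z ∈ DomT (tN m σ τ) → R₀ < ‖mon (tN m σ τ) z‖) : Tr m σ τ X z = 0 := by
  by_cases h : z ∈ DomT (tN m σ τ)
  · rw [tr_mem X h, hX _ (hz h)]
  · exact if_neg h

theorem Ee_zero' (i : Fin 4) (z : C2) : Ee i (fun _ => 0) z = 0 := by
  simp [Ee, pd_const]

theorem sm_PiO (h0 : S_Real) {f X : Fn} (hf : Adm f) (hX : SmC X) : SmC (PiO f X) :=
  sm_sum Finset.univ fun i _ => sm_sum Finset.univ fun j _ =>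
    sm_mul (sm_mul (((h0 f hf.sm).2.2 hf).1 i) (((h0 f hf.sm).2.2 hf).1 j))
      (sm_Ee i (sm_Ee j hX))

/-- The cut off Jacobian. -/
def Mc (ζ : Fn) (N : Matrix (Fin 2) (Fin 2) ℤ) (j k : Fin 4) : Fn :=
  fun z => ζ z * Mx (jac (mon N) z) j k

theorem sm_Mc (h1 : S_Mx) (h2 : S_Mon) {ζ : Fn} {N : Matrix (Fin 2) (Fin 2) ℤ} (hζ : SmC ζ)
    (hs : tsupport ζ ⊆ DomT N) (j k : Fin 4) : SmC (Mc ζ N j k) := by
  refine contDiff_iff_contDiffAt.2 fun z => ?_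
  by_cases hz : z ∈ tsupport ζ
  · exact hζ.contDiffAt.mul (h1.2.2.2.2.2.2.1 _ z (h2.2.2.2.2.2.2.2.2.1 N z (hs hz)).2 j k)
  · refine (contDiffAt_const (c := (0 : ℝ))).congr_of_eventuallyEq ?_
    filter_upwards [notMem_tsupport_iff_eventuallyEq.1 hz] with y hy
    simp [Mc, hy]

theorem ee_tr (h2 : S_Mon) (h3 : S_Hol) {ζ X : Fn} {R₀ : ℝ} (hs : tsupport ζ ⊆ DomT (tN m σ τ))
    (hX : SmC X) (hc : Cs R₀ X) {z : C2}
    (hz : (ζ =ᶠ[𝓝 z] fun _ => 1) ∨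
      ∀ᶠ y in 𝓝 z, y ∈ DomT (tN m σ τ) → R₀ < ‖mon (tN m σ τ) y‖) (j : Fin 4) :
    Ee j (Tr m σ τ X) z = ∑ k, Mc ζ (tN m σ τ) j k z * Tr m σ τ (Ee k X) z := by
  rcases hz with hz | hz
  · have h1 : ζ z = 1 := hz.eq_of_nhds
    have hd : z ∈ DomT (tN m σ τ) :=
      hs (subset_tsupport _ (by rw [Function.mem_support, h1]; exact one_ne_zero))
    have e : Tr m σ τ X =ᶠ[𝓝 z] X ∘ mon (tN m σ τ) :=
      ((h2.2.2.2.2.2.2.1 _).eventually_mem hd).mono fun y hy => tr_mem X hy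
    rw [(Ee_congr j e).eq_of_nhds]
    have := congrFun (h3 X _ z hX (h2.2.2.2.2.2.2.2.2.1 _ z hd).1) j
    refine this.trans ?_
    simp only [Matrix.mulVec, dotProduct, Eg, tr_mem _ hd, Mc, h1, one_mul]
  · have e : Tr m σ τ X =ᶠ[𝓝 z] fun _ => 0 := hz.mono fun y hy => tr_zero hc hy
    rw [(Ee_congr j e).eq_of_nhds, Ee_zero']
    simp only [fun k => tr_zero (hc.Ee k) hz.self_of_nhds, mul_zero, Finset.sum_const_zero]

theorem cf_tr (h0 : S_Real) (h1 : S_Mx) (h4 : S_MonE) (hm : IsFan m) {f : ι → Fn}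
    (hf : IsToricKaehler m f) {z : C2} (hd : z ∈ DomT (tN m σ τ)) (k : Fin 4) :
    ∑ i, cf i (f τ) z * Mx (jac (mon (tN m σ τ)) z) i k = cf k (f σ) (mon (tN m σ τ) z) := by
  have hE := h4 ι m f hm ⟨hf.smooth, hf.glue⟩ σ τ z hd
  have a := (h0 _ (hf.smooth τ)).1 z
  have b := (h0 _ (hf.smooth σ)).1 (mon (tN m σ τ) z)
  have hv : 0 < vol (f τ) z := (a.2.2.2.1 (hf.pos τ z)).2
  have hdet : (jac (mon (tN m σ τ)) z).det ≠ 0 := fun h => by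
    rw [a.2.1, hE, h1.2.2.2.1, h] at hv
    simp at hv
  rw [b.2.2.1, ← h1.2.2.2.2.2.1 _ _ k hdet, ← hE]
  simp only [a.2.2.1]

end TrPiP

open TrPiP

theorem trPi (h0 : S_Real) (h1 : S_Mx) (h2 : S_Mon) (h3 : S_Hol) (h4 : S_MonE) (h5 : S_Trs)
    (h6 : S_Tr) : S_TrPi := by
  intro ι m hm σ τ R₀ α 𝒰 f Y hf hcf hY hc R
  obtain ⟨ζ, T, hζ, -, hs, -, hz⟩ := h5 ι m hm σ τ (R + 1) R₀
  obtain ⟨-, t2, -, -, t5⟩ := h6 ι m hm
  have hM := sm_Mc h1 h2 hζ hs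
  have adm : ∀ V ∈ 𝒰, ∀ s, Adm (f V s) := fun V hV s => ⟨(hf V hV).smooth s, (hf V hV).pos s⟩
  have hT : ∀ k, OL 𝒰 2 fun V => Tr m σ τ (Ee k (Y V)) := fun k =>
    t5 σ τ R₀ α 𝒰 2 _ (hY.Ee k) fun V hV => (hc V hV).Ee k
  have hO : OL 𝒰 3 fun V => -fun z => ∑ i, ∑ j, ∑ k, cf i (f V τ) z * cf j (f V τ) z *
      (Ee i (Mc ζ (tN m σ τ) j k * Tr m σ τ (Ee k (Y V))) -
        Mc ζ (tN m σ τ) j k * Ee i (Tr m σ τ (Ee k (Y V)))) z :=
    (OL.sum Finset.univ fun i _ => OL.sum Finset.univ fun j _ => OL.sum Finset.univ fun k _ =>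
      (((hcf i).mono (by norm_num)).mul' ((hcf j).mono (by norm_num))).mul'
        ((hT k).com i (hM j k))).neg
  refine (hO R).congr (fun V hV => sm_sub
    (t2 σ τ _ R₀ (sm_PiO h0 (adm V hV σ) (hY.sm V hV)) ((hc V hV).PiO _))
    (sm_PiO h0 (adm V hV τ) (t2 σ τ _ R₀ (hY.sm V hV) (hc V hV)))) fun V hV z₀ hz₀ => ?_
  have hB : IsOpen {z : C2 | ‖z‖ < R + 1} := isOpen_lt continuous_norm continuous_const
  filter_upwards [hB.mem_nhds (show ‖z₀‖ < R + 1 by linarith [mem_cb.1 hz₀])] with z hzB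
  have sY := hY.sm V hV
  have cY := hc V hV
  have sT : ∀ k, SmC (Tr m σ τ (Ee k (Y V))) := fun k => (hT k).sm V hV
  have e1 : ∀ i j, Ee i (Ee j (Tr m σ τ (Y V))) z =
      ∑ k, Ee i (Mc ζ (tN m σ τ) j k * Tr m σ τ (Ee k (Y V))) z := by
    intro i j
    have e : Ee j (Tr m σ τ (Y V)) =ᶠ[𝓝 z]
        fun y => ∑ k, (Mc ζ (tN m σ τ) j k * Tr m σ τ (Ee k (Y V))) y := by
      filter_upwards [hB.mem_nhds hzB] with y hy
      exact ee_tr h2 h3 hs sY cY (hz y hy) j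
    rw [(Ee_congr i e).eq_of_nhds, Ee_sum i _ fun k _ => sm_mul (hM j k) (sT k)]
  have e2 : ∀ i k, Ee i (Tr m σ τ (Ee k (Y V))) z =
      ∑ l, Mc ζ (tN m σ τ) i l z * Tr m σ τ (Ee l (Ee k (Y V))) z := fun i k =>
    ee_tr h2 h3 hs (sm_Ee k sY) (cY.Ee k) (hz z hzB) i
  have e3 : Tr m σ τ (PiO (f V σ) (Y V)) z = ∑ l, ∑ k,
      (∑ i, cf i (f V τ) z * Mc ζ (tN m σ τ) i l z) *
        (∑ j, cf j (f V τ) z * Mc ζ (tN m σ τ) j k z) * Tr m σ τ (Ee l (Ee k (Y V))) z := by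
    rcases hz z hzB with h | h
    · have h1' : ζ z = 1 := h.eq_of_nhds
      have hd : z ∈ DomT (tN m σ τ) :=
        hs (subset_tsupport _ (by rw [Function.mem_support, h1']; exact one_ne_zero))
      simp only [Mc, h1', one_mul, cf_tr h0 h1 h4 hm.toIsFan (hf V hV) hd, tr_mem _ hd]
      rfl
    · simp only [fun l k => tr_zero ((cY.Ee k).Ee l) h.self_of_nhds, mul_zero,
        Finset.sum_const_zero]
      exact tr_zero (cY.PiO _) h.self_of_nhds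
  simp only [Pi.sub_apply, Pi.neg_apply, Pi.mul_apply, e3, e2, PiO, e1, Fin.sum_univ_four]
  ring

end Pool.Agent.P.MP_2cea5e_gt.III
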