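import Pool.Agent.P.MP_2cea5e_gt.III.OrdT

/-!
Chapter III: transport of functions between charts.
-/

open scoped ContDiff ComplexOrder Matrix Topology
open MeasureTheory Set Filter

noncomputable section

namespace Pool.Agent.P.MP_2cea5e_gt.III

open II

namespace TrsP

theorem smAt (h0 : S_Mon) (A : Matrix (Fin 2) (Fin 2) ℤ) {z : C2} (hz : z ∈ DomT A) :
    ContDiffAt ℝ ∞ (mon A) z :=
  ((h0.2.2.2.2.2.2.2.2.1 A z hz).1.contDiffAt (n := ∞)).restrict_scalars ℝ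

theorem far (h0 : S_Mon) (A : Matrix (Fin 2) (Fin 2) ℤ) {R : ℝ} {z : C2}
    (h : ∀ᶠ y in 𝓝 z, Tor y → R + 1 < ‖mon A y‖) :
    ∀ᶠ y in 𝓝 z, y ∈ DomT A → R < ‖mon A y‖ := by
  filter_upwards [h.eventually_nhds] with y hy hD
  by_contra hle
  have h1 : ∀ᶠ x in 𝓝 y, ‖mon A x‖ < R + 1 :=
    (smAt h0 A hD).continuousAt.norm.eventually_lt continuousAt_const (by linarith [not_lt.1 hle])
  obtain ⟨x, hx, h2⟩ := h0.2.2.2.2.2.2.2.2.2.2.inter_nhds_nonempty (hy.and h1)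
  exact lt_asymm (h2.1 hx) h2.2

variable {ι : Type} {m : ι → Matrix (Fin 2) (Fin 2) ℤ}

theorem tr_eq {σ τ : ι} {R R₀ : ℝ} {ζ : Fn} {T : C2 → C2}
    (h1 : tsupport ζ ⊆ DomT (tN m σ τ)) (h2 : ∀ z ∈ tsupport ζ, T =ᶠ[𝓝 z] mon (tN m σ τ))
    (h3 : ∀ z, ‖z‖ < R → (ζ =ᶠ[𝓝 z] fun _ => 1) ∨
      ∀ᶠ y in 𝓝 z, y ∈ DomT (tN m σ τ) → R₀ < ‖mon (tN m σ τ) y‖)
    {X : Fn} (hX : Cs R₀ X) {z : C2} (hz : ‖z‖ < R) : Tr m σ τ X z = (ζ * X ∘ T) z := by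
  show _ = ζ z * X (T z)
  unfold Tr
  rcases h3 z hz with h | h
  · have e : ζ z = 1 := h.eq_of_nhds
    have hs : z ∈ tsupport ζ := subset_tsupport ζ (by simp [e])
    rw [if_pos (h1 hs), e, one_mul, (h2 z hs).eq_of_nhds]
  · have h4 : z ∈ DomT (tN m σ τ) → X (mon (tN m σ τ) z) = 0 := fun hD =>
      hX _ (h.self_of_nhds hD)
    by_cases e : ζ z = 0
    · rw [e, zero_mul]
      split_ifs with hD
      · exact h4 hD
      · rfl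
    · have hs : z ∈ tsupport ζ := subset_tsupport ζ e
      rw [if_pos (h1 hs), (h2 z hs).eq_of_nhds, h4 (h1 hs), mul_zero]

theorem tr_ev {σ τ : ι} {R R₀ : ℝ} {ζ : Fn} {T : C2 → C2}
    (h1 : tsupport ζ ⊆ DomT (tN m σ τ)) (h2 : ∀ z ∈ tsupport ζ, T =ᶠ[𝓝 z] mon (tN m σ τ))
    (h3 : ∀ z, ‖z‖ < R → (ζ =ᶠ[𝓝 z] fun _ => 1) ∨
      ∀ᶠ y in 𝓝 z, y ∈ DomT (tN m σ τ) → R₀ < ‖mon (tN m σ τ) y‖)
    {X : Fn} (hX : Cs R₀ X) {z : C2} (hz : ‖z‖ < R) : Tr m σ τ X =ᶠ[𝓝 z] ζ * X ∘ T := by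
  filter_upwards [(isOpen_lt continuous_norm continuous_const).mem_nhds hz] with y hy
  exact tr_eq h1 h2 h3 hX hy

theorem tr_sm (h1 : S_Trs) (hm : IsFanD m) (σ τ : ι) {X : Fn} {R₀ : ℝ} (hX : SmC X)
    (hc : Cs R₀ X) : SmC (Tr m σ τ X) := by
  refine contDiff_iff_contDiffAt.2 fun z => ?_
  obtain ⟨ζ, T, a1, a2, a3, a4, a5⟩ := h1 ι m hm σ τ (‖z‖ + 1) R₀
  have hs : SmC (ζ * X ∘ T) := sm_mul a1 (ContDiff.comp hX a2)
  exact (ContDiff.contDiffAt hs).congr_of_eventuallyEq (tr_ev a3 a4 a5 hc (lt_add_one _))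

theorem tN_mon (h0 : S_Mon) (hm : IsFanD m) (σ τ : ι) {w : C2} (hw : Tor w) :
    mon (tN m σ τ) (mon (m τ) w) = mon (m σ) w := by
  rw [h0.2.1 _ _ w hw, tN, Matrix.mul_assoc, Matrix.nonsing_inv_mul _ (hm.unimod τ),
    Matrix.mul_one]

theorem tr_mon' (h0 : S_Mon) (hm : IsFanD m) (σ τ : ι) (X : Fn) {w : C2} (hw : Tor w) :
    Tr m σ τ X (mon (m τ) w) = X (mon (m σ) w) := by
  unfold Tr
  rw [if_pos (h0.2.2.2.2.2.2.2.1 _ _ (h0.1 _ w hw)), tN_mon h0 hm σ τ hw]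

theorem tr_inv (h0 : S_Mon) (σ τ : ι) {X : Fn} (hX : Inv X) : Inv (Tr m σ τ X) := by
  intro θ z hθ
  have hne : ∀ k, θ k ≠ 0 := fun k e => by simpa [e] using hθ k
  have e : θ * z ∈ DomT (tN m σ τ) ↔ z ∈ DomT (tN m σ τ) := by
    simp [DomT, hne]
  unfold Tr
  by_cases hz : z ∈ DomT (tN m σ τ)
  · rw [if_pos hz, if_pos (e.2 hz), h0.2.2.2.1]
    exact hX _ _ (h0.2.2.2.2.1 _ θ hθ)
  · rw [if_neg hz, if_neg (fun H => hz (e.1 H))]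

theorem gl_eq (h0 : S_Mon) (hm : IsFanD m) (σ τ : ι) {u : ι → Fn} (hu : Gl m u) :
    EqOn (fun z => u σ (mon (tN m σ τ) z)) (u τ) (DomT (tN m σ τ)) := by
  refine EqOn.of_subset_closure (s := {z | Tor z}) (fun y hy => ?_) (fun z hz => ?_)
    (ContDiff.continuous (hu.sm τ)).continuousOn (fun z hz => h0.2.2.2.2.2.2.2.1 _ z hz)
    (fun z _ => h0.2.2.2.2.2.2.2.2.2.2 z)
  · have hw : Tor (mon (m τ)⁻¹ y) := h0.1 _ y hy
    have e : mon (m τ) (mon (m τ)⁻¹ y) = y := by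
      rw [h0.2.1 _ _ y hy, Matrix.mul_nonsing_inv _ (hm.unimod τ), h0.2.2.1]
    have := hu.glue σ τ _ hw
    rw [← tN_mon h0 hm σ τ hw, e] at this
    exact this
  · exact ((ContDiff.continuous (hu.sm σ)).continuousAt.comp
      (smAt h0 _ hz).continuousAt).continuousWithinAt

end TrsP

open TrsP

theorem trs (h0 : S_Mon) (h1 : S_CC) : S_Trs := by
  intro ι m hm σ τ R R₀
  have hU : IsOpen (DomT (tN m σ τ)) := h0.2.2.2.2.2.2.1 _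
  have hW : IsOpen {z : C2 | ∀ᶠ y in 𝓝 z, y ∈ DomT (tN m σ τ) → R₀ < ‖mon (tN m σ τ) y‖} :=
    isOpen_setOfPred_eventually_nhds
  obtain ⟨ζ, a1, a2, a3, a4⟩ := exists_cut ((isCompact_closedBall (0 : C2) R).diff hW) hU
    (fun z hz => (h1 ι m hm σ τ (R₀ + 1) z).resolve_right fun H => hz.2 (far h0 _ H))
  obtain ⟨ζ', b1, -, b3, b4⟩ := exists_cut a2 hU a3
  refine ⟨ζ, fun z => ζ' z • mon (tN m σ τ) z, a1, contDiff_iff_contDiffAt.2 fun z => ?_, a3,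
    fun z hz => ?_, fun z hz => ?_⟩
  · by_cases hz : z ∈ DomT (tN m σ τ)
    · exact (ContDiff.contDiffAt b1).smul (smAt h0 _ hz)
    · refine (contDiffAt_const (c := (0 : C2))).congr_of_eventuallyEq ?_
      filter_upwards [notMem_tsupport_iff_eventuallyEq.1 fun H => hz (b3 H)] with y hy
      simp [hy]
  · filter_upwards [b4 z hz] with y hy
    simp [hy]
  · by_cases hW' : ∀ᶠ y in 𝓝 z, y ∈ DomT (tN m σ τ) → R₀ < ‖mon (tN m σ τ) y‖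
    · exact Or.inr hW'
    · exact Or.inl (a4 z ⟨mem_closedBall_zero_iff.2 hz.le, hW'⟩)

theorem tr (h0 : S_Mon) (h1 : S_Trs) : S_Tr := by
  intro ι m hm
  refine ⟨fun σ X R₀ hX hc hi => ⟨fun τ => tr_sm h1 hm σ τ hX hc, fun τ => tr_inv h0 σ τ hi,
    fun τ τ' w hw => ?_⟩, fun σ τ X R₀ hX hc => tr_sm h1 hm σ τ hX hc,
    fun σ τ X w hw => tr_mon' h0 hm σ τ X hw, fun σ τ X u hu => funext fun z => ?_,
    fun σ τ R₀ α 𝒰 k F hF hc R => ?_⟩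
  · rw [tr_mon' h0 hm σ τ X hw, tr_mon' h0 hm σ τ' X hw]
  · show _ = Tr m σ τ X z * u τ z
    unfold Tr
    by_cases hz : z ∈ DomT (tN m σ τ)
    · rw [if_pos hz, if_pos hz, ← gl_eq h0 hm σ τ hu hz]
      rfl
    · rw [if_neg hz, if_neg hz, zero_mul]
  · obtain ⟨ζ, T, a1, a2, a3, a4, a5⟩ := h1 ι m hm σ τ (R + 1) R₀
    exact (((OL.const a1).mul (hF.comp a2)) R).congr
      (fun V hV => tr_sm h1 hm σ τ (hF.sm V hV) (hc V hV))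
      fun V hV z hz => tr_ev a3 a4 a5 (hc V hV) ((mem_cb.1 hz).trans_lt (lt_add_one R))

end Pool.Agent.P.MP_2cea5e_gt.III
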