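import Pool.Agent.P.MP_2cea5e_gt.III.Avg
import Pool.Agent.P.MP_2cea5e_gt.III.Fin
import Pool.Agent.P.MP_2cea5e_gt.III.G0
import Pool.Agent.P.MP_2cea5e_gt.III.G1
import Pool.Agent.P.MP_2cea5e_gt.III.G2
import Pool.Agent.P.MP_2cea5e_gt.III.G3
import Pool.Agent.P.MP_2cea5e_gt.III.Hol
import Pool.Agent.P.MP_2cea5e_gt.III.I4
import Pool.Agent.P.MP_2cea5e_gt.III.Iter
import Pool.Agent.P.MP_2cea5e_gt.III.Ker
import Pool.Agent.P.MP_2cea5e_gt.III.Lim
import Pool.Agent.P.MP_2cea5e_gt.III.Mon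
import Pool.Agent.P.MP_2cea5e_gt.III.MonE
import Pool.Agent.P.MP_2cea5e_gt.III.Mx
import Pool.Agent.P.MP_2cea5e_gt.III.P1
import Pool.Agent.P.MP_2cea5e_gt.III.P2
import Pool.Agent.P.MP_2cea5e_gt.III.P3
import Pool.Agent.P.MP_2cea5e_gt.III.Par
import Pool.Agent.P.MP_2cea5e_gt.III.Pat
import Pool.Agent.P.MP_2cea5e_gt.III.Phi
import Pool.Agent.P.MP_2cea5e_gt.III.Pos
import Pool.Agent.P.MP_2cea5e_gt.III.SG
import Pool.Agent.P.MP_2cea5e_gt.III.ScP
import Pool.Agent.P.MP_2cea5e_gt.III.Sys1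
import Pool.Agent.P.MP_2cea5e_gt.III.Sys2
import Pool.Agent.P.MP_2cea5e_gt.III.TrPi
import Pool.Agent.P.MP_2cea5e_gt.III.Trs
import Pool.Agent.P.MP_2cea5e_gt.II.JS

/-!
Chapter III: short time existence.
-/

namespace Pool.Agent.P.MP_2cea5e_gt.III

theorem short : StShort :=
  have a1 := p1 par
  have b1 := g1 par g0
  have ho := hol mx
  have af := affT real' mx ho
  have me := monE mon' ho
  have ts := trs mon' (cc mon')
  have t := tr mon' ts
  kap (fin (iter (sg ker a1 (p2 a1) (p3 a1)) b1 (g2 g0 b1) (g3 g0 b1) phi i1 i2 i3 (i4 lim))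
    (coef real') (pat real' mx af) (avg par real' af) (sys1 mon' t)
    (sys2 real' af t (trPi real' mx mon' ho me ts t)) (scP real') (pos real' mx mon' me) scalT
    (endT II.js_ok))

end Pool.Agent.P.MP_2cea5e_gt.III
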