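import Pool.Agent.P.MP_2cea5e_gt.III.Tool

/-!
Chapter III: the average over the compact torus.
-/

open scoped ContDiff ComplexOrder Matrix Topology
open MeasureTheory Set Filter

noncomputable section

namespace Pool.Agent.P.MP_2cea5e_gt.III

open II

namespace AvgP

/-- The compact torus. -/
abbrev Tq : Type := Fin 2 → Circle

instance : MeasurableSpace Tq := borel Tq

instance : BorelSpace Tq := ⟨rfl⟩

/-- The normalised Haar measure. -/
def mu : Measure Tq := Measure.haarMeasure ⊤

instance : IsProbabilityMeasure mu := ⟨by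
  have := Measure.haarMeasure_self (G := Tq) (K₀ := ⊤)
  rwa [TopologicalSpace.PositiveCompacts.coe_top] at this⟩

instance : mu.IsMulLeftInvariant := by unfold mu; infer_instance

/-- The embedding of the torus. -/
def em (θ : Tq) : C2 := fun j => (θ j : ℂ)

theorem norm_em (θ : Tq) (j : Fin 2) : ‖em θ j‖ = 1 := Circle.norm_coe _

theorem cont_em : Continuous em := by
  unfold em
  fun_prop

theorem em_mul (θ φ : Tq) : em (θ * φ) = em θ * em φ := by
  funext j
  simp [em]

theorem norm_em_mul (θ : Tq) (z : C2) : ‖em θ * z‖ ≤ ‖z‖ :=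
  (pi_norm_le_iff_of_nonneg (norm_nonneg z)).2 fun j => by
    rw [Pi.mul_apply, norm_mul, norm_em, one_mul]
    exact norm_le_pi_norm z j

/-- Rotation of a function. -/
def rot (θ : C2) (X : Fn) : Fn := fun z => X (θ * z)

theorem sm_rot (θ : C2) {X : Fn} (hX : SmC X) : SmC (rot θ X) :=
  hX.comp (ContinuousLinearMap.mul ℝ C2 θ).contDiff

theorem pd_rot (θ : C2) {X : Fn} (hX : SmC X) (a : Fin 4) :
    pd a (rot θ X) = fun z => ∑ b, co b (θ * dir a) * rot θ (pd b X) z := by
  funext z
  have h := ((hX.hfd (θ * z)).comp z (ContinuousLinearMap.mul ℝ C2 θ).hasFDerivAt).fderiv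
  exact (congrArg (fun L : C2 →L[ℝ] ℝ => L (dir a)) h).trans (fderiv_apply X (θ * z) (θ * dir a))

theorem pdl_rot (θ : C2) {X : Fn} (hX : SmC X) (l : List (Fin 4)) (a : Fin 4) :
    pdl (l ++ [a]) (rot θ X) = fun z => ∑ b, co b (θ * dir a) * pdl l (rot θ (pd b X)) z := by
  rw [pdl_concat, pd_rot θ hX,
    pdl_sum' l Finset.univ fun b _ => ContDiff.mul contDiff_const (sm_rot θ (sm_pd b hX))]
  funext z
  exact Finset.sum_congr rfl fun b _ => congrFun (pdl_cmul' l _ (sm_rot θ (sm_pd b hX))) z

theorem cont_rot (l : List (Fin 4)) : ∀ {X : Fn}, SmC X →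
    Continuous fun q : Tq × C2 => pdl l (rot (em q.1) X) q.2 := by
  induction l using List.reverseRecOn with
  | nil => exact fun hX => hX.cont.comp ((cont_em.comp continuous_fst).mul continuous_snd)
  | append_singleton l a ih =>
    intro X hX
    simp only [pdl_rot _ hX]
    exact continuous_finsetSum _ fun b _ =>
      ((co b).continuous.comp ((cont_em.comp continuous_fst).mul continuous_const)).mul
        (ih (sm_pd b hX))

theorem bd_rot (θ : Tq) (R A : ℝ) (l : List (Fin 4)) : ∀ {X : Fn}, SmC X →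
    Nb (cb R) l.length X A → ∀ z ∈ cb R, |pdl l (rot (em θ) X) z| ≤ 4 ^ l.length * A := by
  induction l using List.reverseRecOn with
  | nil =>
    intro X _ h z hz
    simpa [rot] using h.zero' (mem_cb.2 ((norm_em_mul θ z).trans (mem_cb.1 hz)))
  | append_singleton l a ih =>
    intro X hX h z hz
    rw [List.length_append, List.length_singleton] at h ⊢
    rw [pdl_rot _ hX]
    refine (Finset.abs_sum_le_sum_abs _ _).trans ?_
    refine (Finset.sum_le_card_nsmul _ _ (4 ^ l.length * A) fun b _ => ?_).trans (le_of_eq ?_)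
    · rw [abs_mul]
      refine (mul_le_of_le_one_left (abs_nonneg _) ?_).trans (ih (sm_pd b hX) (h.pd b) z hz)
      exact (abs_co_le b _).trans ((norm_em_mul θ _).trans (norm_dir a).le)
    · simp [pow_succ]
      ring

/-- The average. -/
def av (X : Fn) : Fn := fun z => ∫ θ, rot (em θ) X z ∂mu

theorem int_pdl (l : List (Fin 4)) {X : Fn} (hX : SmC X) (z : C2) :
    Integrable (fun θ => pdl l (rot (em θ) X) z) mu :=
  ((cont_rot l hX).comp (continuous_id.prodMk continuous_const)).integrable_of_hasCompactSupport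
    (HasCompactSupport.of_compactSpace _)

theorem av_pdl (h0 : S_Par) {X : Fn} (hX : SmC X) :
    SmC (av X) ∧ ∀ l, pdl l (av X) = fun z => ∫ θ, pdl l (rot (em θ) X) z ∂mu :=
  h0 Tq mu (fun θ => rot (em θ) X) (Eventually.of_forall fun _ => sm_rot _ hX)
    (fun l z => (int_pdl l hX z).aestronglyMeasurable) fun l R => by
      obtain ⟨A, -, hA⟩ := exists_nb_cb hX R l.length
      exact ⟨fun _ => 4 ^ l.length * A, integrable_const _,
        Eventually.of_forall fun θ z hz => bd_rot θ R A l hX hA z (mem_cb.2 hz)⟩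

theorem abs_int_le {g : Tq → ℝ} {c : ℝ} (h : ∀ θ, |g θ| ≤ c) : |∫ θ, g θ ∂mu| ≤ c := by
  simpa using norm_integral_le_of_norm_le_const (μ := mu) (f := g) (Eventually.of_forall h)

theorem EE_eq (i j : Fin 4) {w : Fn} (hw : SmC w) (z : C2) : Ee i (Ee j w) z =
    ∑ p, ∑ q, ec i p q * ∑ r, ∑ s, ec j r s * pdl [r, s, p, q] w z := by
  refine Finset.sum_congr rfl fun p _ => Finset.sum_congr rfl fun q _ => ?_
  exact congrArg (ec i p q * ·) (congrFun (pdl_Ee [p, q] j hw) z)

theorem rot_eq (θ : C2) (X : Fn) : rot θ X = X ∘ aff 0 (Matrix.diagonal θ) := by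
  funext z
  simp only [rot, aff, Function.comp_apply, zero_add]
  congr 1
  funext j
  simp [Matrix.mulVec_diagonal]

end AvgP

open AvgP in
theorem avg (h0 : S_Par) (_h1 : S_Real) (h2 : S_Aff) : S_Avg := by
  refine ⟨av, fun X hX => (av_pdl h0 hX).1, fun X θ z hθ => ?_, fun R k => ?_,
    fun X Y hX hY => ?_, fun X Y hX hY => ?_, fun X u hu => ?_, fun X z c hX h => ?_,
    fun X z c h => abs_int_le fun θ => h _ (norm_em θ), fun f X hf hi hX => ?_⟩
  · set φ : Tq := fun j => ⟨θ j, mem_sphere_zero_iff_norm.2 (hθ j)⟩ with hφ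
    have e : θ = em φ := rfl
    rw [av, av, ← integral_mul_left_eq_self (fun θ => rot (em θ) X z) φ]
    simp only [rot, em_mul, e, mul_left_comm, mul_assoc]
  · refine ⟨4 ^ k, by positivity, fun X A hX hA l hl z hz => ?_⟩
    rw [(av_pdl h0 hX).2]
    refine abs_int_le fun θ => (bd_rot θ R A l hX (hA.ord hl) z hz).trans ?_
    exact mul_le_mul_of_nonneg_right (pow_le_pow_right₀ (by norm_num) hl)
      ((abs_nonneg _).trans (hA.zero' hz))
  · funext z
    exact integral_add (int_pdl [] hX z) (int_pdl [] hY z)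
  · funext z
    exact integral_sub (int_pdl [] hX z) (int_pdl [] hY z)
  · funext z
    simp only [av, rot, Pi.mul_apply, hu _ z (norm_em _)]
    exact integral_mul_const _ _
  · have := integral_mono (integrable_const c) (int_pdl [] hX z) fun θ => h _ (norm_em θ)
    simpa [av] using this
  · funext z
    have e1 : ∀ θ : Tq, rot (em θ) (PiO f X) z = PiO f (rot (em θ) X) z := fun θ => by
      have hd : (Matrix.diagonal (em θ)).det ≠ 0 := by
        rw [Matrix.det_diagonal]
        exact Finset.prod_ne_zero_iff.2 fun j _ => norm_ne_zero_iff.1 (by rw [norm_em]; simp)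
      have h3 := (h2 0 _ hd f X hf.sm hX).2.2
      have h4 : rot (em θ) f = f := funext fun y => hi _ y (norm_em θ)
      rw [← rot_eq, ← rot_eq, ← rot_eq, h4] at h3
      rw [h3]
    have i0 := fun l => int_pdl l hX z
    have i1 : ∀ j p q, Integrable
        (fun θ => ∑ r, ∑ s, ec j r s * pdl [r, s, p, q] (rot (em θ) X) z) mu := fun j p q =>
      integrable_finsetSum _ fun r _ => integrable_finsetSum _ fun s _ => (i0 _).const_mul _
    have i2 : ∀ i j, Integrable (fun θ => ∑ p, ∑ q, ec i p q *
        ∑ r, ∑ s, ec j r s * pdl [r, s, p, q] (rot (em θ) X) z) mu := fun i j =>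
      integrable_finsetSum _ fun p _ => integrable_finsetSum _ fun q _ => (i1 j p q).const_mul _
    rw [av]
    simp only [e1, PiO, EE_eq _ _ (av_pdl h0 hX).1, EE_eq _ _ (sm_rot _ hX), (av_pdl h0 hX).2]
    rw [integral_finsetSum _ fun i _ => integrable_finsetSum _ fun j _ => (i2 i j).const_mul _]
    refine Finset.sum_congr rfl fun i _ => ?_
    rw [integral_finsetSum _ fun j _ => (i2 i j).const_mul _]
    refine Finset.sum_congr rfl fun j _ => ?_
    rw [integral_const_mul,
      integral_finsetSum _ fun p _ => integrable_finsetSum _ fun q _ => (i1 j p q).const_mul _]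
    refine congrArg _ (Finset.sum_congr rfl fun p _ => ?_)
    rw [integral_finsetSum _ fun q _ => (i1 j p q).const_mul _]
    refine Finset.sum_congr rfl fun q _ => ?_
    rw [integral_const_mul,
      integral_finsetSum _ fun r _ => integrable_finsetSum _ fun s _ => (i0 _).const_mul _]
    refine congrArg _ (Finset.sum_congr rfl fun r _ => ?_)
    rw [integral_finsetSum _ fun s _ => (i0 _).const_mul _]
    exact Finset.sum_congr rfl fun s _ => (integral_const_mul _ _).symm

end Pool.Agent.P.MP_2cea5e_gt.III
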