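import Pool.Agent.P.MP_2cea5e_gt.III.OrdT
import Pool.Agent.P.MP_2cea5e_gt.II.Glue

/-!
Chapter III: statements taken over from chapter II.
-/

open scoped ContDiff ComplexOrder Matrix Topology
open MeasureTheory Set Filter

noncomputable section

namespace Pool.Agent.P.MP_2cea5e_gt.III

open II

theorem real' : S_Real := fun f hf => by
  have hv : ∀ z, vol f z = Vq (Eg f z) := fun z => by
    rw [vol_eq hf]; simp only [Vq, Eg]; ring
  refine ⟨fun z => ⟨hess_real_form hf z, hv z, fun i => ?_, posDef_iff hf z⟩, sm_vol hf,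
    fun h => ⟨sm_cf h, sm_scal h, fun z => by rw [scal_eq h]⟩⟩
  rw [cf, hv]; rfl

theorem scalT : S_Scal := fun _ _ _ _ hm hK =>
  ⟨fun σ => sm_scal ⟨hK.smooth σ, hK.pos σ⟩, fun σ => scal_inv ⟨hK.smooth σ, hK.pos σ⟩ (hK.inv σ),
    fun σ τ _ hw => scal_glue hm hK σ τ hw⟩

theorem tk_gl {ι : Type} {m : ι → Matrix (Fin 2) (Fin 2) ℤ} {ψ φ : ι → Fn}
    (hK : IsToricKaehler m ψ) (h : Gl m φ) (hp : ∀ σ z, (hess (ψ σ + φ σ) z).PosDef) :
    IsToricKaehler m fun σ => ψ σ + φ σ := by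
  refine ⟨fun σ => sm_add (hK.smooth σ) (h.sm σ), fun σ θ z hθ => ?_, hp, fun σ τ => ?_⟩
  · simp only [Pi.add_apply, hK.inv σ θ z hθ, h.inv σ θ z hθ]
  · obtain ⟨a, b, e⟩ := hK.glue σ τ
    refine ⟨a, b, fun w hw => ?_⟩
    simp only [Pi.add_apply, h.glue σ τ w hw]
    linarith [e w hw]

end Pool.Agent.P.MP_2cea5e_gt.III
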