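import Pool.Agent.P.MP_2cea5e_gt.II.Basic

/-!
Chapter III (short time existence): definitions and the statements of the steps.
-/

open scoped ContDiff ComplexOrder Matrix Topology
open MeasureTheory Set Filter

noncomputable section

namespace Pool.Agent.P.MP_2cea5e_gt.III

open II

abbrev Fn : Type := C2 → ℝ

/-! ### Norms -/

def cb (R : ℝ) : Set C2 := Metric.closedBall 0 R

/-- Derivatives up to order `k` are bounded by `C` on `K`. -/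
def Nb (K : Set C2) (k : ℕ) (f : Fn) (C : ℝ) : Prop :=
  ∀ l : List (Fin 4), l.length ≤ k → ∀ z ∈ K, |pdl l f z| ≤ C

/-- Hoelder bound with exponent one half. -/
def Hs (f : Fn) (H : ℝ) : Prop := ∀ x y, |f x - f y| ≤ H * √‖x - y‖

/-- Hoelder bound for the derivatives of order `k`. -/
def Sb (k : ℕ) (f : Fn) (H : ℝ) : Prop := ∀ l : List (Fin 4), l.length = k → Hs (pdl l f) H

/-- Zero outside the closed ball of radius `R`. -/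
def Cs (R : ℝ) (f : Fn) : Prop := ∀ z, R < ‖z‖ → f z = 0

/-- Smooth with all derivatives bounded. -/
structure Bd (f : Fn) : Prop where
  sm : SmC f
  bd : ∀ k, ∃ C, Nb univ k f C

/-- Bounded and Lipschitz in time, with values in `Bd`. -/
structure TL (τ : ℝ) (f : ℝ → Fn) : Prop where
  sm : ∀ t ∈ Icc 0 τ, SmC (f t)
  bd : ∀ k, ∃ C, ∀ t ∈ Icc 0 τ, Nb univ k (f t) C
  lip : ∀ k, ∃ C, ∀ s ∈ Icc 0 τ, ∀ t ∈ Icc 0 τ, Nb univ k (f t - f s) (C * |t - s|)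

section states

variable {α : Type}

def SN (k : ℕ) (V : α → Fn) (A : ℝ) : Prop := ∀ a, Nb univ k (V a) A
def SS (k : ℕ) (V : α → Fn) (S : ℝ) : Prop := ∀ a, Sb k (V a) S

/-- Small states. -/
def US (α : Type) (η : ℝ) : Set (α → Fn) := {V | (∀ a, Bd (V a)) ∧ SN 2 V η}

/-- Tame nonlinear operators of order `m`, with values measured on `K`. -/
structure Ord (𝒰 : Set (α → Fn)) (K : Set C2) (m : ℕ) (F : (α → Fn) → Fn) : Prop where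
  sm : ∀ V ∈ 𝒰, SmC (F V)
  bd : ∀ k A, ∃ C, 0 ≤ C ∧ ∀ V ∈ 𝒰, SN (k + m) V A → Nb K k (F V) C
  tame : ∀ k A, ∃ C, 0 ≤ C ∧ ∀ V ∈ 𝒰, SN (k + m) V A → ∀ M, 1 ≤ M → SN (k + m + 1) V M →
    Nb K (k + 1) (F V) (C * M)
  lip : ∀ k A, ∃ C, 0 ≤ C ∧ ∀ V ∈ 𝒰, ∀ V' ∈ 𝒰, SN (k + m) V A → SN (k + m) V' A →
    ∀ D, 0 ≤ D → SN (k + m) (V - V') D → Nb K k (F V - F V') (C * D)

/-- Tame on every ball. -/
def OL (𝒰 : Set (α → Fn)) (m : ℕ) (F : (α → Fn) → Fn) : Prop := ∀ R, Ord 𝒰 (cb R) m F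

end states

/-! ### The linear equation -/

/-- Smooth with all derivatives rapidly decreasing. -/
structure Dk (L : Fn) : Prop where
  sm : SmC L
  dec : ∀ (l : List (Fin 4)) (N : ℕ), ∃ C, ∀ y, (1 + ‖y‖) ^ N * |pdl l L y| ≤ C

/-- The profile of the biharmonic heat kernel. -/
structure IsKer (K : Fn) : Prop where
  dk : Dk K
  one : ∫ y, K y = 1
  eq : ∀ y, lap (lap K) y = K y + (∑ a, co a y * pd a K y) / 4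

def Pk (L : Fn) (lam : ℝ) (g : Fn) : Fn := fun x => ∫ y, L y * g (x - lam • y)

/-- The biharmonic heat flow. -/
structure IsSG (Q : ℝ → Fn → Fn) (c : ℝ) : Prop where
  one : 1 ≤ c
  sm : ∀ u g, Bd g → SmC (Q u g)
  comm : ∀ u g l, Bd g → pdl l (Q u g) = Q u (pdl l g)
  add : ∀ u g g', Bd g → Bd g' → Q u (g + g') = Q u g + Q u g'
  sub : ∀ u g g', Bd g → Bd g' → Q u (g - g') = Q u g - Q u g'
  sup : ∀ u g A, Bd g → (∀ x, |g x| ≤ A) → ∀ x, |Q u g x| ≤ c * A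
  zero : ∀ g, Bd g → Q 0 g = g
  cont : ∀ g x, Bd g → Continuous fun u => Q u g x
  der : ∀ u g x, Bd g → 0 < u → HasDerivAt (fun r => Q r g x) (-Q u (lap (lap g)) x) u
  hol : ∀ (g : Fn) (H μ : ℝ) (l : List (Fin 4)), Bd g → Hs g H → 0 < μ → l ≠ [] → l.length ≤ 5 →
    ∀ x, |pdl l (Q (μ ^ 8) g) x| ≤ c * H * (μ / μ ^ (2 * l.length))

/-- The Duhamel integral. -/
def Gq (Q : ℝ → Fn → Fn) (f : ℝ → Fn) (t : ℝ) : Fn := fun x => ∫ s in (0 : ℝ)..t, Q (t - s) (f s) x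

structure IsG1 (G : (ℝ → Fn) → ℝ → Fn) (c : ℝ) : Prop where
  one : 1 ≤ c
  zero : ∀ f, G f 0 = 0
  sm : ∀ τ f, TL τ f → ∀ t ∈ Icc 0 τ, SmC (G f t)
  comm : ∀ τ f l, TL τ f → ∀ t ∈ Icc 0 τ, pdl l (G f t) = G (fun s => pdl l (f s)) t
  lap : ∀ τ f, TL τ f → ∀ t ∈ Icc 0 τ, lap (G f t) = G (fun s => lap (f s)) t
  sub : ∀ τ f f', TL τ f → TL τ f' → ∀ t ∈ Icc 0 τ, G (fun s => f s - f' s) t = G f t - G f' t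
  sup : ∀ τ f A, TL τ f → (∀ s ∈ Icc 0 τ, ∀ x, |f s x| ≤ A) → ∀ t ∈ Icc 0 τ, ∀ x,
    |G f t x| ≤ c * A * t

/-- Schauder estimates. -/
structure IsG2 (G : (ℝ → Fn) → ℝ → Fn) (c : ℝ) : Prop where
  n4 : ∀ τ f H ε, τ ≤ 1 → TL τ f → (∀ s ∈ Icc 0 τ, Hs (f s) H) → 0 < ε → τ ≤ ε ^ 8 →
    ∀ t ∈ Icc 0 τ, ∀ l : List (Fin 4), l ≠ [] → l.length ≤ 4 → ∀ x, |pdl l (G f t) x| ≤ c * H * ε
  s4 : ∀ τ f H, τ ≤ 1 → TL τ f → (∀ s ∈ Icc 0 τ, Hs (f s) H) → ∀ t ∈ Icc 0 τ, Sb 4 (G f t) (c * H)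

/-- The equation, in the form of a Taylor estimate. -/
structure IsG3 (G : (ℝ → Fn) → ℝ → Fn) (c : ℝ) : Prop where
  lip : ∀ τ f A, τ ≤ 1 → TL τ f → (∀ s ∈ Icc 0 τ, Nb univ 4 (f s) A) →
    ∀ t ∈ Icc 0 τ, ∀ t' ∈ Icc 0 τ, ∀ x, |G f t' x - G f t x| ≤ c * A * |t' - t|
  tay : ∀ τ f A, τ ≤ 1 → TL τ f → (∀ s ∈ Icc 0 τ, Nb univ 8 (f s) A) →
    (∀ s ∈ Icc 0 τ, ∀ s' ∈ Icc 0 τ, ∀ x, |f s x - f s' x| ≤ A * |s - s'|) →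
    ∀ t ∈ Icc 0 τ, ∀ t' ∈ Icc 0 τ, t ≤ t' → ∀ x,
      |G f t' x - G f t x - (t' - t) * (f t x - lap (lap (G f t)) x)| ≤ c * A * (t' - t) ^ 2

structure IsG (G : (ℝ → Fn) → ℝ → Fn) (c : ℝ) : Prop extends IsG1 G c, IsG2 G c, IsG3 G c

def S_Ker : Prop := ∃ K, IsKer K

/-- Differentiation under the integral. -/
def S_Par : Prop := ∀ (Θ : Type) [MeasurableSpace Θ] (μ : Measure Θ) (F : Θ → Fn),
  (∀ᵐ θ ∂μ, SmC (F θ)) → (∀ l z, AEStronglyMeasurable (fun θ => pdl l (F θ) z) μ) →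
  (∀ (l : List (Fin 4)) (R : ℝ), ∃ b, Integrable b μ ∧
    ∀ᵐ θ ∂μ, ∀ z, ‖z‖ ≤ R → |pdl l (F θ) z| ≤ b θ) →
  SmC (fun z => ∫ θ, F θ z ∂μ) ∧
    ∀ l, pdl l (fun z => ∫ θ, F θ z ∂μ) = fun z => ∫ θ, pdl l (F θ) z ∂μ

def S_P1 : Prop := ∀ L g, Dk L → Bd g →
  (∀ (lam : ℝ) x, Integrable fun y => L y * g (x - lam • y)) ∧
  (∀ lam, SmC (Pk L lam g) ∧ ∀ l, pdl l (Pk L lam g) = Pk L lam (pdl l g)) ∧
  (∀ x, Continuous fun lam => Pk L lam g x) ∧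
  (∀ lam x A, (∀ y, |g y| ≤ A) → |Pk L lam g x| ≤ (∫ y, |L y|) * A) ∧
  ∀ lam x a, lam * Pk L lam (pd a g) x = Pk (pd a L) lam g x

def S_P2 : Prop := ∀ L, Dk L → ∀ l : List (Fin 4), l ≠ [] → ∃ C, ∀ (g : Fn) (H μ : ℝ), Bd g →
  Hs g H → 0 < μ → ∀ x, |pdl l (Pk L (μ ^ 2) g) x| ≤ C * H * (μ / μ ^ (2 * l.length))

def S_P3 : Prop := ∀ K g, IsKer K → Bd g → ∀ lam x, 0 < lam →
  HasDerivAt (fun r => Pk K r g x) (-(4 * lam ^ 3 * Pk K lam (lap (lap g)) x)) lam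

def S_SG : Prop := ∃ Q c, IsSG Q c

def S_G0 : Prop := ∀ Q c, IsSG Q c →
  (∀ g A u u' x, Bd g → 0 ≤ u → u ≤ u' → (∀ y, |lap (lap g) y| ≤ A) →
    |Q u' g x - Q u g x| ≤ c * A * (u' - u)) ∧
  (∀ g A u u' x, Bd g → 0 ≤ u → u ≤ u' → (∀ y, |lap (lap (lap (lap g))) y| ≤ A) →
    |Q u' g x - Q u g x + (u' - u) * Q u (lap (lap g)) x| ≤ c * A * (u' - u) ^ 2) ∧
  ∀ τ f, TL τ f → ∀ t x, ContinuousOn (fun s => Q (t - s) (f s) x) (Icc 0 τ)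

def S_G1 : Prop := ∀ Q c, IsSG Q c → IsG1 (Gq Q) (300 * c)
def S_G2 : Prop := ∀ Q c, IsSG Q c → IsG2 (Gq Q) (300 * c)
def S_G3 : Prop := ∀ Q c, IsSG Q c → IsG3 (Gq Q) (300 * c)

/-- Limits of bounded sequences. -/
def S_Lim : Prop := ∀ F : ℕ → Fn, (∀ n, SmC (F n)) → (∀ k, ∃ A, ∀ n, Nb univ k (F n) A) →
  (∀ ε, 0 < ε → ∃ N, ∀ n, N ≤ n → ∀ n', N ≤ n' → ∀ x, |F n x - F n' x| ≤ ε) →
  ∃ g, SmC g ∧ ∀ k ε, 0 < ε → ∃ N, ∀ n, N ≤ n → Nb univ k (F n - g) ε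

/-! ### The iteration -/

section iter

variable {α : Type}

def Phi (a : α → (Fin 4 → Fin 4) → (α → Fn) → Fn) (R : α → (α → Fn) → Fn) (V : α → Fn)
    (b : α) : Fn :=
  fun z => ∑ p : Fin 4 → Fin 4, a b p V z * pdl (List.ofFn p) (V b) z + R b V z

structure IsPhi (𝒰 : Set (α → Fn)) (Φ : (α → Fn) → α → Fn) (q : ℝ) : Prop where
  ord : ∀ b, Ord 𝒰 univ 4 fun V => Φ V b
  base : ∃ C, 0 ≤ C ∧ ∀ V ∈ 𝒰, SN 4 V 1 → ∀ S, 0 ≤ S → SS 4 V S → ∀ b, Hs (Φ V b) (q * S + C)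
  step : ∀ k A, ∃ C, 0 ≤ C ∧ ∀ V ∈ 𝒰, SN (k + 4) V A → ∀ M, 1 ≤ M → SN (k + 5) V M →
    ∀ S, 0 ≤ S → SS (k + 5) V S → ∀ b, Sb (k + 1) (Φ V b) (q * S + C * M)
  con : ∀ A, ∃ C, 0 ≤ C ∧ ∀ V ∈ 𝒰, ∀ V' ∈ 𝒰, SN 5 V A → SN 5 V' A → ∀ D, 0 ≤ D →
    SN 4 (V - V') D → ∀ S, 0 ≤ S → SS 4 (V - V') S → ∀ b, Hs (Φ V b - Φ V' b) (q * S + C * D)

def It (G : (ℝ → Fn) → ℝ → Fn) (Φ : (α → Fn) → α → Fn) : ℕ → ℝ → α → Fn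
  | 0 => fun _ _ _ => 0
  | n + 1 => fun t b => G (fun s => Φ (It G Φ n s) b) t

structure Good (η τ : ℝ) (W : ℝ → α → Fn) : Prop where
  mem : ∀ t ∈ Icc 0 τ, W t ∈ US α η
  tl : ∀ b, TL τ fun t => W t b

/-- A solution of `∂_t V = Φ V - Δ² V`, `V 0 = 0`. -/
structure Fix (η τ : ℝ) (Φ : (α → Fn) → α → Fn) (V : ℝ → α → Fn) : Prop extends Good η τ V where
  zero : V 0 = 0
  tay : ∃ C, ∀ t ∈ Icc 0 τ, ∀ t' ∈ Icc 0 τ, t ≤ t' → ∀ b z,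
    |V t' b z - V t b z - (t' - t) * (Φ (V t) b z - lap (lap (V t b)) z)| ≤ C * (t' - t) ^ 2

end iter

def S_Phi : Prop := ∀ (α : Type) [Fintype α] (η d : ℝ)
  (a : α → (Fin 4 → Fin 4) → (α → Fn) → Fn) (R : α → (α → Fn) → Fn), 0 ≤ d →
  (∀ b p, Ord (US α η) univ 3 (a b p)) → (∀ b p, ∀ V ∈ US α η, ∀ z, |a b p V z| ≤ d) →
  (∀ b, Ord (US α η) univ 3 (R b)) → IsPhi (US α η) (Phi a R) (256 * d)

def S_I1 : Prop := ∀ (α : Type) [Fintype α] G (c η q : ℝ) (Φ : (α → Fn) → α → Fn), IsG G c →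
  IsPhi (US α η) Φ q → 0 < η → 0 ≤ q → c * q ≤ 1 / 2 → ∃ τ μ : ℝ, 0 < τ ∧ τ ≤ 1 ∧ ∀ n,
    Good η τ (It G Φ n) ∧ ∀ t ∈ Icc 0 τ, SN 4 (It G Φ n t) 1 ∧ SS 4 (It G Φ n t) μ

def S_I2 : Prop := ∀ (α : Type) [Fintype α] G (c η q τ : ℝ) (Φ : (α → Fn) → α → Fn), IsG G c →
  IsPhi (US α η) Φ q → 0 ≤ q → c * q ≤ 1 / 2 → τ ≤ 1 → (∀ n, Good η τ (It G Φ n)) →
  (∀ n, ∀ t ∈ Icc 0 τ, SN 4 (It G Φ n t) 1) → ∀ k, ∃ A, ∀ n, ∀ t ∈ Icc 0 τ, SN k (It G Φ n t) A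

def S_I3 : Prop := ∀ (α : Type) [Fintype α] G (c η q τ : ℝ) (Φ : (α → Fn) → α → Fn), IsG G c →
  IsPhi (US α η) Φ q → 0 ≤ q → c * q ≤ 1 / 2 → 0 < τ → τ ≤ 1 → (∀ n, Good η τ (It G Φ n)) →
  (∀ k, ∃ A, ∀ n, ∀ t ∈ Icc 0 τ, SN k (It G Φ n t) A) → ∃ τ' C : ℝ, 0 < τ' ∧ τ' ≤ τ ∧
    ∀ n, ∀ t ∈ Icc 0 τ', ∀ b x, |It G Φ (n + 1) t b x - It G Φ n t b x| ≤ C * (3 / 4) ^ n

def S_I4 : Prop := ∀ (α : Type) [Fintype α] G (c η τ C : ℝ) (Φ : (α → Fn) → α → Fn), IsG G c →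
  (∀ b, Ord (US α η) univ 4 fun V => Φ V b) → 0 < τ → τ ≤ 1 → (∀ n, Good η τ (It G Φ n)) →
  (∀ k, ∃ A, ∀ n, ∀ t ∈ Icc 0 τ, SN k (It G Φ n t) A) →
  (∀ n, ∀ t ∈ Icc 0 τ, ∀ b x, |It G Φ (n + 1) t b x - It G Φ n t b x| ≤ C * (3 / 4) ^ n) →
  ∃ V, Fix η τ Φ V

/-- Existence for systems with small top order perturbation. -/
def S_Iter : Prop := ∃ d : ℝ, 0 < d ∧ ∀ (α : Type) [Fintype α] (η : ℝ)
  (a : α → (Fin 4 → Fin 4) → (α → Fn) → Fn) (R : α → (α → Fn) → Fn), 0 < η →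
  (∀ b p, Ord (US α η) univ 3 (a b p)) → (∀ b p, ∀ V ∈ US α η, ∀ z, |a b p V z| ≤ d) →
  (∀ b, Ord (US α η) univ 3 (R b)) → ∃ τ, 0 < τ ∧ ∃ V, Fix η τ (Phi a R) V

/-! ### Real form of the complex Hessian -/

abbrev M2 : Type := Matrix (Fin 2) (Fin 2) ℂ

def hm (g : Fin 4 → ℝ) : M2 :=
  !![(g 0 : ℂ), (g 2 : ℂ) + Complex.I * g 3; (g 2 : ℂ) - Complex.I * g 3, (g 1 : ℂ)]
def vec (H : M2) : Fin 4 → ℝ := ![(H 0 0).re, (H 1 1).re, (H 0 1).re, (H 0 1).im]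
/-- The map `H ↦ Jᵀ H J̄` in real coordinates. -/
def Mx (J : M2) : Matrix (Fin 4) (Fin 4) ℝ :=
  Matrix.of fun i j => vec (Jᵀ * hm (Pi.single j 1) * J.map (starRingEnd ℂ)) i
def Vq (g : Fin 4 → ℝ) : ℝ := g 0 * g 1 - g 2 ^ 2 - g 3 ^ 2
def bq (g h : Fin 4 → ℝ) : ℝ := g 1 * h 0 + g 0 * h 1 - 2 * g 2 * h 2 - 2 * g 3 * h 3
def cv (g : Fin 4 → ℝ) (i : Fin 4) : ℝ := ![g 1, g 0, -2 * g 2, -2 * g 3] i * (Vq g)⁻¹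
def Eg (f : Fn) (z : C2) : Fin 4 → ℝ := fun i => Ee i f z
/-- The principal part of the square of the Laplacian. -/
def PiO (f w : Fn) : Fn := fun z => ∑ i, ∑ j, cf i f z * cf j f z * Ee i (Ee j w) z
def jac (T : C2 → C2) (z : C2) : M2 := Matrix.of fun p q => fderiv ℂ T z (Pi.single q 1) p
def aff (z₀ : C2) (J : M2) (y : C2) : C2 := z₀ + J *ᵥ y
def affi (z₀ : C2) (J : M2) : C2 → C2 := aff (-(J⁻¹ *ᵥ z₀)) J⁻¹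

def S_Real : Prop := ∀ f, SmC f →
  (∀ z, hess f z = hm (Eg f z) ∧ vol f z = Vq (Eg f z) ∧ (∀ i, cf i f z = cv (Eg f z) i) ∧
    ((hess f z).PosDef ↔ 0 < Ee 0 f z ∧ 0 < vol f z)) ∧ SmC (vol f) ∧
  (Adm f → (∀ i, SmC (cf i f)) ∧ SmC (scal f) ∧
    ∀ z, scal f z = -Lam f (fun y => Real.log (vol f y)) z)

def S_Mx : Prop :=
  (∀ g, vec (hm g) = g) ∧ (∀ g, ((hm g).det).re = Vq g) ∧
  (∀ J g, hm (Mx J *ᵥ g) = Jᵀ * hm g * J.map (starRingEnd ℂ)) ∧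
  (∀ J g, Vq (Mx J *ᵥ g) = Complex.normSq J.det * Vq g) ∧
  (∀ J g h, bq (Mx J *ᵥ g) (Mx J *ᵥ h) = Complex.normSq J.det * bq g h) ∧
  (∀ (J : M2) g k, J.det ≠ 0 → ∑ i, cv (Mx J *ᵥ g) i * Mx J i k = cv g k) ∧
  (∀ (J : C2 → M2) z, (∀ p q, ContDiffAt ℝ ∞ (fun y => J y p q) z) →
    ∀ i j, ContDiffAt ℝ ∞ (fun y => Mx (J y) i j) z) ∧
  (∀ g, 0 < g 0 → 0 < Vq g → ∃ J : M2, J.det ≠ 0 ∧ Mx J *ᵥ g = I0) ∧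
  ∀ g h, 0 < g 0 → 0 < Vq g → |bq g h| ≤ Vq g / 4 → |Vq h| ≤ Vq g / 4 →
    0 < (g + h) 0 ∧ Vq g / 2 ≤ Vq (g + h)

/-- The Hessian under holomorphic maps. -/
def S_Hol : Prop := ∀ (w : Fn) (T : C2 → C2) (z : C2), SmC w → AnalyticAt ℂ T z →
  Eg (w ∘ T) z = Mx (jac T z) *ᵥ Eg w (T z)

def S_Aff : Prop := ∀ (z₀ : C2) (J : M2), J.det ≠ 0 → ∀ f w, SmC f → SmC w →
  (∀ y, Eg (f ∘ aff z₀ J) y = Mx J *ᵥ Eg f (aff z₀ J y)) ∧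
  Lam (f ∘ aff z₀ J) (w ∘ aff z₀ J) = Lam f w ∘ aff z₀ J ∧
  PiO (f ∘ aff z₀ J) (w ∘ aff z₀ J) = PiO f w ∘ aff z₀ J

/-! ### Charts -/

section charts

variable {ι : Type} (m : ι → Matrix (Fin 2) (Fin 2) ℤ)

/-- Points of the open torus. -/
def Tor (z : C2) : Prop := ∀ k, z k ≠ 0

/-- The exponents of the map from the chart `τ` to the chart `σ`. -/
def tN (σ τ : ι) : Matrix (Fin 2) (Fin 2) ℤ := m σ * (m τ)⁻¹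

open Classical in
/-- Transport of a function from the chart `σ` to the chart `τ`. -/
def Tr (σ τ : ι) (X : Fn) : Fn :=
  fun z => if z ∈ DomT (tN m σ τ) then X (mon (tN m σ τ) z) else 0

/-- Global invariant functions. -/
structure Gl (u : ι → Fn) : Prop where
  sm : ∀ σ, SmC (u σ)
  inv : ∀ σ, Inv (u σ)
  glue : ∀ σ τ w, Tor w → u σ (mon (m σ) w) = u τ (mon (m τ) w)

/-- Families of local potentials of a global form. -/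
structure Pt (u : ι → Fn) : Prop where
  sm : ∀ σ, SmC (u σ)
  glue : ∀ σ τ, ∃ (a : ℝ) (b : Fin 2 → ℝ), ∀ w, Tor w →
    u σ (mon (m σ) w) - u τ (mon (m τ) w) = a + ∑ k, b k * Real.log ‖w k‖

end charts

def S_Mon : Prop :=
  (∀ A w, Tor w → Tor (mon A w)) ∧ (∀ A B w, Tor w → mon A (mon B w) = mon (A * B) w) ∧
  (∀ z, mon 1 z = z) ∧ (∀ A θ z, mon A (θ * z) = mon A θ * mon A z) ∧
  (∀ A (θ : C2), (∀ j, ‖θ j‖ = 1) → ∀ j, ‖mon A θ j‖ = 1) ∧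
  (∀ A w j, Tor w → Real.log ‖mon A w j‖ = ∑ k, (A j k : ℝ) * Real.log ‖w k‖) ∧
  (∀ A, IsOpen (DomT A)) ∧ (∀ A z, Tor z → z ∈ DomT A) ∧
  (∀ A, ∀ z ∈ DomT A, AnalyticAt ℂ (mon A) z ∧
    ∀ p q, ContDiffAt ℝ ∞ (fun y => jac (mon A) y p q) z) ∧
  (∀ A z, IsUnit A.det → Tor z → (jac (mon A) z).det ≠ 0) ∧ Dense {z | Tor z}

def S_MonE : Prop := ∀ (ι : Type) (m : ι → Matrix (Fin 2) (Fin 2) ℤ) (u : ι → Fn), IsFan m →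
  Pt m u → ∀ σ τ, ∀ z ∈ DomT (tN m σ τ),
    Eg (u τ) z = Mx (jac (mon (tN m σ τ)) z) *ᵥ Eg (u σ) (mon (tN m σ τ) z)

def S_Pos : Prop := ∀ (ι : Type) [Finite ι] (m : ι → Matrix (Fin 2) (Fin 2) ℤ) (ψ : ι → Fn),
  IsFan m → IsToricKaehler m ψ → ∃ ε : ℝ, 0 < ε ∧ ∀ φ, Gl m φ → (∀ σ, Nb (cb 1) 2 (φ σ) ε) →
    ∀ σ z, (hess (ψ σ + φ σ) z).PosDef ∧ vol (ψ σ) z / 2 ≤ vol (ψ σ + φ σ) z

def S_Scal : Prop := ∀ (ι : Type) [Finite ι] (m : ι → Matrix (Fin 2) (Fin 2) ℤ) (f : ι → Fn),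
  IsFan m → IsToricKaehler m f → Gl m fun σ => scal (f σ)

def S_CC : Prop := ∀ (ι : Type) (m : ι → Matrix (Fin 2) (Fin 2) ℤ), IsFanD m →
  ∀ σ τ (R : ℝ) (z₀ : C2), z₀ ∈ DomT (tN m σ τ) ∨
    ∀ᶠ z in 𝓝 z₀, Tor z → R < ‖mon (tN m σ τ) z‖

def S_Trs : Prop := ∀ (ι : Type) (m : ι → Matrix (Fin 2) (Fin 2) ℤ), IsFanD m →
  ∀ σ τ (R R₀ : ℝ), ∃ (ζ : Fn) (T : C2 → C2), SmC ζ ∧ ContDiff ℝ ∞ T ∧
    tsupport ζ ⊆ DomT (tN m σ τ) ∧ (∀ z ∈ tsupport ζ, T =ᶠ[𝓝 z] mon (tN m σ τ)) ∧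
    ∀ z, ‖z‖ < R → (ζ =ᶠ[𝓝 z] fun _ => 1) ∨
      ∀ᶠ y in 𝓝 z, y ∈ DomT (tN m σ τ) → R₀ < ‖mon (tN m σ τ) y‖

def S_Tr : Prop := ∀ (ι : Type) (m : ι → Matrix (Fin 2) (Fin 2) ℤ), IsFanD m →
  (∀ σ X R₀, SmC X → Cs R₀ X → Inv X → Gl m fun τ => Tr m σ τ X) ∧
  (∀ σ τ X R₀, SmC X → Cs R₀ X → SmC (Tr m σ τ X)) ∧
  (∀ σ τ X w, Tor w → Tr m σ τ X (mon (m τ) w) = X (mon (m σ) w)) ∧
  (∀ σ τ X u, Gl m u → Tr m σ τ (X * u σ) = Tr m σ τ X * u τ) ∧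
  ∀ σ τ R₀ (α : Type) (𝒰 : Set (α → Fn)) k F, OL 𝒰 k F → (∀ V ∈ 𝒰, Cs R₀ (F V)) →
    OL 𝒰 k fun V => Tr m σ τ (F V)

/-- The principal part is chart independent up to order three. -/
def S_TrPi : Prop := ∀ (ι : Type) (m : ι → Matrix (Fin 2) (Fin 2) ℤ), IsFanD m →
  ∀ σ τ R₀ (α : Type) (𝒰 : Set (α → Fn)) (f : (α → Fn) → ι → Fn) (Y : (α → Fn) → Fn),
    (∀ V ∈ 𝒰, IsToricKaehler m (f V)) → (∀ i, OL 𝒰 2 fun V => cf i (f V τ)) → OL 𝒰 0 Y →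
    (∀ V ∈ 𝒰, Cs R₀ (Y V)) →
    OL 𝒰 3 fun V => Tr m σ τ (PiO (f V σ) (Y V)) - PiO (f V τ) (Tr m σ τ (Y V))

/-- The average over the torus. -/
structure IsAvg (Av : Fn → Fn) : Prop where
  sm : ∀ X, SmC X → SmC (Av X)
  inv : ∀ X, Inv (Av X)
  bd : ∀ R k, ∃ C, 0 ≤ C ∧ ∀ X A, SmC X → Nb (cb R) k X A → Nb (cb R) k (Av X) (C * A)
  add : ∀ X Y, SmC X → SmC Y → Av (X + Y) = Av X + Av Y
  sub : ∀ X Y, SmC X → SmC Y → Av (X - Y) = Av X - Av Y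
  mul : ∀ X u, Inv u → Av (X * u) = Av X * u
  le : ∀ X z c, SmC X → (∀ θ : C2, (∀ j, ‖θ j‖ = 1) → c ≤ X (θ * z)) → c ≤ Av X z
  abs : ∀ X z c, (∀ θ : C2, (∀ j, ‖θ j‖ = 1) → |X (θ * z)| ≤ c) → |Av X z| ≤ c
  pi : ∀ f X, Adm f → Inv f → SmC X → PiO f (Av X) = Av (PiO f X)

def S_Avg : Prop := ∃ Av, IsAvg Av

/-- Finitely many small patches in which the metric is almost flat. -/
structure Pat {ι : Type} (ψ : ι → Fn) (d : ℝ) (α : Type) where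
  σ : α → ι
  z : α → C2
  J : α → M2
  β : α → Fn
  ρ : α → Fn
  det : ∀ a, (J a).det ≠ 0
  smβ : ∀ a, SmC (β a)
  smρ : ∀ a, SmC (ρ a)
  csβ : ∀ a, Cs 1 (β a)
  csρ : ∀ a, Cs 1 (ρ a)
  absβ : ∀ a y, |β a y| ≤ 1
  ρ0 : ∀ a y, 0 ≤ ρ a y
  ρ1 : ∀ a y, ρ a y ≤ 1
  βρ : ∀ a y, β a y ≠ 0 → ρ a y = 1
  flat : ∀ a y, ρ a y ≠ 0 → ∀ i, |Ee i (ψ (σ a) ∘ aff (z a) (J a)) y - I0 i| ≤ d
  cover : ∀ s x, ‖x‖ ≤ 1 → ∃ a, σ a = s ∧ β a (affi (z a) (J a) x) = 1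

def S_Pat : Prop := ∀ (ι : Type) [Finite ι] (ψ : ι → Fn) (d : ℝ), 0 < d → (∀ σ, Adm (ψ σ)) →
  ∃ (α : Type) (_ : Fintype α), Nonempty (Pat ψ d α)

section sys

variable {ι α : Type} [Fintype α] (m : ι → Matrix (Fin 2) (Fin 2) ℤ) {ψ : ι → Fn} {d : ℝ}
  (P : Pat ψ d α) (Av : Fn → Fn)

def Pat.A (a : α) : C2 → C2 := aff (P.z a) (P.J a)
def Pat.Ai (a : α) : C2 → C2 := affi (P.z a) (P.J a)
/-- From a patch to global functions. -/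
def Pat.E (b : α) (X : Fn) (τ : ι) : Fn := Tr m (P.σ b) τ (Av ((P.β b * X) ∘ P.Ai b))
def Pat.Th (τ : ι) : Fn := fun z => ∑ b, P.E m Av b (P.β b) τ z
/-- From global functions to a patch. -/
def Pat.Rs (a : α) (u : ι → Fn) : Fn :=
  P.β a * (fun z => u (P.σ a) z * (P.Th m Av (P.σ a) z)⁻¹) ∘ P.A a

structure IsSys : Prop where
  gl : ∀ b X, SmC X → Gl m (P.E m Av b X)
  add : ∀ b X Y τ, SmC X → SmC Y → P.E m Av b (X + Y) τ = P.E m Av b X τ + P.E m Av b Y τ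
  sub : ∀ b X Y τ, SmC X → SmC Y → P.E m Av b (X - Y) τ = P.E m Av b X τ - P.E m Av b Y τ
  smul : ∀ b X τ (c : ℝ), P.E m Av b (c • X) τ = c • P.E m Av b X τ
  abs : ∀ b X τ A, (∀ y, |X y| ≤ A) → ∀ z, |P.E m Av b X τ z| ≤ A
  ol : ∀ b τ (𝒰 : Set (α → Fn)) k F, OL 𝒰 k F → OL 𝒰 k fun V => P.E m Av b (F V) τ
  smR : ∀ a u, Gl m u → SmC (P.Rs m Av a u)
  part : ∀ u, Gl m u → ∀ τ z, ∑ a, P.E m Av a (P.Rs m Av a u) τ z = u τ z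
  ord : ∀ a (𝒰 : Set (α → Fn)) k (H : (α → Fn) → ι → Fn), OL 𝒰 k (fun V => H V (P.σ a)) →
    Ord 𝒰 univ k fun V => P.Rs m Av a (H V)

end sys

def S_Sys1 : Prop := ∀ (ι α : Type) [Fintype α] (m : ι → Matrix (Fin 2) (Fin 2) ℤ) (ψ : ι → Fn)
  (d : ℝ) (P : Pat ψ d α) (Av : Fn → Fn), IsFanD m → IsAvg Av → IsSys m P Av

def S_Sys2 : Prop := ∀ (ι α : Type) [Fintype α] (m : ι → Matrix (Fin 2) (Fin 2) ℤ) (ψ : ι → Fn)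
  (d : ℝ) (P : Pat ψ d α) (Av : Fn → Fn), IsFanD m → IsAvg Av →
  ∀ b τ (𝒰 : Set (α → Fn)) (f : (α → Fn) → ι → Fn) (X : (α → Fn) → Fn),
    (∀ V ∈ 𝒰, IsToricKaehler m (f V)) → (∀ σ i, OL 𝒰 2 fun V => cf i (f V σ)) → OL 𝒰 0 X →
    OL 𝒰 3 fun V => P.E m Av b (PiO (f V (P.σ b) ∘ P.A b) (X V)) τ -
      PiO (f V τ) (P.E m Av b (X V) τ)

/-- The scalar curvature up to order three. -/
def S_ScP : Prop := ∀ (α : Type) (𝒰 : Set (α → Fn)) (ψ : Fn) (φ : (α → Fn) → Fn), Adm ψ →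
  OL 𝒰 0 φ → (∀ V ∈ 𝒰, Adm (ψ + φ V) ∧ ∀ z, vol ψ z / 2 ≤ vol (ψ + φ V) z) →
  (∀ i, OL 𝒰 2 fun V => cf i (ψ + φ V)) ∧
    OL 𝒰 3 fun V => scal (ψ + φ V) + PiO (ψ + φ V) (φ V)

/-- The metric of a patch, cut off to the flat metric. -/
def gt (ρ F : Fn) (y : C2) : Fin 4 → ℝ := fun i => I0 i + ρ y * (Ee i F y - I0 i)
def At (ρ F X : Fn) : Fn :=
  fun y => ∑ i, ∑ j, cv (gt ρ F y) i * cv (gt ρ F y) j * Ee i (Ee j X) y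
def ac (ρ F : Fn) (p : Fin 4 → Fin 4) : Fn := fun y => 16 * ∑ i, ∑ j,
  (I0 i * I0 j - cv (gt ρ F y) i * cv (gt ρ F y) j) * (ec i (p 0) (p 1) * ec j (p 2) (p 3))

def S_Coef : Prop := ∀ d' : ℝ, 0 < d' → ∃ d : ℝ, 0 < d ∧
  ∀ (α : Type) (𝒰 : Set (α → Fn)) (ρ : Fn) (F : (α → Fn) → Fn), SmC ρ → Cs 1 ρ →
    (∀ y, 0 ≤ ρ y) → (∀ y, ρ y ≤ 1) → OL 𝒰 0 F →
    (∀ V ∈ 𝒰, ∀ y, ρ y ≠ 0 → ∀ i, |Ee i (F V) y - I0 i| ≤ d) →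
    (∀ p, Ord 𝒰 univ 3 fun V => ac ρ (F V) p) ∧ (∀ p, ∀ V ∈ 𝒰, ∀ y, |ac ρ (F V) p y| ≤ d') ∧
    ∀ V ∈ 𝒰, ∀ X, SmC X → SmC (At ρ (F V) X) ∧
      (∀ y, ∑ p : Fin 4 → Fin 4, ac ρ (F V) p y * pdl (List.ofFn p) X y =
        lap (lap X) y - 16 * At ρ (F V) X y) ∧
      ∀ y, ρ y = 1 → At ρ (F V) X y = PiO (F V) X y

/-- From the Taylor estimate to a smooth solution. -/
def S_End : Prop := ∀ (ι : Type) (m : ι → Matrix (Fin 2) (Fin 2) ℤ) (ψ : ι → Fn) (κ c τ : ℝ)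
  (φ : ℝ → ι → Fn), IsToricKaehler m ψ → 0 < τ → φ 0 = 0 →
  (∀ t ∈ Icc 0 τ, Gl m (φ t) ∧ ∀ σ z, (hess (ψ σ + φ t σ) z).PosDef) →
  (∀ σ R k, ∃ C, ∀ s ∈ Icc 0 τ, ∀ t ∈ Icc 0 τ, Nb (cb R) k (φ t σ - φ s σ) (C * |t - s|)) →
  (∃ C, ∀ t ∈ Icc 0 τ, ∀ t' ∈ Icc 0 τ, t ≤ t' → ∀ σ z,
    |φ t' σ z - φ t σ z - (t' - t) * (κ * scal (ψ σ + φ t σ) z - c)| ≤ C * (t' - t) ^ 2) →
  IsSol m ψ κ c (Ico 0 τ) φ

/-- Short time existence for `κ = 16`. -/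
def S_Fin : Prop := ∀ (ι : Type) [Finite ι] (m : ι → Matrix (Fin 2) (Fin 2) ℤ)
  (ψ : ι → Fn) (c : ℝ), IsFanD m → IsToricKaehler m ψ →
  ∃ τ : ℝ, 0 < τ ∧ ∃ φ, IsSol m ψ 16 c (Ico 0 τ) φ

end Pool.Agent.P.MP_2cea5e_gt.III
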