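import Pool.Agent.P.MP_2cea5e_gt.III.OrdT

/-!
Chapter III: bounds and contraction for the iteration.
-/

open scoped ContDiff ComplexOrder Matrix Topology
open MeasureTheory Set Filter

noncomputable section

namespace Pool.Agent.P.MP_2cea5e_gt.III

open II

namespace IsG

variable {G : (ℝ → Fn) → ℝ → Fn} {c τ A H B ε s t : ℝ} {f : ℝ → Fn} {k : ℕ}

theorem nb (hG : IsG G c) (hf : TL τ f) (h : ∀ s ∈ Icc 0 τ, Nb univ k (f s) A) (ht : t ∈ Icc 0 τ) :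
    Nb univ k (G f t) (c * A * t) := fun l hl z _ => by
  rw [hG.comm τ f l hf t ht]
  exact hG.sup τ _ A (hf.pdl l) (fun s hs x => h s hs l hl x trivial) t ht z

theorem nlip (hG : IsG G c) (hτ : τ ≤ 1) (hf : TL τ f)
    (h : ∀ s ∈ Icc 0 τ, Nb univ (4 + k) (f s) A) (hs : s ∈ Icc 0 τ) (ht : t ∈ Icc 0 τ) :
    Nb univ k (G f t - G f s) (c * A * |t - s|) := fun l hl z _ => by
  rw [pdl_sub l (hG.sm τ f hf t ht) (hG.sm τ f hf s hs), Pi.sub_apply, hG.comm τ f l hf t ht,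
    hG.comm τ f l hf s hs]
  exact hG.lip τ _ A hτ (hf.pdl l) (fun s hs => ((h s hs).ord (by omega)).pdl l) s hs t ht z

theorem tl (hG : IsG G c) (hτ : τ ≤ 1) (hf : TL τ f) : TL τ (G f) :=
  ⟨hG.sm τ f hf, fun k => let ⟨C, c0, hC⟩ := hf.bd0 k
    ⟨c * C, fun _ ht => (hG.nb hf hC ht).le (mul_le_of_le_one_right
      (mul_nonneg (zero_le_one.trans hG.one) c0) (ht.2.trans hτ))⟩,
    fun k => let ⟨C, hC⟩ := hf.bd (4 + k); ⟨c * C, fun _ hs _ ht => hG.nlip hτ hf hC hs ht⟩⟩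

theorem nb4 (hG : IsG G c) (hf : TL τ f) (h : ∀ s ∈ Icc 0 τ, ∀ x, |f s x| ≤ A)
    (hH : ∀ s ∈ Icc 0 τ, Hs (f s) H) (hε : 0 < ε) (h1 : ε ≤ 1) (he : τ ≤ ε ^ 8)
    (hA : c * A * ε ≤ B) (hB : c * H * ε ≤ B) (ht : t ∈ Icc 0 τ) : Nb univ 4 (G f t) B :=
  fun l hl z _ => by
  rcases eq_or_ne l [] with rfl | e
  · refine (hG.sup τ f A hf h t ht z).trans (le_trans (mul_le_mul_of_nonneg_left
      (ht.2.trans (he.trans (pow_le_of_le_one hε.le h1 (by norm_num))))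
      (mul_nonneg (zero_le_one.trans hG.one) ((abs_nonneg _).trans (h t ht 0)))) hA)
  · exact (hG.n4 τ f H ε (he.trans (pow_le_one₀ hε.le h1)) hf hH hε he t ht l e hl z).trans hB

theorem sb (hG : IsG G c) (hτ : τ ≤ 1) (hf : TL τ f) (h : ∀ s ∈ Icc 0 τ, Sb k (f s) H)
    (ht : t ∈ Icc 0 τ) : Sb (k + 4) (G f t) (c * H) := fun l hl => by
  rw [← List.take_append_drop 4 l, pdl_append, hG.comm τ f _ hf t ht]
  exact hG.s4 τ _ H hτ (hf.pdl _) (fun s hs => h s hs _ (by simp [hl])) t ht _ (by simp [hl])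

end IsG

theorem exists_eps {K e : ℝ} (hK : 0 ≤ K) (he : 0 < e) : ∃ ε, 0 < ε ∧ ε ≤ 1 ∧ K * ε ≤ e :=
  ⟨e / (K + e), by positivity, div_le_one_of_le₀ (by linarith) (by positivity), by
    rw [← mul_div_assoc, div_le_iff₀ (by positivity)]; nlinarith⟩

theorem IsPhi.bd {α : Type} [Finite α] {𝒰 : Set (α → Fn)} {Φ : (α → Fn) → α → Fn}
    (h : ∀ b, Ord 𝒰 univ 4 fun V => Φ V b) (k : ℕ) (A : ℝ) :
    ∃ C, 0 ≤ C ∧ ∀ b, ∀ V ∈ 𝒰, SN (k + 4) V A → Nb univ k (Φ V b) C :=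
  unif_fin (fun _ _ _ e c V hV a => (c V hV a).le e) fun b => ((h b).bd k A).imp fun _ c => c.2

theorem IsPhi.lip {α : Type} [Finite α] {𝒰 : Set (α → Fn)} {Φ : (α → Fn) → α → Fn}
    (h : ∀ b, Ord 𝒰 univ 4 fun V => Φ V b) (k : ℕ) (A : ℝ) :
    ∃ C, 0 ≤ C ∧ ∀ b, ∀ V ∈ 𝒰, ∀ V' ∈ 𝒰, SN (k + 4) V A → SN (k + 4) V' A →
      ∀ D, 0 ≤ D → SN (k + 4) (V - V') D → Nb univ k (Φ V b - Φ V' b) (C * D) :=
  unif_fin (fun _ _ _ e c V hV V' hV' a a' D hD d =>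
    (c V hV V' hV' a a' D hD d).le (mul_le_mul_of_nonneg_right e hD))
    fun b => ((h b).lip k A).imp fun _ c => c.2

theorem i1 : S_I1 := by
  intro α _ G c η q Φ hG hΦ hη hq hc
  obtain ⟨C, c0, hC⟩ := hΦ.base
  obtain ⟨C', c1, hC'⟩ := IsPhi.bd hΦ.ord 0 1
  have hc0 : 0 ≤ c := zero_le_one.trans hG.one
  obtain ⟨ε, hε, h1, h2⟩ := exists_eps (K := c * (2 * C) + c * C') (by positivity)
    (lt_min one_pos hη)
  have ht1 : ε ^ 8 ≤ 1 := pow_le_one₀ hε.le h1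
  have p1 : 0 ≤ c * (2 * C) * ε := by positivity
  have p2 : 0 ≤ c * C' * ε := by positivity
  refine ⟨ε ^ 8, c * (2 * C), by positivity, ht1, fun n => ?_⟩
  induction n with
  | zero => exact ⟨⟨fun _ _ => US.zero hη.le, fun _ => TL.zero⟩,
      fun _ _ => ⟨fun _ => Nb.zero zero_le_one, fun _ => Sb.zero (by positivity)⟩⟩
  | succ n ih =>
    have tf := fun b => (hΦ.ord b).tl ih.1
    have hH : ∀ b, ∀ s ∈ Icc 0 (ε ^ 8), Hs (Φ (It G Φ n s) b) (2 * C) := fun b s hs =>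
      (hC _ (ih.1.mem s hs) (ih.2 s hs).1 _ (by positivity) (ih.2 s hs).2 b).le (by nlinarith)
    have h4 : ∀ t ∈ Icc 0 (ε ^ 8), SN 4 (It G Φ (n + 1) t) (min 1 η) := fun t ht b =>
      hG.nb4 (tf b) (fun s hs x => (hC' b _ (ih.1.mem s hs) (ih.2 s hs).1).zero' trivial) (hH b)
        hε h1 le_rfl (by linarith) (by linarith) ht
    exact ⟨⟨fun t ht => ⟨fun b => (hG.tl ht1 (tf b)).at' ht,
      (h4 t ht).mono (by norm_num) (min_le_right _ _)⟩, fun b => hG.tl ht1 (tf b)⟩,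
      fun t ht => ⟨(h4 t ht).le (min_le_left _ _), fun b => hG.s4 _ _ _ ht1 (tf b) (hH b) t ht⟩⟩

theorem i2 : S_I2 := by
  intro α _ G c η q τ Φ hG hΦ hq hc hτ hW h4
  have hc0 : 0 ≤ c := zero_le_one.trans hG.one
  suffices h : ∀ k, ∃ A, 0 ≤ A ∧ ∀ n, ∀ t ∈ Icc 0 τ, SN (k + 4) (It G Φ n t) A from fun k =>
    (h k).imp fun _ a n t ht => (a.2 n t ht).ord (by omega)
  intro k
  induction k with
  | zero => exact ⟨1, zero_le_one, h4⟩
  | succ k ih =>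
    obtain ⟨A, a0, a⟩ := ih
    obtain ⟨C, c0, hC⟩ := hΦ.step k A
    obtain ⟨r, hr, -, h2⟩ := exists_eps (K := c * C) (e := 1 / 4) (by positivity) (by norm_num)
    obtain ⟨M, hM⟩ : ∃ M, M = 1 + (A + 2 * A / r ^ 2) := ⟨_, rfl⟩
    have p : 0 ≤ A + 2 * A / r ^ 2 := by positivity
    have m0 : 0 ≤ M := by linarith
    obtain ⟨B, hB⟩ : ∃ B, B = 4 * (c * C * M) := ⟨_, rfl⟩
    have b0 : 0 ≤ B := by rw [hB]; positivity
    have key : ∀ n, ∀ t ∈ Icc 0 τ, SS (k + 5) (It G Φ n t) B → SN (k + 5) (It G Φ n t) (M + B * r) :=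
      fun n t ht s b => (Nb.interp (US.sm ((hW n).mem t ht) b) (a n t ht b) (s b)
        (pow_pos hr 2)).le (by rw [Real.sqrt_sq hr.le]; linarith)
    have main : ∀ n, ∀ t ∈ Icc 0 τ, SS (k + 5) (It G Φ n t) B := fun n => by
      induction n with
      | zero => exact fun _ _ _ => Sb.zero b0
      | succ n ih =>
        refine fun t ht b => (hG.sb hτ ((hΦ.ord b).tl (hW n)) (fun s hs =>
          hC _ ((hW n).mem s hs) (a n s hs) _ (by nlinarith [mul_nonneg b0 hr.le])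
            (key n s hs (ih s hs)) B b0 (ih s hs) b) ht).le ?_
        nlinarith [mul_le_mul_of_nonneg_right hc b0, mul_le_mul_of_nonneg_right h2 b0]
    exact ⟨M + B * r, by positivity, fun n t ht => key n t ht (main n t ht)⟩

theorem i3 : S_I3 := by
  intro α _ G c η q τ Φ hG hΦ hq hc hτ h1 hW hA
  have hc0 : 0 ≤ c := zero_le_one.trans hG.one
  obtain ⟨A, a⟩ := hA 5
  obtain ⟨C₁, c1, hC₁⟩ := hΦ.con A
  obtain ⟨C₂, c2, hC₂⟩ := IsPhi.lip hΦ.ord 0 A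
  obtain ⟨C₀, c0, hC₀⟩ := IsPhi.bd hΦ.ord 1 A
  obtain ⟨ε, hε, e1, e2⟩ := exists_eps (K := c * C₁ + c * C₂) (e := 1 / 4) (by positivity)
    (by norm_num)
  have sub : Icc 0 (min τ (ε ^ 8)) ⊆ Icc 0 τ := Icc_subset_Icc_right (min_le_left _ _)
  have tf := fun n b => ((hΦ.ord b).tl (hW n)).mono (min_le_left τ (ε ^ 8))
  have step : ∀ n (F : ℝ), (∀ b, ∀ s ∈ Icc 0 (min τ (ε ^ 8)),
      (∀ x, |(Φ (It G Φ (n + 1) s) b - Φ (It G Φ n s) b) x| ≤ F) ∧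
        Hs (Φ (It G Φ (n + 1) s) b - Φ (It G Φ n s) b) F) → ∀ t ∈ Icc 0 (min τ (ε ^ 8)),
      SN 4 (It G Φ (n + 2) t - It G Φ (n + 1) t) (c * F * ε) ∧
        SS 4 (It G Φ (n + 2) t - It G Φ (n + 1) t) (c * F) := fun n F h t ht => by
    have e : ∀ b, (It G Φ (n + 2) t - It G Φ (n + 1) t) b =
        G (fun s => Φ (It G Φ (n + 1) s) b - Φ (It G Φ n s) b) t := fun b =>
      (hG.sub _ _ _ (tf (n + 1) b) (tf n b) t ht).symm
    refine ⟨fun b => ?_, fun b => ?_⟩ <;> rw [e]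
    · exact hG.nb4 ((tf (n + 1) b).sub (tf n b)) (fun s hs => (h b s hs).1)
        (fun s hs => (h b s hs).2) hε e1 (min_le_right _ _) le_rfl le_rfl ht
    · exact hG.s4 _ _ _ ((min_le_left _ _).trans h1) ((tf (n + 1) b).sub (tf n b))
        (fun s hs => (h b s hs).2) t ht
  have main : ∀ n b, ∀ s ∈ Icc 0 (min τ (ε ^ 8)),
      (∀ x, |(Φ (It G Φ (n + 1) s) b - Φ (It G Φ n s) b) x| ≤ 8 * C₀ * (3 / 4) ^ n) ∧
        Hs (Φ (It G Φ (n + 1) s) b - Φ (It G Φ n s) b) (8 * C₀ * (3 / 4) ^ n) := fun n => by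
    induction n with
    | zero =>
      intro b s hs
      have s1 := (tf (0 + 1) b).sm s hs
      have s0 := (tf 0 b).sm s hs
      have := (hC₀ b _ ((hW (0 + 1)).mem s (sub hs)) (a _ s (sub hs))).sub s1 s0
        (hC₀ b _ ((hW 0).mem s (sub hs)) (a _ s (sub hs)))
      exact ⟨fun x => (this.zero' trivial).trans (by linarith),
        (Hs.of_nb (sm_sub s1 s0) this).le (by linarith)⟩
    | succ n ih =>
      intro b s hs
      obtain ⟨F, hF⟩ : ∃ F : ℝ, F = 8 * C₀ * (3 / 4) ^ n := ⟨_, rfl⟩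
      have f0 : 0 ≤ F := by rw [hF]; positivity
      rw [pow_succ, ← mul_assoc, ← hF]
      rw [← hF] at ih
      obtain ⟨u, v⟩ := step n F ih s hs
      have m2 := (hW (n + 2)).mem s (sub hs)
      have m1 := (hW (n + 1)).mem s (sub hs)
      have p1 : 0 ≤ c * C₁ * ε * F := by positivity
      have p2 : 0 ≤ c * C₂ * ε * F := by positivity
      have p3 := mul_le_mul_of_nonneg_right e2 f0
      refine ⟨fun x => ((hC₂ b _ m2 _ m1 ((a _ s (sub hs)).ord (by norm_num))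
        ((a _ s (sub hs)).ord (by norm_num)) _ (by positivity) u).zero' trivial).trans
        (by nlinarith), (hC₁ _ m2 _ m1 (a _ s (sub hs)) (a _ s (sub hs)) _ (by positivity) u _
          (by positivity) v b).le ?_⟩
      nlinarith [mul_le_mul_of_nonneg_right hc f0]
  refine ⟨_, max A 0 + 2 * (c * (8 * C₀)), lt_min hτ (pow_pos hε 8), min_le_left _ _,
    fun n t ht b x => ?_⟩
  have p : 0 ≤ c * (8 * C₀) := by positivity
  cases n with
  | zero =>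
    have := (a (0 + 1) t (sub ht) b).max0.zero' (mem_univ x)
    rw [show It G Φ 0 t b x = 0 from rfl, sub_zero]
    linarith
  | succ n =>
    refine (((step n _ (main n) t ht).1 b).zero' (mem_univ x)).trans ?_
    have p1 : (0 : ℝ) ≤ (3 / 4) ^ n := by positivity
    have p2 := mul_nonneg (le_max_right A 0) p1
    have p3 := mul_nonneg p p1
    rw [pow_succ]
    nlinarith [mul_le_mul_of_nonneg_left e1 p3]

end Pool.Agent.P.MP_2cea5e_gt.III
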