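import Pool.Agent.P.MP_2cea5e_gt.III.Def
import Pool.Agent.P.MP_2cea5e_gt.II.CC

/-!
Chapter III: monomial maps.
-/

open scoped ContDiff ComplexOrder Matrix Topology
open MeasureTheory Set Filter

noncomputable section

namespace Pool.Agent.P.MP_2cea5e_gt.III

open II

namespace MonP

theorem an (A : Matrix (Fin 2) (Fin 2) ℤ) {z : C2} (hz : z ∈ DomT A) :
    AnalyticAt ℂ (mon A) z := by
  refine analyticAt_pi_iff.2 fun j => Finset.analyticAt_fun_prod _ fun k _ => ?_
  have hk : AnalyticAt ℂ (fun w : C2 => w k) z :=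
    (ContinuousLinearMap.proj (R := ℂ) (φ := fun _ : Fin 2 => ℂ) k).analyticAt z
  rcases lt_or_ge (A j k) 0 with h | h
  · exact hk.fun_zpow (hz j k h)
  · exact hk.fun_zpow_nonneg h

theorem jac_eq (T : C2 → C2) (z : C2) :
    jac T z = LinearMap.toMatrix' (fderiv ℂ T z : C2 →ₗ[ℂ] C2) := by
  ext p q
  simp [jac, LinearMap.toMatrix'_apply]

theorem det_ne (A : Matrix (Fin 2) (Fin 2) ℤ) (z : C2) (hA : IsUnit A.det) (hz : Tor z) :
    (jac (mon A) z).det ≠ 0 := by
  have e : mon A⁻¹ ∘ mon A =ᶠ[𝓝 z] id := by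
    filter_upwards [isOpen_torus.mem_nhds hz] with w hw
    rw [Function.comp_apply, mon_mon _ _ hw, Matrix.nonsing_inv_mul _ hA, mon_one, id]
  have h := e.fderiv_eq (𝕜 := ℂ)
  rw [fderiv_comp z (an _ fun _ k _ => mon_ne A hz k).differentiableAt
    (an _ fun _ k _ => hz k).differentiableAt, fderiv_id] at h
  have h2 : jac (mon A⁻¹) (mon A z) * jac (mon A) z = 1 := by
    rw [jac_eq, jac_eq, ← LinearMap.toMatrix'_comp, ← ContinuousLinearMap.toLinearMap_comp, h]
    exact LinearMap.toMatrix'_id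
  exact (Matrix.isUnit_det_of_left_inverse h2).ne_zero

end MonP

theorem mon' : S_Mon :=
  ⟨fun A _ hw => mon_ne A hw, fun A B _ hw => mon_mon A B hw, mon_one, mon_mul,
    fun A _ h => norm_mon_unit A h, fun A _ j hw => log_norm_mon A hw j, isOpen_DomT,
    fun _ _ hz _ k _ => hz k, fun A _ hz => ⟨MonP.an A hz, fun p _ => (contDiffAt_pi.1
      (((MonP.an A hz).fderiv.contDiffAt (n := ∞)).clm_apply contDiffAt_const) p).restrict_scalars
        ℝ⟩, MonP.det_ne, dense_torus⟩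

theorem cc (_h : S_Mon) : S_CC := fun _ m hm σ τ R z₀ => by
  refine or_iff_not_imp_left.2 fun h0 => ?_
  simp only [DomT, mem_ofPred_eq, not_forall, not_not] at h0
  obtain ⟨j, k, hjk, hk⟩ := h0
  obtain ⟨b, hb, h⟩ := cc_low hm τ σ (max R (‖z₀‖ + 1))
  have e1 : ∀ᶠ z in 𝓝 z₀, ‖z‖ < ‖z₀‖ + 1 :=
    continuous_norm.continuousAt.eventually_lt continuousAt_const (lt_add_one _)
  have e2 : ∀ᶠ z : C2 in 𝓝 z₀, ‖z k‖ < b :=
    (continuous_apply k).norm.continuousAt.eventually_lt continuousAt_const (by simpa [hk])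
  filter_upwards [e1, e2] with z h1 h2 hz
  exact lt_of_not_ge fun c => h2.not_ge
    (h z hz (h1.le.trans (le_max_right _ _)) (c.trans (le_max_left _ _)) j k hjk)

end Pool.Agent.P.MP_2cea5e_gt.III
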