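import Pool.Agent.P.MP_2cea5e_gt.III.Tool

/-!
Chapter III: the calculus of tame operators.
-/

open scoped ContDiff ComplexOrder Matrix Topology
open MeasureTheory Set Filter

noncomputable section

namespace Pool.Agent.P.MP_2cea5e_gt.III

open II

variable {α : Type} {𝒰 : Set (α → Fn)} {K K' : Set C2} {m n k k' : ℕ} {F G : (α → Fn) → Fn}
  {V W : α → Fn} {A B : ℝ}

theorem SN.mono (h : SN k V A) (hk : k' ≤ k) (hA : A ≤ B) : SN k' V B := fun a => (h a).mono hk hA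
theorem SN.ord (h : SN k V A) (hk : k' ≤ k) : SN k' V A := h.mono hk le_rfl
theorem SN.le (h : SN k V A) (hA : A ≤ B) : SN k V B := h.mono le_rfl hA
theorem SS.le (h : SS k V A) (hA : A ≤ B) : SS k V B := fun a => (h a).le hA
theorem US.sm {η : ℝ} (h : V ∈ US α η) (a : α) : SmC (V a) := (h.1 a).sm
theorem US.zero {η : ℝ} (h : 0 ≤ η) : (0 : α → Fn) ∈ US α η := ⟨fun _ => Bd.zero, fun _ => Nb.zero h⟩
theorem US.mono {η η' : ℝ} (h : η ≤ η') : US α η ⊆ US α η' := fun _ hV => ⟨hV.1, hV.2.le h⟩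

namespace Ord

theorem sub_set (h : Ord 𝒰 K m F) (hK : K' ⊆ K) : Ord 𝒰 K' m F :=
  ⟨h.sm, fun k A => (h.bd k A).imp fun _ c => ⟨c.1, fun V hV a => (c.2 V hV a).sub_set hK⟩,
    fun k A => (h.tame k A).imp fun _ c =>
      ⟨c.1, fun V hV a M hM b => (c.2 V hV a M hM b).sub_set hK⟩,
    fun k A => (h.lip k A).imp fun _ c =>
      ⟨c.1, fun V hV V' hV' a b D hD e => (c.2 V hV V' hV' a b D hD e).sub_set hK⟩⟩

theorem sub_dom {𝒱 : Set (α → Fn)} (h : Ord 𝒰 K m F) (hs : 𝒱 ⊆ 𝒰) : Ord 𝒱 K m F :=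
  ⟨fun V hV => h.sm V (hs hV), fun k A => (h.bd k A).imp fun _ c => ⟨c.1, fun V hV => c.2 V (hs hV)⟩,
    fun k A => (h.tame k A).imp fun _ c => ⟨c.1, fun V hV => c.2 V (hs hV)⟩,
    fun k A => (h.lip k A).imp fun _ c => ⟨c.1, fun V hV V' hV' => c.2 V (hs hV) V' (hs hV')⟩⟩

theorem succ (h : Ord 𝒰 K m F) : Ord 𝒰 K (m + 1) F :=
  ⟨h.sm, fun k A => (h.bd k A).imp fun _ c => ⟨c.1, fun V hV a => c.2 V hV (a.ord (by omega))⟩,
    fun k A => (h.bd (k + 1) A).imp fun _ c => ⟨c.1, fun V hV a M hM _ =>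
      (c.2 V hV (a.ord (by omega))).le (le_mul_of_one_le_right c.1 hM)⟩,
    fun k A => (h.lip k A).imp fun _ c => ⟨c.1, fun V hV V' hV' a b D hD e =>
      c.2 V hV V' hV' (a.ord (by omega)) (b.ord (by omega)) D hD (e.ord (by omega))⟩⟩

theorem mono (h : Ord 𝒰 K m F) (hm : m ≤ n) : Ord 𝒰 K n F := by
  induction hm with
  | refl => exact h
  | step _ ih => exact ih.succ

theorem congr (h : Ord 𝒰 K m F) (hs : ∀ V ∈ 𝒰, SmC (G V))
    (e : ∀ V ∈ 𝒰, ∀ z ∈ K, G V =ᶠ[𝓝 z] F V) : Ord 𝒰 K m G :=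
  ⟨hs, fun k A => (h.bd k A).imp fun _ c => ⟨c.1, fun V hV a => (c.2 V hV a).congr (e V hV)⟩,
    fun k A => (h.tame k A).imp fun _ c =>
      ⟨c.1, fun V hV a M hM b => (c.2 V hV a M hM b).congr (e V hV)⟩,
    fun k A => (h.lip k A).imp fun _ c => ⟨c.1, fun V hV V' hV' a b D hD d =>
      (c.2 V hV V' hV' a b D hD d).congr fun z hz => (e V hV z hz).sub (e V' hV' z hz)⟩⟩

theorem congr' (h : Ord 𝒰 K m F) (e : ∀ V ∈ 𝒰, G V = F V) : Ord 𝒰 K m G :=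
  h.congr (fun V hV => e V hV ▸ h.sm V hV) fun V hV _ _ => e V hV ▸ EventuallyEq.rfl

theorem const {g : Fn} (hg : SmC g) (hb : ∀ k, ∃ C, 0 ≤ C ∧ Nb K k g C) :
    Ord 𝒰 K m fun _ => g :=
  ⟨fun _ _ => hg, fun k _ => (hb k).imp fun _ c => ⟨c.1, fun _ _ _ => c.2⟩,
    fun k _ => (hb (k + 1)).imp fun _ c =>
      ⟨c.1, fun _ _ _ _ hM _ => c.2.le (le_mul_of_one_le_right c.1 hM)⟩,
    fun _ _ => ⟨0, le_rfl, fun _ _ _ _ _ _ _ _ _ => by
      rw [sub_self, zero_mul]; exact Nb.zero le_rfl⟩⟩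

theorem cst (c : ℝ) : Ord 𝒰 K m fun _ _ => c :=
  const (sm_const c) fun _ => ⟨_, abs_nonneg c, Nb.const c⟩

theorem coord (hs : ∀ V ∈ 𝒰, ∀ a, SmC (V a)) (a : α) : Ord 𝒰 K 0 fun V => V a :=
  ⟨fun V hV => hs V hV a,
    fun _ A => ⟨max A 0, le_max_right _ _, fun _ _ h => ((h a).sub_set (subset_univ _)).max0⟩,
    fun _ _ => ⟨1, zero_le_one, fun _ _ _ _ _ h =>
      ((h a).sub_set (subset_univ _)).le (one_mul _).ge⟩,
    fun _ _ => ⟨1, zero_le_one, fun _ _ _ _ _ _ _ _ h =>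
      ((h a).sub_set (subset_univ _)).le (one_mul _).ge⟩⟩

theorem add (h : Ord 𝒰 K m F) (h' : Ord 𝒰 K m G) : Ord 𝒰 K m fun V => F V + G V := by
  refine ⟨fun V hV => sm_add (h.sm V hV) (h'.sm V hV), fun k A => ?_, fun k A => ?_, fun k A => ?_⟩
  · obtain ⟨C, c0, c⟩ := h.bd k A
    obtain ⟨D, d0, d⟩ := h'.bd k A
    exact ⟨C + D, add_nonneg c0 d0, fun V hV a =>
      (c V hV a).add (h.sm V hV) (h'.sm V hV) (d V hV a)⟩
  · obtain ⟨C, c0, c⟩ := h.tame k A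
    obtain ⟨D, d0, d⟩ := h'.tame k A
    exact ⟨C + D, add_nonneg c0 d0, fun V hV a M hM b =>
      ((c V hV a M hM b).add (h.sm V hV) (h'.sm V hV) (d V hV a M hM b)).le (add_mul _ _ _).ge⟩
  · obtain ⟨C, c0, c⟩ := h.lip k A
    obtain ⟨D, d0, d⟩ := h'.lip k A
    refine ⟨C + D, add_nonneg c0 d0, fun V hV V' hV' a b E hE e => ?_⟩
    rw [add_sub_add_comm, add_mul]
    exact (c V hV V' hV' a b E hE e).add (sm_sub (h.sm V hV) (h.sm V' hV'))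
      (sm_sub (h'.sm V hV) (h'.sm V' hV')) (d V hV V' hV' a b E hE e)

theorem pd (a : Fin 4) (h : Ord 𝒰 K m F) : Ord 𝒰 K (m + 1) fun V => pd a (F V) :=
  ⟨fun V hV => sm_pd a (h.sm V hV),
    fun k A => (h.bd (k + 1) A).imp fun _ c =>
      ⟨c.1, fun V hV b => (c.2 V hV (b.ord (by omega))).pd a⟩,
    fun k A => (h.tame (k + 1) A).imp fun _ c =>
      ⟨c.1, fun V hV b M hM d => (c.2 V hV (b.ord (by omega)) M hM (d.ord (by omega))).pd a⟩,
    fun k A => (h.lip (k + 1) A).imp fun _ c => ⟨c.1, fun V hV V' hV' b d D hD e => by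
      rw [← pd_sub a (h.sm V hV) (h.sm V' hV')]
      exact (c.2 V hV V' hV' (b.ord (by omega)) (d.ord (by omega)) D hD (e.ord (by omega))).pd a⟩⟩

theorem pdl (l : List (Fin 4)) (h : Ord 𝒰 K m F) :
    Ord 𝒰 K (m + l.length) fun V => pdl l (F V) := by
  induction l with
  | nil => exact h
  | cons a l ih => exact ih.pd a

theorem mul (h : Ord 𝒰 K m F) (h' : Ord 𝒰 K m G) : Ord 𝒰 K m fun V => F V * G V := by
  refine ⟨fun V hV => sm_mul (h.sm V hV) (h'.sm V hV), fun k A => ?_, fun k A => ?_, fun k A => ?_⟩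
  · obtain ⟨C, c0, c⟩ := h.bd k A
    obtain ⟨D, d0, d⟩ := h'.bd k A
    exact ⟨_, by positivity, fun V hV a =>
      (c V hV a).mul (h.sm V hV) (h'.sm V hV) c0 d0 (d V hV a)⟩
  · obtain ⟨C, c0, c⟩ := h.bd k A
    obtain ⟨D, d0, d⟩ := h'.bd k A
    obtain ⟨C', c0', c'⟩ := h.tame k A
    obtain ⟨D', d0', d'⟩ := h'.tame k A
    refine ⟨C * D + 2 ^ k * (C' * D + C * D'), by positivity, fun V hV a M hM b => ?_⟩
    have s := h.sm V hV
    have s' := h'.sm V hV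
    have M0 := zero_le_one.trans hM
    have p1 : 0 ≤ 2 ^ k * (C' * D + C * D') * M := by positivity
    have p2 : 0 ≤ C * D * M := by positivity
    refine Nb.succ (fun z hz => ?_) fun e => ?_
    · have := (((c V hV a).ord k.zero_le).mul s s' c0 d0 ((d V hV a).ord k.zero_le)).zero' hz
      have := le_mul_of_one_le_right (mul_nonneg c0 d0) hM
      linarith
    · rw [pd_mul e s s']
      exact ((((c' V hV a M hM b).pd e).mul (sm_pd e s) s' (by positivity) d0 (d V hV a)).add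
        (sm_mul (sm_pd e s) s') (sm_mul s (sm_pd e s'))
        ((c V hV a).mul s (sm_pd e s') c0 (by positivity) ((d' V hV a M hM b).pd e))).le
        (by linarith)
  · obtain ⟨C, c0, c⟩ := h.bd k A
    obtain ⟨D, d0, d⟩ := h'.bd k A
    obtain ⟨C', c0', c'⟩ := h.lip k A
    obtain ⟨D', d0', d'⟩ := h'.lip k A
    refine ⟨2 ^ k * (C' * D + C * D'), by positivity, fun V hV V' hV' a b E hE e => ?_⟩
    have s := sm_sub (h.sm V hV) (h.sm V' hV')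
    have s' := sm_sub (h'.sm V hV) (h'.sm V' hV')
    rw [show F V * G V - F V' * G V' = (F V - F V') * G V + F V' * (G V - G V') by ring]
    exact (((c' V hV V' hV' a b E hE e).mul s (h'.sm V hV) (by positivity) d0 (d V hV a)).add
      (sm_mul s (h'.sm V hV)) (sm_mul (h.sm V' hV') s')
      ((c V' hV' b).mul (h.sm V' hV') s' c0 (by positivity) (d' V hV V' hV' a b E hE e))).le
      (by linarith)

theorem cmul (c : ℝ) (h : Ord 𝒰 K m F) : Ord 𝒰 K m fun V z => c * F V z := (cst c).mul h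

theorem smul (c : ℝ) (h : Ord 𝒰 K m F) : Ord 𝒰 K m fun V => c • F V := h.cmul c

theorem neg (h : Ord 𝒰 K m F) : Ord 𝒰 K m fun V => -F V :=
  (h.cmul (-1)).congr' fun _ _ => funext fun _ => by simp

theorem sub (h : Ord 𝒰 K m F) (h' : Ord 𝒰 K m G) : Ord 𝒰 K m fun V => F V - G V :=
  (h.add h'.neg).congr' fun _ _ => sub_eq_add_neg _ _

theorem sum {J : Type*} (s : Finset J) {H : J → (α → Fn) → Fn} (h : ∀ j ∈ s, Ord 𝒰 K m (H j)) :
    Ord 𝒰 K m fun V z => ∑ j ∈ s, H j V z := by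
  classical
  induction s using Finset.induction_on with
  | empty => exact (cst 0).congr' fun _ _ => funext fun _ => Finset.sum_empty
  | insert a s ha ih =>
    exact ((h a (Finset.mem_insert_self _ _)).add
      (ih fun j hj => h j (Finset.mem_insert_of_mem hj))).congr' fun _ _ =>
        funext fun _ => Finset.sum_insert ha

theorem add' (h : Ord 𝒰 K m F) (h' : Ord 𝒰 K m G) : Ord 𝒰 K m fun V z => F V z + G V z := h.add h'
theorem sub' (h : Ord 𝒰 K m F) (h' : Ord 𝒰 K m G) : Ord 𝒰 K m fun V z => F V z - G V z := h.sub h'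
theorem mul' (h : Ord 𝒰 K m F) (h' : Ord 𝒰 K m G) : Ord 𝒰 K m fun V z => F V z * G V z := h.mul h'

theorem inv (h : Ord 𝒰 K m F) (h0 : ∀ V ∈ 𝒰, ∀ z, F V z ≠ 0) {c : ℝ} (hc : 0 < c)
    (hl : ∀ V ∈ 𝒰, ∀ z ∈ K, c ≤ F V z) : Ord 𝒰 K m fun V z => (F V z)⁻¹ := by
  have s := fun V hV => sm_inv (h.sm V hV) (h0 V hV)
  have hb : ∀ k A, ∃ C, 0 ≤ C ∧ ∀ V ∈ 𝒰, SN (k + m) V A → Nb K k (fun z => (F V z)⁻¹) C :=
    fun k A => by
      obtain ⟨C, -, c⟩ := h.bd k A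
      obtain ⟨D, d0, d⟩ := nb_inv K k C _ hc
      exact ⟨D, d0, fun V hV a => d _ (h.sm V hV) (h0 V hV) (hl V hV) (c V hV a)⟩
  refine ⟨s, hb, fun k A => ?_, fun k A => ?_⟩
  · obtain ⟨D, d0, d⟩ := hb k A
    obtain ⟨C, c0, c⟩ := h.tame k A
    refine ⟨D + 2 ^ k * (C * (2 ^ k * (D * D))), by positivity, fun V hV a M hM b => ?_⟩
    have M0 := zero_le_one.trans hM
    have p1 : 0 ≤ 2 ^ k * (C * (2 ^ k * (D * D))) * M := by positivity
    have p2 := le_mul_of_one_le_right d0 hM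
    refine Nb.succ (fun z hz => by linarith [(d V hV a).zero' hz]) fun e => ?_
    rw [pd_inv e (h.sm V hV) (h0 V hV)]
    exact (((c V hV a M hM b).pd e).mul (sm_pd e (h.sm V hV)) (sm_mul (s V hV) (s V hV))
      (by positivity) (by positivity) ((d V hV a).mul (s V hV) (s V hV) d0 d0 (d V hV a))).neg.le
      (by linarith)
  · obtain ⟨D, d0, d⟩ := hb k A
    obtain ⟨C, c0, c⟩ := h.lip k A
    refine ⟨2 ^ k * (C * (2 ^ k * (D * D))), by positivity, fun V hV V' hV' a b E hE e => ?_⟩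
    rw [show ((fun z => (F V z)⁻¹) - fun z => (F V' z)⁻¹) =
      -((F V - F V') * ((fun z => (F V z)⁻¹) * fun z => (F V' z)⁻¹)) from funext fun z => by
        have := h0 V hV z
        have := h0 V' hV' z
        simp only [Pi.sub_apply, Pi.neg_apply, Pi.mul_apply]
        field_simp
        ring]
    exact ((c V hV V' hV' a b E hE e).mul (sm_sub (h.sm V hV) (h.sm V' hV'))
      (sm_mul (s V hV) (s V' hV')) (by positivity) (by positivity)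
      ((d V hV a).mul (s V hV) (s V' hV') d0 d0 (d V' hV' b))).neg.le (by linarith)

/-- Bounded linear operators. -/
theorem lin {L : Fn → Fn} (hs : ∀ X, SmC X → SmC (L X))
    (hl : ∀ X Y, SmC X → SmC Y → L (X - Y) = L X - L Y)
    (hb : ∀ k, ∃ C, 0 ≤ C ∧ ∀ X A, SmC X → 0 ≤ A → Nb K' k X A → Nb K k (L X) (C * A))
    (h : Ord 𝒰 K' m F) : Ord 𝒰 K m fun V => L (F V) := by
  refine ⟨fun V hV => hs _ (h.sm V hV), fun k A => ?_, fun k A => ?_, fun k A => ?_⟩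
  · obtain ⟨C, c0, c⟩ := h.bd k A
    obtain ⟨D, d0, d⟩ := hb k
    exact ⟨D * C, mul_nonneg d0 c0, fun V hV a => d _ _ (h.sm V hV) c0 (c V hV a)⟩
  · obtain ⟨C, c0, c⟩ := h.tame k A
    obtain ⟨D, d0, d⟩ := hb (k + 1)
    exact ⟨D * C, mul_nonneg d0 c0, fun V hV a M hM b => (d _ _ (h.sm V hV)
      (mul_nonneg c0 (zero_le_one.trans hM)) (c V hV a M hM b)).le (mul_assoc _ _ _).ge⟩
  · obtain ⟨C, c0, c⟩ := h.lip k A
    obtain ⟨D, d0, d⟩ := hb k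
    refine ⟨D * C, mul_nonneg d0 c0, fun V hV V' hV' a b E hE e => ?_⟩
    rw [← hl _ _ (h.sm V hV) (h.sm V' hV'), mul_assoc]
    exact d _ _ (sm_sub (h.sm V hV) (h.sm V' hV')) (mul_nonneg c0 hE) (c V hV V' hV' a b E hE e)

theorem comp {T : C2 → C2} (hT : ContDiff ℝ ∞ T) (hK : IsCompact K) (hm : MapsTo T K K')
    (h : Ord 𝒰 K' m F) : Ord 𝒰 K m fun V => F V ∘ T :=
  h.lin (L := fun X => X ∘ T) (fun _ hX => hX.comp hT) (fun _ _ _ _ => rfl) (nb_comp hT hK hm)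

theorem Ee (i : Fin 4) (h : Ord 𝒰 K m F) : Ord 𝒰 K (m + 2) fun V => Ee i (F V) :=
  sum _ fun p _ => sum _ fun q _ => ((h.pd q).pd p).cmul _

theorem lap (h : Ord 𝒰 K m F) : Ord 𝒰 K (m + 2) fun V => lap (F V) :=
  sum _ fun a _ => (h.pd a).pd a

/-- The commutator of `Ee i` with a fixed function. -/
theorem com (i : Fin 4) {u : Fn} (hu : SmC u) (hb : ∀ k, ∃ C, 0 ≤ C ∧ Nb K k u C)
    (h : Ord 𝒰 K m F) : Ord 𝒰 K (m + 1) fun V => II.Ee i (u * F V) - u * II.Ee i (F V) := by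
  have c : ∀ n l, Ord 𝒰 K n fun _ => Pool.Agent.P.MP_2cea5e_gt.pdl l u := fun n l =>
    const (sm_pdl l hu) fun k => (hb _).imp fun _ c => ⟨c.1, c.2.pdl l⟩
  refine (sum Finset.univ fun p _ => sum Finset.univ fun q _ => cmul (ec i p q)
    ((((c _ [p, q]).mul h.succ).add ((c _ [q]).mul (h.pd p))).add
      ((c _ [p]).mul (h.pd q)))).congr' fun V hV => funext fun z => ?_
  have s := h.sm V hV
  simp only [II.Ee, Pi.sub_apply, Pi.mul_apply, Pi.add_apply, Finset.mul_sum,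
    ← Finset.sum_sub_distrib, pd_mul _ hu s, pdl_cons, pdl_nil,
    pd_add _ (sm_mul (sm_pd _ hu) s) (sm_mul hu (sm_pd _ s)), pd_mul _ (sm_pd _ hu) s,
    pd_mul _ hu (sm_pd _ s)]
  exact Finset.sum_congr rfl fun p _ => Finset.sum_congr rfl fun q _ => by ring

theorem of_OL {R : ℝ} (h : OL 𝒰 m F) (hc : ∀ V ∈ 𝒰, Cs R (F V)) : Ord 𝒰 univ m F :=
  ⟨(h R).sm, fun k A => ((h R).bd k A).imp fun _ c =>
      ⟨c.1, fun V hV a => (c.2 V hV a).of_cs (hc V hV) c.1⟩,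
    fun k A => ((h R).tame k A).imp fun _ c => ⟨c.1, fun V hV a M hM b =>
      (c.2 V hV a M hM b).of_cs (hc V hV) (mul_nonneg c.1 (zero_le_one.trans hM))⟩,
    fun k A => ((h R).lip k A).imp fun _ c => ⟨c.1, fun V hV V' hV' a b D hD e =>
      (c.2 V hV V' hV' a b D hD e).of_cs ((hc V hV).sub (hc V' hV')) (mul_nonneg c.1 hD)⟩⟩

theorem ol (h : Ord 𝒰 univ m F) : OL 𝒰 m F := fun _ => h.sub_set (subset_univ _)

end Ord

theorem Good.bd [Finite α] {η τ : ℝ} {W : ℝ → α → Fn} (h : Good η τ W) (k : ℕ) :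
    ∃ A, 0 ≤ A ∧ ∀ t ∈ Icc 0 τ, SN k (W t) A := by
  obtain ⟨A, a0, a⟩ := unif_fin (p := fun b A => ∀ t ∈ Icc 0 τ, Nb univ k (W t b) A)
    (fun _ _ _ e c t ht => (c t ht).le e) fun b => (h.tl b).bd k
  exact ⟨A, a0, fun t ht b => a b t ht⟩

theorem Good.lip [Finite α] {η τ : ℝ} {W : ℝ → α → Fn} (h : Good η τ W) (k : ℕ) :
    ∃ A, 0 ≤ A ∧ ∀ s ∈ Icc 0 τ, ∀ t ∈ Icc 0 τ, SN k (W t - W s) (A * |t - s|) := by
  obtain ⟨A, a0, a⟩ := unif_fin (p := fun b A => ∀ s ∈ Icc 0 τ, ∀ t ∈ Icc 0 τ,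
    Nb univ k (W t b - W s b) (A * |t - s|))
    (fun _ _ _ e c s hs t ht => (c s hs t ht).le (mul_le_mul_of_nonneg_right e (abs_nonneg _)))
    fun b => (h.tl b).lip k
  exact ⟨A, a0, fun s hs t ht b => a b s hs t ht⟩

/-- Bounds along a curve of states. -/
theorem Ord.curve [Finite α] {η τ : ℝ} {W : ℝ → α → Fn} (h : Ord (US α η) K m F)
    (hW : Good η τ W) (k : ℕ) : (∃ C, ∀ t ∈ Icc 0 τ, Nb K k (F (W t)) C) ∧
    ∃ C, ∀ s ∈ Icc 0 τ, ∀ t ∈ Icc 0 τ, Nb K k (F (W t) - F (W s)) (C * |t - s|) := by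
  obtain ⟨A, -, a⟩ := hW.bd (k + m)
  obtain ⟨L, l0, l⟩ := hW.lip (k + m)
  obtain ⟨C, -, c⟩ := h.bd k A
  obtain ⟨D, -, d⟩ := h.lip k A
  exact ⟨⟨C, fun t ht => c _ (hW.mem t ht) (a t ht)⟩, D * L, fun s hs t ht =>
    (d _ (hW.mem t ht) _ (hW.mem s hs) (a t ht) (a s hs) _ (mul_nonneg l0 (abs_nonneg _))
      (l s hs t ht)).le (mul_assoc _ _ _).ge⟩

theorem Ord.tl [Finite α] {η τ : ℝ} {W : ℝ → α → Fn} (h : Ord (US α η) univ m F)
    (hW : Good η τ W) : TL τ fun t => F (W t) :=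
  ⟨fun t ht => h.sm _ (hW.mem t ht), fun k => (h.curve hW k).1, fun k => (h.curve hW k).2⟩

namespace OL

theorem sm (h : OL 𝒰 m F) : ∀ V ∈ 𝒰, SmC (F V) := (h 0).sm
theorem sub_dom {𝒱 : Set (α → Fn)} (h : OL 𝒰 m F) (hs : 𝒱 ⊆ 𝒰) : OL 𝒱 m F :=
  fun R => (h R).sub_dom hs
theorem mono (h : OL 𝒰 m F) (hm : m ≤ n) : OL 𝒰 n F := fun R => (h R).mono hm
theorem congr' (h : OL 𝒰 m F) (e : ∀ V ∈ 𝒰, G V = F V) : OL 𝒰 m G := fun R => (h R).congr' e
theorem const {g : Fn} (hg : SmC g) : OL 𝒰 m fun _ => g :=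
  fun R => Ord.const hg (exists_nb_cb hg R)
theorem cst (c : ℝ) : OL 𝒰 m fun _ _ => c := fun _ => Ord.cst c
theorem coord (hs : ∀ V ∈ 𝒰, ∀ a, SmC (V a)) (a : α) : OL 𝒰 0 fun V => V a :=
  fun _ => Ord.coord hs a
theorem add (h : OL 𝒰 m F) (h' : OL 𝒰 m G) : OL 𝒰 m fun V => F V + G V :=
  fun R => (h R).add (h' R)
theorem sub (h : OL 𝒰 m F) (h' : OL 𝒰 m G) : OL 𝒰 m fun V => F V - G V :=
  fun R => (h R).sub (h' R)
theorem mul (h : OL 𝒰 m F) (h' : OL 𝒰 m G) : OL 𝒰 m fun V => F V * G V :=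
  fun R => (h R).mul (h' R)
theorem add' (h : OL 𝒰 m F) (h' : OL 𝒰 m G) : OL 𝒰 m fun V z => F V z + G V z := h.add h'
theorem sub' (h : OL 𝒰 m F) (h' : OL 𝒰 m G) : OL 𝒰 m fun V z => F V z - G V z := h.sub h'
theorem mul' (h : OL 𝒰 m F) (h' : OL 𝒰 m G) : OL 𝒰 m fun V z => F V z * G V z := h.mul h'
theorem neg (h : OL 𝒰 m F) : OL 𝒰 m fun V => -F V := fun R => (h R).neg
theorem cmul (c : ℝ) (h : OL 𝒰 m F) : OL 𝒰 m fun V z => c * F V z := fun R => (h R).cmul c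
theorem smul (c : ℝ) (h : OL 𝒰 m F) : OL 𝒰 m fun V => c • F V := fun R => (h R).smul c
theorem sum {J : Type*} (s : Finset J) {H : J → (α → Fn) → Fn} (h : ∀ j ∈ s, OL 𝒰 m (H j)) :
    OL 𝒰 m fun V z => ∑ j ∈ s, H j V z := fun R => Ord.sum s fun j hj => h j hj R
theorem pd (a : Fin 4) (h : OL 𝒰 m F) : OL 𝒰 (m + 1) fun V => pd a (F V) := fun R => (h R).pd a
theorem pdl (l : List (Fin 4)) (h : OL 𝒰 m F) : OL 𝒰 (m + l.length) fun V => pdl l (F V) :=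
  fun R => (h R).pdl l
theorem Ee (i : Fin 4) (h : OL 𝒰 m F) : OL 𝒰 (m + 2) fun V => Ee i (F V) := fun R => (h R).Ee i
theorem com (i : Fin 4) {u : Fn} (hu : SmC u) (h : OL 𝒰 m F) :
    OL 𝒰 (m + 1) fun V => II.Ee i (u * F V) - u * II.Ee i (F V) :=
  fun R => (h R).com i hu (exists_nb_cb hu R)

theorem inv (h : OL 𝒰 m F) {v : Fn} (hv : Continuous v) (h0 : ∀ z, 0 < v z)
    (hl : ∀ V ∈ 𝒰, ∀ z, v z ≤ F V z) : OL 𝒰 m fun V z => (F V z)⁻¹ := fun R => by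
  obtain ⟨c, hc, h1⟩ := (isCompact_closedBall (0 : C2) R).exists_forall_le' hv.continuousOn
    fun z _ => h0 z
  exact (h R).inv (fun V hV z => ((h0 z).trans_le (hl V hV z)).ne') hc
    fun V hV z hz => (h1 z hz).trans (hl V hV z)

theorem comp {T : C2 → C2} (hT : ContDiff ℝ ∞ T) (h : OL 𝒰 m F) :
    OL 𝒰 m fun V => F V ∘ T := fun R => by
  obtain ⟨R', h1⟩ := (isCompact_closedBall (0 : C2) R).exists_bound_of_continuousOn
    hT.continuous.continuousOn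
  exact (h R').comp hT (isCompact_closedBall _ _) fun z hz => mem_cb.2 (h1 z hz)

theorem lin {L : Fn → Fn} (hs : ∀ X, SmC X → SmC (L X))
    (hl : ∀ X Y, SmC X → SmC Y → L (X - Y) = L X - L Y)
    (hb : ∀ R k, ∃ C, 0 ≤ C ∧ ∀ X A, SmC X → Nb (cb R) k X A → Nb (cb R) k (L X) (C * A))
    (h : OL 𝒰 m F) : OL 𝒰 m fun V => L (F V) := fun R =>
  (h R).lin hs hl fun k => (hb R k).imp fun _ c => ⟨c.1, fun X A hX _ => c.2 X A hX⟩

theorem avg {Av : Fn → Fn} (hA : IsAvg Av) (h : OL 𝒰 m F) : OL 𝒰 m fun V => Av (F V) :=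
  h.lin hA.sm hA.sub hA.bd

end OL

theorem IsAvg.cs {Av : Fn → Fn} (hA : IsAvg Av) {R : ℝ} {X : Fn} (h : Cs R X) : Cs R (Av X) :=
  fun z hz => abs_nonpos_iff.1 (hA.abs X z 0 fun θ hθ => by
    have e : ‖θ * z‖ = ‖z‖ := by simp only [Pi.norm_def, Pi.mul_apply, nnnorm_mul,
      show ∀ j, ‖θ j‖₊ = 1 from fun j => NNReal.eq (hθ j), one_mul]
    rw [h _ (e ▸ hz), abs_zero])

end Pool.Agent.P.MP_2cea5e_gt.III
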