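import Pool.Agent.P.MP_2cea5e_gt.III.OrdT

/-!
Chapter III: the partition of unity.
-/

open scoped ContDiff ComplexOrder Matrix Topology
open MeasureTheory Set Filter

noncomputable section

namespace Pool.Agent.P.MP_2cea5e_gt.III

open II

namespace Sys1P

variable {ι α : Type} [Fintype α] {m : ι → Matrix (Fin 2) (Fin 2) ℤ} {ψ : ι → Fn} {d : ℝ}
  (P : Pat ψ d α) {Av : Fn → Fn}

omit [Fintype α] in
theorem cs_patch (b : α) : ∃ R₀, ∀ X : Fn, Cs R₀ ((P.β b * X) ∘ P.Ai b) := by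
  obtain ⟨R₀, hR⟩ := (isCompact_closedBall (0 : C2) 1).exists_bound_of_continuousOn
    (sm_aff' (P.z b) (P.J b)).continuous.continuousOn
  refine ⟨R₀, fun X z hz => ?_⟩
  have h1 : 1 < ‖P.Ai b z‖ := by
    by_contra h
    have := hR (P.Ai b z) (mem_closedBall_zero_iff.2 (not_lt.1 h))
    rw [Pat.Ai, aff_affi _ (P.det b)] at this
    linarith
  simp only [Function.comp_apply, Pi.mul_apply, P.csβ b _ h1, zero_mul]

omit [Fintype α] in
theorem sm_patch (b : α) {X : Fn} (hX : SmC X) : SmC ((P.β b * X) ∘ P.Ai b) :=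
  ContDiff.comp (sm_mul (P.smβ b) hX) (sm_affi _ _)

theorem Tr_add (σ τ : ι) (X Y : Fn) : Tr m σ τ (X + Y) = Tr m σ τ X + Tr m σ τ Y := by
  funext z
  simp only [Tr, Pi.add_apply]
  split_ifs <;> simp

theorem Tr_sub (σ τ : ι) (X Y : Fn) : Tr m σ τ (X - Y) = Tr m σ τ X - Tr m σ τ Y := by
  funext z
  simp only [Tr, Pi.sub_apply]
  split_ifs <;> simp

theorem Tr_smul (σ τ : ι) (X : Fn) (c : ℝ) : Tr m σ τ (X * fun _ => c) = c • Tr m σ τ X := by
  funext z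
  simp only [Tr, Pi.mul_apply, Pi.smul_apply, smul_eq_mul]
  split_ifs <;> simp [mul_comm]

theorem av_sum (hA : IsAvg Av) {J : Type} (s : Finset J) {F : J → Fn} (h : ∀ j, SmC (F j))
    (z : C2) : Av (fun y => ∑ j ∈ s, F j y) z = ∑ j ∈ s, Av (F j) z := by
  classical
  induction s using Finset.induction_on with
  | empty =>
    have := hA.abs (fun _ => 0) z 0 fun _ _ => by simp
    simpa using this
  | insert a s ha ih =>
    simp only [Finset.sum_insert ha]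
    rw [← ih]
    exact congrFun (hA.add (F a) (fun y => ∑ j ∈ s, F j y) (h a) (sm_sum s fun j _ => h j)) z

omit [Fintype α] in
theorem gl (h1 : S_Tr) (hm : IsFanD m) (hA : IsAvg Av) (b : α) {X : Fn} (hX : SmC X) :
    Gl m (P.E m Av b X) := by
  obtain ⟨R₀, hR⟩ := cs_patch P b
  exact (h1 ι m hm).1 (P.σ b) _ R₀ (hA.sm _ (sm_patch P b hX)) (hA.cs (hR X)) (hA.inv _)

theorem gl_Th (h1 : S_Tr) (hm : IsFanD m) (hA : IsAvg Av) : Gl m (P.Th m Av) := by
  have g := fun b => gl P h1 hm hA b (P.smβ b)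
  refine ⟨fun σ => sm_sum _ fun b _ => (g b).sm σ, fun σ θ z hθ => ?_, fun σ τ w hw => ?_⟩
  · exact Finset.sum_congr rfl fun b _ => (g b).inv σ θ z hθ
  · exact Finset.sum_congr rfl fun b _ => (g b).glue σ τ w hw

theorem one_le_Th (h0 : S_Mon) (h1 : S_Tr) (hm : IsFanD m) (hA : IsAvg Av) (τ : ι) (z : C2) :
    1 ≤ P.Th m Av τ z := by
  classical
  obtain ⟨m1, m2, m3, -, -, m6, -, -, -, -, m11⟩ := h0
  have hc : IsClosed {z | 1 ≤ P.Th m Av τ z} :=
    isClosed_le continuous_const ((gl_Th P h1 hm hA).sm τ).cont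
  refine closure_minimal (s := {z | Tor z}) (fun z hz => ?_) hc (m11 z)
  have hw : Tor (mon (m τ)⁻¹ z) := m1 _ z hz
  have e : z = mon (m τ) (mon (m τ)⁻¹ z) := by
    rw [m2 _ _ z hz, Matrix.mul_nonsing_inv _ (hm.unimod τ), m3]
  set w := mon (m τ)⁻¹ z
  obtain ⟨s, hs⟩ := hm.cover fun k => Real.log ‖w k‖
  have hx : ∀ j, ‖mon (m s) w j‖ ≤ 1 := fun j => by
    have := hs j
    rw [← m6 _ w j hw] at this
    exact (Real.log_nonpos_iff (norm_nonneg _)).1 this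
  have nn : ∀ b y, 0 ≤ ((P.β b * P.β b) ∘ P.Ai b) y := fun b y => mul_self_nonneg _
  have sm := fun b => sm_patch P b (P.smβ b)
  change 1 ≤ ∑ b, P.E m Av b (P.β b) τ z
  have e2 : ∀ b, P.E m Av b (P.β b) τ z = Av ((P.β b * P.β b) ∘ P.Ai b) (mon (m (P.σ b)) w) :=
    fun b => by
      rw [e]
      exact (h1 ι m hm).2.2.1 _ τ _ w hw
  simp only [e2]
  refine le_trans ?_ (Finset.sum_le_sum_of_subset_of_nonneg
    (Finset.subset_univ (Finset.univ.filter fun b => P.σ b = s))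
    fun b _ _ => hA.le _ _ 0 (sm b) fun θ _ => nn b _)
  rw [Finset.sum_congr rfl (g := fun b => Av ((P.β b * P.β b) ∘ P.Ai b) (mon (m s) w))
    fun b hb => by rw [(Finset.mem_filter.1 hb).2], ← av_sum hA _ sm]
  refine hA.le _ _ 1 (sm_sum _ fun b _ => sm b) fun θ hθ => ?_
  obtain ⟨a, ha, hb⟩ := P.cover s (θ * mon (m s) w) ((pi_norm_le_iff_of_nonneg zero_le_one).2
    fun j => by rw [Pi.mul_apply, norm_mul, hθ j, one_mul]; exact hx j)
  refine le_trans ?_ (Finset.single_le_sum (f := fun b =>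
    ((P.β b * P.β b) ∘ P.Ai b) (θ * mon (m s) w)) (fun b _ => nn b _)
    (Finset.mem_filter.2 ⟨Finset.mem_univ a, ha⟩))
  simp only [Function.comp_apply, Pi.mul_apply, Pat.Ai, hb, mul_one, le_refl]

theorem Th_ne (h0 : S_Mon) (h1 : S_Tr) (hm : IsFanD m) (hA : IsAvg Av) (τ : ι) (z : C2) :
    P.Th m Av τ z ≠ 0 := (one_pos.trans_le (one_le_Th P h0 h1 hm hA τ z)).ne'

theorem gl_div (h0 : S_Mon) (h1 : S_Tr) (hm : IsFanD m) (hA : IsAvg Av) {u : ι → Fn}
    (hu : Gl m u) : Gl m fun σ z => u σ z * (P.Th m Av σ z)⁻¹ := by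
  have g := gl_Th P h1 hm hA
  refine ⟨fun σ => ContDiff.mul (hu.sm σ) (sm_inv (g.sm σ) (Th_ne P h0 h1 hm hA σ)),
    fun σ θ z hθ => ?_, fun σ τ w hw => ?_⟩
  · simp only [hu.inv σ θ z hθ, g.inv σ θ z hθ]
  · simp only [hu.glue σ τ w hw, g.glue σ τ w hw]

end Sys1P

open Sys1P in
theorem sys1 (h0 : S_Mon) (h1 : S_Tr) : S_Sys1 := by
  intro ι α _ m ψ d P Av hm hA
  refine ⟨fun b X hX => gl P h1 hm hA b hX, fun b X Y τ hX hY => ?_, fun b X Y τ hX hY => ?_,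
    fun b X τ c => ?_, fun b X τ A hX z => ?_, fun b τ 𝒰 k F hF => ?_, fun a u hu => ?_,
    fun u hu τ z => ?_, fun a 𝒰 k H hH => ?_⟩
  · simp only [Pat.E]
    rw [← Tr_add, ← hA.add _ _ (sm_patch P b hX) (sm_patch P b hY), mul_add]
    rfl
  · simp only [Pat.E]
    rw [← Tr_sub, ← hA.sub _ _ (sm_patch P b hX) (sm_patch P b hY), mul_sub]
    rfl
  · simp only [Pat.E]
    rw [← Tr_smul, ← hA.mul _ _ fun _ _ _ => rfl]
    congr 2
    funext y
    simp only [Function.comp_apply, Pi.mul_apply, Pi.smul_apply, smul_eq_mul]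
    ring
  · have hA0 : 0 ≤ A := (abs_nonneg _).trans (hX 0)
    simp only [Pat.E, Tr]
    split_ifs
    · refine hA.abs _ _ _ fun θ _ => ?_
      rw [Function.comp_apply, Pi.mul_apply, abs_mul]
      exact (mul_le_mul (P.absβ _ _) (hX _) (abs_nonneg _) zero_le_one).trans_eq (one_mul _)
    · rwa [abs_zero]
  · obtain ⟨R₀, hR⟩ := cs_patch P b
    exact (h1 ι m hm).2.2.2.2 (P.σ b) τ R₀ α 𝒰 k (fun V => Av ((P.β b * F V) ∘ P.Ai b))
      (OL.avg hA (((OL.const (P.smβ b)).mul hF).comp (sm_affi _ _))) fun V _ => hA.cs (hR _)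
  · exact sm_mul (P.smβ a) (ContDiff.comp ((gl_div P h0 h1 hm hA hu).sm _) (sm_aff' _ _))
  · have g := gl_div P h0 h1 hm hA hu
    have e : ∀ a, P.E m Av a (P.Rs m Av a u) τ z =
        P.E m Av a (P.β a) τ z * (u τ z * (P.Th m Av τ z)⁻¹) := fun a => by
      have e1 : (P.β a * P.Rs m Av a u) ∘ P.Ai a = (P.β a * P.β a) ∘ P.Ai a *
          fun z => u (P.σ a) z * (P.Th m Av (P.σ a) z)⁻¹ := by
        funext y
        simp only [Pat.Rs, Pat.A, Pat.Ai, Function.comp_apply, Pi.mul_apply,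
          aff_affi _ (P.det a), mul_assoc]
      rw [Pat.E, e1, hA.mul _ _ (g.inv _)]
      exact congrFun ((h1 ι m hm).2.2.2.1 (P.σ a) τ _ _ g) z
    simp only [e]
    rw [← Finset.sum_mul]
    change P.Th m Av τ z * _ = _
    rw [mul_comm, inv_mul_cancel_right₀ (Th_ne P h0 h1 hm hA τ z)]
  · refine Ord.of_OL (R := 1) ?_ fun V _ => (P.csβ a).mul_right _
    exact (OL.const (P.smβ a)).mul ((hH.mul' (OL.const (sm_inv ((gl_Th P h1 hm hA).sm _)
      (Th_ne P h0 h1 hm hA _)))).comp (sm_aff' _ _))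

end Pool.Agent.P.MP_2cea5e_gt.III
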