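import Pool.Agent.P.MP_2cea5e_gt.III.Def

/-!
Chapter III: toolbox for the sup and Hoelder norms.
-/

open scoped ContDiff ComplexOrder Matrix Topology
open MeasureTheory Set Filter

noncomputable section

namespace Pool.Agent.P.MP_2cea5e_gt.III

open II

variable {K K' : Set C2} {k k' : ℕ} {f g : Fn} {A B C H H' : ℝ}

theorem sm_add (hf : SmC f) (hg : SmC g) : SmC (f + g) := II.sm_add hf hg
theorem sm_sub (hf : SmC f) (hg : SmC g) : SmC (f - g) := II.sm_sub hf hg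
theorem sm_mul (hf : SmC f) (hg : SmC g) : SmC (f * g) := II.sm_mul hf hg
theorem sm_neg (hf : SmC f) : SmC (-f) := II.sm_neg hf
theorem hasDerivAt_line (hf : SmC f) (a : Fin 4) (z : C2) (s : ℝ) :
    HasDerivAt (fun r : ℝ => f (z + r • dir a)) (pd a f (z + s • dir a)) s :=
  II.hasDerivAt_line hf a z s

/-! ### Uniform constants -/

theorem unif_fin {J : Type} [Finite J] {p : J → ℝ → Prop} (hm : ∀ j C C', C ≤ C' → p j C → p j C')
    (h : ∀ j, ∃ C, p j C) : ∃ C, 0 ≤ C ∧ ∀ j, p j C := by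
  choose c hc using h
  obtain ⟨M, hM⟩ := (Set.finite_range c).bddAbove
  exact ⟨max M 0, le_max_right _ _, fun j =>
    hm j _ _ ((hM ⟨j, rfl⟩).trans (le_max_left _ _)) (hc j)⟩

theorem unif_list (n : ℕ) {p : List (Fin 4) → ℝ → Prop}
    (hm : ∀ l C C', C ≤ C' → p l C → p l C') (h : ∀ l, ∃ C, p l C) :
    ∃ C, 0 ≤ C ∧ ∀ l : List (Fin 4), l.length ≤ n → p l C := by
  have := (List.finite_length_le (Fin 4) n).to_subtype
  obtain ⟨C, h0, hC⟩ := unif_fin (J := {l : List (Fin 4) | l.length ≤ n})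
    (p := fun l C => p l.1 C) (fun l => hm l.1) fun l => h l.1
  exact ⟨C, h0, fun l hl => hC ⟨l, hl⟩⟩

theorem mem_cb {R : ℝ} {z : C2} : z ∈ cb R ↔ ‖z‖ ≤ R := mem_closedBall_zero_iff

/-! ### Sup norms -/

namespace Nb

theorem mono (h : Nb K k f A) (hk : k' ≤ k) (hA : A ≤ B) : Nb K k' f B :=
  fun l hl z hz => (h l (hl.trans hk) z hz).trans hA

theorem le (h : Nb K k f A) (hA : A ≤ B) : Nb K k f B := h.mono le_rfl hA

theorem ord (h : Nb K k f A) (hk : k' ≤ k) : Nb K k' f A := h.mono hk le_rfl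

theorem sub_set (h : Nb K k f A) (hK : K' ⊆ K) : Nb K' k f A := fun l hl z hz => h l hl z (hK hz)

theorem zero' (h : Nb K k f A) {z : C2} (hz : z ∈ K) : |f z| ≤ A := h [] (Nat.zero_le _) z hz

theorem nonneg (h : Nb univ k f A) : 0 ≤ A := (abs_nonneg _).trans (h.zero' (mem_univ 0))

theorem max0 (h : Nb K k f A) : Nb K k f (max A 0) := h.le (le_max_left _ _)

theorem pd (a : Fin 4) (h : Nb K (k + 1) f A) : Nb K k (pd a f) A := fun l hl z hz => by
  rw [← pdl_concat]; exact h _ (by simpa using hl) z hz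

theorem pdl (l : List (Fin 4)) (h : Nb K (k + l.length) f A) : Nb K k (pdl l f) A :=
  fun l' hl z hz => by rw [← pdl_append]; exact h _ (by simpa using hl) z hz

theorem succ (h0 : ∀ z ∈ K, |f z| ≤ A) (h : ∀ a, Nb K k (Pool.Agent.P.MP_2cea5e_gt.pd a f) A) :
    Nb K (k + 1) f A := fun l hl z hz => by
  rcases List.eq_nil_or_concat l with rfl | ⟨l', a, rfl⟩
  · exact h0 z hz
  · rw [List.concat_eq_append, pdl_concat]
    exact h a l' (by simpa using hl) z hz

theorem of_zero (h0 : ∀ z ∈ K, |f z| ≤ A) : Nb K 0 f A := fun l hl z hz => by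
  obtain rfl := List.length_eq_zero_iff.1 (Nat.le_zero.1 hl)
  exact h0 z hz

theorem congr (h : Nb K k f A) (e : ∀ z ∈ K, g =ᶠ[𝓝 z] f) : Nb K k g A := fun l hl z hz => by
  rw [(pdl_congr l (e z hz)).eq_of_nhds]; exact h l hl z hz

theorem add (hf : SmC f) (hg : SmC g) (h : Nb K k f A) (h' : Nb K k g B) :
    Nb K k (f + g) (A + B) := fun l hl z hz => by
  rw [pdl_add l hf hg]
  exact (abs_add_le _ _).trans (add_le_add (h l hl z hz) (h' l hl z hz))

theorem sub (hf : SmC f) (hg : SmC g) (h : Nb K k f A) (h' : Nb K k g B) :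
    Nb K k (f - g) (A + B) := fun l hl z hz => by
  rw [pdl_sub l hf hg]
  exact (abs_sub _ _).trans (add_le_add (h l hl z hz) (h' l hl z hz))

theorem neg (h : Nb K k f A) : Nb K k (-f) A := fun l hl z hz => by
  rw [show -f = fun z => -f z from rfl, pdl_neg', abs_neg]; exact h l hl z hz

theorem sub_comm (h : Nb K k (f - g) A) : Nb K k (g - f) A := by
  rw [← neg_sub]; exact h.neg

theorem cmul (c : ℝ) (hf : SmC f) (h : Nb K k f A) : Nb K k (fun z => c * f z) (|c| * A) :=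
  fun l hl z hz => by
    rw [pdl_cmul' l c hf, abs_mul]
    exact mul_le_mul_of_nonneg_left (h l hl z hz) (abs_nonneg _)

theorem smul (c : ℝ) (hf : SmC f) (h : Nb K k f A) : Nb K k (c • f) (|c| * A) := h.cmul c hf

theorem const (c : ℝ) : Nb K k (fun _ => c) |c| := fun l _ z _ => by
  rcases eq_or_ne l [] with rfl | hl
  · exact le_rfl
  · rw [pdl_const hl, abs_zero]; exact abs_nonneg _

theorem zero (hA : 0 ≤ A) : Nb K k 0 A := (const 0).le (by simpa using hA)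

theorem sum {J : Type*} (s : Finset J) {F : J → Fn} {c : J → ℝ} (hs : ∀ j ∈ s, SmC (F j))
    (h : ∀ j ∈ s, Nb K k (F j) (c j)) : Nb K k (fun z => ∑ j ∈ s, F j z) (∑ j ∈ s, c j) :=
  fun l hl z hz => by
    rw [pdl_sum' l s hs]
    exact (Finset.abs_sum_le_sum_abs _ _).trans (Finset.sum_le_sum fun j hj => h j hj l hl z hz)

theorem mul (hf : SmC f) (hg : SmC g) (hA : 0 ≤ A) (hB : 0 ≤ B) (h : Nb K k f A)
    (h' : Nb K k g B) : Nb K k (f * g) (2 ^ k * (A * B)) := by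
  have h0 : ∀ {f g : Fn} {k : ℕ}, Nb K k f A → Nb K k g B → ∀ z ∈ K, |(f * g) z| ≤ A * B :=
    fun h h' z hz => by
      rw [Pi.mul_apply, abs_mul]
      exact mul_le_mul (h.zero' hz) (h'.zero' hz) (abs_nonneg _) hA
  induction k generalizing f g with
  | zero => exact of_zero fun z hz => by simpa using h0 h h' z hz
  | succ k ih =>
    refine succ (fun z hz => (h0 h h' z hz).trans
      (le_mul_of_one_le_left (mul_nonneg hA hB) (one_le_pow₀ one_le_two))) fun a => ?_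
    rw [pd_mul a hf hg]
    exact ((ih (sm_pd a hf) hg (h.pd a) (h'.ord k.le_succ)).add (sm_mul (sm_pd a hf) hg)
      (sm_mul hf (sm_pd a hg)) (ih hf (sm_pd a hg) (h.ord k.le_succ) (h'.pd a))).le
      (by rw [pow_succ]; linarith)

theorem lap (hf : SmC f) (h : Nb K (k + 2) f A) : Nb K k (lap f) (4 * A) :=
  (sum Finset.univ (fun a _ => sm_pd a (sm_pd a hf)) fun a _ => (h.pd a).pd a).le (by simp)

theorem Ee (i : Fin 4) (hf : SmC f) (hA : 0 ≤ A) (h : Nb K (k + 2) f A) :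
    Nb K k (Ee i f) (4 * A) := by
  have s1 : ∀ p q, SmC fun z => ec i p q *
      Pool.Agent.P.MP_2cea5e_gt.pd p (Pool.Agent.P.MP_2cea5e_gt.pd q f) z :=
    fun p q => ContDiff.mul contDiff_const (sm_pd p (sm_pd q hf))
  refine (sum Finset.univ (c := fun _ => A) (fun p _ => sm_sum _ fun q _ => s1 p q) fun p _ =>
    (sum Finset.univ (c := fun _ => A / 4) (fun q _ => s1 p q) fun q _ =>
      (((h.pd q).pd p).cmul _ (sm_pd p (sm_pd q hf))).le ?_).le ?_).le (by simp)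
  · have := mul_le_mul_of_nonneg_right (abs_ec_le i p q) hA
    linarith
  · simp only [Finset.sum_const, Finset.card_univ, Fintype.card_fin, nsmul_eq_mul]
    push_cast
    linarith

end Nb

theorem exists_nb (hK : IsCompact K) (hf : SmC f) (k : ℕ) : ∃ C, 0 ≤ C ∧ Nb K k f C :=
  unif_list k (p := fun l C => ∀ z ∈ K, |pdl l f z| ≤ C)
    (fun _ _ _ h h' z hz => (h' z hz).trans h) fun l =>
      hK.exists_bound_of_continuousOn (sm_pdl l hf).cont.continuousOn

theorem exists_nb_cb (hf : SmC f) (R : ℝ) (k : ℕ) : ∃ C, 0 ≤ C ∧ Nb (cb R) k f C :=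
  exists_nb (isCompact_closedBall _ _) hf k

theorem sm_inv (hf : SmC f) (h0 : ∀ z, f z ≠ 0) : SmC fun z => (f z)⁻¹ := ContDiff.inv hf h0

theorem pd_inv (a : Fin 4) (hf : SmC f) (h0 : ∀ z, f z ≠ 0) : pd a (fun z => (f z)⁻¹) =
    -(pd a f * ((fun z => (f z)⁻¹) * fun z => (f z)⁻¹)) := by
  rw [pd_inv' a hf h0]; funext z; simp [mul_assoc]

theorem nb_inv (K : Set C2) (k : ℕ) (A c : ℝ) (hc : 0 < c) : ∃ C, 0 ≤ C ∧ ∀ f, SmC f →
    (∀ z, f z ≠ 0) → (∀ z ∈ K, c ≤ f z) → Nb K k f A → Nb K k (fun z => (f z)⁻¹) C := by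
  have h0 : ∀ f : Fn, (∀ z ∈ K, c ≤ f z) → ∀ z ∈ K, |(f z)⁻¹| ≤ c⁻¹ := fun f h z hz => by
    rw [abs_of_pos (inv_pos.2 (hc.trans_le (h z hz)))]
    exact inv_anti₀ hc (h z hz)
  induction k with
  | zero => exact ⟨c⁻¹, (inv_pos.2 hc).le, fun f _ _ h _ => Nb.of_zero (h0 f h)⟩
  | succ k ih =>
    obtain ⟨C, hC, ih⟩ := ih
    refine ⟨max c⁻¹ (2 ^ k * (max A 0 * (2 ^ k * (C * C)))), le_max_of_le_left (inv_pos.2 hc).le,
      fun f hf hn h hA => Nb.succ (fun z hz => (h0 f h z hz).trans (le_max_left _ _)) fun a => ?_⟩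
    have s := sm_inv hf hn
    have b := ih f hf hn h (hA.ord k.le_succ)
    rw [pd_inv a hf hn]
    exact (((hA.pd a).max0.mul (sm_pd a hf) (sm_mul s s) (le_max_right _ _) (by positivity)
      (b.mul s s hC hC b)).neg).le (le_max_right _ _)

theorem sm_co {T : C2 → C2} (hT : ContDiff ℝ ∞ T) (b : Fin 4) : SmC fun z => co b (T z) :=
  (co b).contDiff.comp hT

theorem pd_comp {T : C2 → C2} (hT : ContDiff ℝ ∞ T) (hf : SmC f) (a : Fin 4) :
    pd a (f ∘ T) = fun z => ∑ b, (pd a (fun y => co b (T y)) * pd b f ∘ T) z := by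
  funext z
  have h1 := (hT.differentiable (by simp) z).hasFDerivAt
  have h2 := ((hf.hfd (T z)).comp z h1).fderiv
  have h3 : ∀ b, pd a (fun y => co b (T y)) z = co b (fderiv ℝ T z (dir a)) := fun b => by
    have := ((co b).hasFDerivAt.comp z h1).fderiv
    exact congrArg (fun L : C2 →L[ℝ] ℝ => L (dir a)) this
  simp only [Pi.mul_apply, Function.comp_apply, h3]
  rw [← fderiv_apply]
  exact congrArg (fun L : C2 →L[ℝ] ℝ => L (dir a)) h2

theorem nb_comp {T : C2 → C2} (hT : ContDiff ℝ ∞ T) (hK : IsCompact K) (hm : MapsTo T K K')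
    (k : ℕ) : ∃ C, 0 ≤ C ∧ ∀ f A, SmC f → 0 ≤ A → Nb K' k f A → Nb K k (f ∘ T) (C * A) := by
  induction k with
  | zero => exact ⟨1, zero_le_one, fun f A _ _ h => Nb.of_zero fun z hz => by
      simpa using h.zero' (hm hz)⟩
  | succ k ih =>
    obtain ⟨C, hC, ih⟩ := ih
    obtain ⟨D, hD, hb⟩ := unif_fin (p := fun b D => Nb K (k + 1) (fun y => co b (T y)) D)
      (fun _ _ _ h h' => h'.le h) fun b => (exists_nb hK (sm_co hT b) _).imp fun _ h => h.2
    refine ⟨max 1 (4 * (2 ^ k * (D * C))), le_max_of_le_left zero_le_one, fun f A hf hA h =>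
      Nb.succ (fun z hz => (h.zero' (hm hz)).trans (le_mul_of_one_le_left hA (le_max_left _ _)))
        fun a => ?_⟩
    rw [pd_comp hT hf]
    have s1 := fun b => sm_pd a (sm_co hT b)
    have s2 : ∀ b, SmC (pd b f ∘ T) := fun b => (sm_pd b hf).comp hT
    refine (Nb.sum Finset.univ (fun b _ => sm_mul (s1 b) (s2 b)) fun b _ =>
      ((hb b).pd a).mul (s1 b) (s2 b) hD (mul_nonneg hC hA) (ih _ A (sm_pd b hf) hA (h.pd b))).le ?_
    have := mul_le_mul_of_nonneg_right (le_max_right 1 (4 * (2 ^ k * (D * C)))) hA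
    simp only [Finset.sum_const, Finset.card_univ, Fintype.card_fin, nsmul_eq_mul]
    push_cast
    linarith

theorem pd_shift (a : Fin 4) (g : Fn) (v : C2) :
    pd a (fun x => g (x - v)) = fun x => pd a g (x - v) := by
  funext x
  simp only [pd, sub_eq_add_neg, fderiv_comp_add_right]

theorem pdl_shift' (l : List (Fin 4)) (g : Fn) (v : C2) :
    pdl l (fun x => g (x - v)) = fun x => pdl l g (x - v) := by
  induction l with
  | nil => rfl
  | cons a l ih => rw [pdl_cons, ih, pd_shift]; rfl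

/-! ### Support -/

theorem Cs.ev {R : ℝ} (h : Cs R f) {z : C2} (hz : R < ‖z‖) : f =ᶠ[𝓝 z] fun _ => 0 :=
  ((isOpen_lt continuous_const continuous_norm).eventually_mem hz).mono fun y hy => h y hy

theorem Cs.pdl {R : ℝ} (h : Cs R f) (l : List (Fin 4)) : Cs R (pdl l f) := fun z hz => by
  rw [(pdl_congr l (h.ev hz)).eq_of_nhds, pdl_zero]

theorem Cs.pd {R : ℝ} (h : Cs R f) (a : Fin 4) : Cs R (pd a f) := h.pdl [a]

theorem Cs.Ee {R : ℝ} (h : Cs R f) (i : Fin 4) : Cs R (Ee i f) := fun z hz => by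
  simp only [II.Ee, (h.pd _).pd _ z hz, mul_zero, Finset.sum_const_zero]

theorem Cs.mul_left {R : ℝ} (h : Cs R f) (g : Fn) : Cs R (g * f) := fun z hz => by
  simp [h z hz]

theorem Cs.mul_right {R : ℝ} (h : Cs R f) (g : Fn) : Cs R (f * g) := fun z hz => by
  simp [h z hz]

theorem Cs.sub {R : ℝ} (h : Cs R f) (h' : Cs R g) : Cs R (f - g) := fun z hz => by
  simp [h z hz, h' z hz]

theorem Cs.add {R : ℝ} (h : Cs R f) (h' : Cs R g) : Cs R (f + g) := fun z hz => by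
  simp [h z hz, h' z hz]

theorem Cs.PiO {R : ℝ} (h : Cs R g) (f : Fn) : Cs R (PiO f g) := fun z hz => by
  simp only [III.PiO, (h.Ee _).Ee _ z hz, mul_zero, Finset.sum_const_zero]

theorem Nb.of_cs {R : ℝ} (hc : Cs R f) (hA : 0 ≤ A) (h : Nb (cb R) k f A) : Nb univ k f A :=
  fun l hl z _ => by
    rcases le_or_gt ‖z‖ R with hz | hz
    · exact h l hl z (mem_cb.2 hz)
    · rw [hc.pdl l z hz, abs_zero]; exact hA

/-- A smooth function equal to one near a compact set, with support in a given open set. -/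
theorem exists_cut {U : Set C2} (hK : IsCompact K) (hU : IsOpen U) (h : K ⊆ U) :
    ∃ ζ : Fn, SmC ζ ∧ HasCompactSupport ζ ∧ tsupport ζ ⊆ U ∧ ∀ z ∈ K, ζ =ᶠ[𝓝 z] fun _ => 1 := by
  obtain ⟨L, hL, h1, h2⟩ := exists_compact_between hK hU h
  obtain ⟨L', hL', h3, h4⟩ := exists_compact_between hK isOpen_interior h1
  obtain ⟨ζ, z1, z2, -⟩ := exists_contMDiffMap_zero_one_of_isClosed (modelWithCornersSelf ℝ C2)
    (n := ⊤) isOpen_interior.isClosed_compl hL'.isClosed
    (disjoint_compl_left_iff_subset.2 h4)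
  have hs : tsupport ζ ⊆ L := closure_minimal (fun z hz => interior_subset
    (not_not.1 fun c => hz (z1 c))) hL.isClosed
  exact ⟨ζ, ζ.contMDiff.contDiff, hL.of_isClosed_subset (isClosed_tsupport _) hs, hs.trans h2,
    fun z hz => (isOpen_interior.eventually_mem (h3 hz)).mono fun y hy => z2 (interior_subset hy)⟩

/-! ### Hoelder norms -/

theorem lip_of_pd (hf : SmC f) (h : ∀ a z, |pd a f z| ≤ A) (x y : C2) :
    |f x - f y| ≤ 4 * A * ‖x - y‖ := by
  have hA : 0 ≤ A := (abs_nonneg _).trans (h 0 0)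
  refine Convex.norm_image_sub_le_of_norm_fderiv_le (𝕜 := ℝ) (s := univ) (fun z _ => hf.diff z)
    (fun z _ => ContinuousLinearMap.opNorm_le_bound _ (by positivity) fun v => ?_) convex_univ
    (mem_univ y) (mem_univ x)
  rw [fderiv_apply, Real.norm_eq_abs]
  refine (Finset.abs_sum_le_sum_abs _ _).trans ((Finset.sum_le_sum (g := fun _ => ‖v‖ * A)
    fun a _ => ?_).trans_eq (by simp; ring))
  rw [abs_mul]
  exact mul_le_mul (abs_co_le a v) (h a z) (abs_nonneg _) (norm_nonneg _)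

namespace Hs

theorem nonneg (h : Hs f H) : 0 ≤ H := by
  have := (abs_nonneg _).trans (h (dir 0) 0)
  simpa [norm_dir] using this

theorem le (h : Hs f H) (hH : H ≤ H') : Hs f H' :=
  fun x y => (h x y).trans (mul_le_mul_of_nonneg_right hH (Real.sqrt_nonneg _))

theorem add (h : Hs f H) (h' : Hs g H') : Hs (f + g) (H + H') := fun x y => by
  rw [Pi.add_apply, Pi.add_apply, add_sub_add_comm, add_mul]
  exact (abs_add_le _ _).trans (add_le_add (h x y) (h' x y))

theorem neg (h : Hs f H) : Hs (-f) H := fun x y => by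
  rw [Pi.neg_apply, Pi.neg_apply, ← neg_sub', abs_neg]; exact h x y

theorem sub (h : Hs f H) (h' : Hs g H') : Hs (f - g) (H + H') := by
  rw [sub_eq_add_neg]; exact h.add h'.neg

theorem const (c : ℝ) (hH : 0 ≤ H) : Hs (fun _ => c) H := fun x y => by
  rw [sub_self, abs_zero]; positivity

theorem sum {J : Type*} (s : Finset J) {F : J → Fn} {c : J → ℝ} (h : ∀ j ∈ s, Hs (F j) (c j)) :
    Hs (fun z => ∑ j ∈ s, F j z) (∑ j ∈ s, c j) := fun x y => by
  rw [← Finset.sum_sub_distrib, Finset.sum_mul]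
  exact (Finset.abs_sum_le_sum_abs _ _).trans (Finset.sum_le_sum fun j hj => h j hj x y)

theorem mul (h : Hs f H) (h' : Hs g H') (hA : ∀ z, |f z| ≤ A) (hB : ∀ z, |g z| ≤ B) :
    Hs (f * g) (A * H' + H * B) := fun x y => by
  rw [Pi.mul_apply, Pi.mul_apply, show f x * g x - f y * g y =
    f x * (g x - g y) + (f x - f y) * g y by ring]
  refine (abs_add_le _ _).trans ?_
  rw [abs_mul, abs_mul]
  have h1 := mul_le_mul (hA x) (h' x y) (abs_nonneg _) ((abs_nonneg _).trans (hA x))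
  have h2 := mul_le_mul (h x y) (hB y) (abs_nonneg _) ((abs_nonneg _).trans (h x y))
  linarith

theorem of_nb (hf : SmC f) (h : Nb univ 1 f A) : Hs f (4 * A) := fun x y => by
  have hA := h.nonneg
  rcases le_total ‖x - y‖ 1 with c | c
  · refine (lip_of_pd hf (fun a z => h [a] le_rfl z (mem_univ _)) x y).trans
      (mul_le_mul_of_nonneg_left ?_ (by positivity))
    exact Real.le_sqrt_of_sq_le (by nlinarith [norm_nonneg (x - y)])
  · have h1 := (abs_sub _ _).trans (add_le_add (h.zero' (mem_univ x)) (h.zero' (mem_univ y)))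
    have h2 := mul_le_mul_of_nonneg_left (Real.one_le_sqrt.2 c) hA
    nlinarith

end Hs

theorem Sb.le (h : Sb k f H) (hH : H ≤ H') : Sb k f H' := fun l hl => (h l hl).le hH

theorem Sb.of_nb (hf : SmC f) (h : Nb univ (k + 1) f A) : Sb k f (4 * A) := fun l hl =>
  Hs.of_nb (sm_pdl l hf) (Nb.pdl l (by rwa [hl, add_comm]))

theorem Sb.zero (hH : 0 ≤ H) : Sb k 0 H := fun l _ => by
  rw [show (0 : Fn) = fun _ => 0 from rfl, pdl_zero]; exact Hs.const 0 hH

/-- Interpolation. -/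
theorem interp (hf : SmC f) (a : Fin 4) (h0 : ∀ z, |f z| ≤ A) (h1 : Hs (pd a f) H) {r : ℝ}
    (hr : 0 < r) (x : C2) : |pd a f x| ≤ 2 * A / r + H * √r := by
  obtain ⟨s, hs, e⟩ := exists_hasDerivAt_eq_slope (fun r : ℝ => f (x + r • dir a))
    (fun s => pd a f (x + s • dir a)) hr
    (fun s _ => (hasDerivAt_line hf a x s).continuousAt.continuousWithinAt)
    fun s _ => hasDerivAt_line hf a x s
  have h2 := h1 x (x + s • dir a)
  rw [sub_add_cancel_left, norm_neg, norm_smul, norm_dir, mul_one, Real.norm_eq_abs,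
    abs_of_pos hs.1] at h2
  have h3 := mul_le_mul_of_nonneg_left (Real.sqrt_le_sqrt hs.2.le) h1.nonneg
  have h4 : |pd a f (x + s • dir a)| ≤ 2 * A / r := by
    rw [e, sub_zero, abs_div, abs_of_pos hr]
    refine div_le_div_of_nonneg_right ((abs_sub _ _).trans ?_) hr.le
    linarith [h0 (x + r • dir a), h0 (x + (0 : ℝ) • dir a)]
  linarith [abs_sub_abs_le_abs_sub (pd a f x) (pd a f (x + s • dir a))]

theorem Nb.interp (hf : SmC f) (h0 : Nb univ k f A) (h1 : Sb (k + 1) f H) {r : ℝ} (hr : 0 < r) :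
    Nb univ (k + 1) f (A + 2 * A / r + H * √r) := fun l hl z hz => by
  have hA := h0.nonneg
  have hH := (h1 (List.replicate (k + 1) 0) (by simp)).nonneg
  have p1 : 0 ≤ 2 * A / r := by positivity
  have p2 : 0 ≤ H * √r := by positivity
  rcases hl.eq_or_lt with e | e
  · obtain ⟨a, l', rfl⟩ := List.exists_cons_of_length_eq_add_one e
    have := III.interp (sm_pdl l' hf) a
      (fun y => h0 l' (by simpa using e.le) y (mem_univ _)) (h1 _ e) hr z
    rw [pdl_cons]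
    linarith
  · linarith [h0 l (Nat.lt_succ_iff.1 e) z hz]

/-! ### The classes `Bd`, `TL`, `Dk` -/

namespace Bd

theorem bd0 (h : Bd f) (k : ℕ) : ∃ C, 0 ≤ C ∧ Nb univ k f C :=
  let ⟨C, hC⟩ := h.bd k; ⟨C, hC.nonneg, hC⟩
theorem pdl (h : Bd f) (l : List (Fin 4)) : Bd (pdl l f) :=
  ⟨sm_pdl l h.sm, fun _ => (h.bd _).imp fun _ hC => hC.pdl l⟩
theorem pd (h : Bd f) (a : Fin 4) : Bd (pd a f) := h.pdl [a]
theorem lap (h : Bd f) : Bd (lap f) :=
  ⟨sm_lap h.sm, fun _ => let ⟨_, hC⟩ := h.bd _; ⟨_, hC.lap h.sm⟩⟩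
theorem const (c : ℝ) : Bd fun _ => c := ⟨sm_const c, fun _ => ⟨_, Nb.const c⟩⟩
theorem zero : Bd 0 := const 0
theorem add (h : Bd f) (h' : Bd g) : Bd (f + g) := ⟨sm_add h.sm h'.sm, fun k =>
  let ⟨_, a⟩ := h.bd k; let ⟨_, b⟩ := h'.bd k; ⟨_, a.add h.sm h'.sm b⟩⟩
theorem sub (h : Bd f) (h' : Bd g) : Bd (f - g) := ⟨sm_sub h.sm h'.sm, fun k =>
  let ⟨_, a⟩ := h.bd k; let ⟨_, b⟩ := h'.bd k; ⟨_, a.sub h.sm h'.sm b⟩⟩
theorem mul (h : Bd f) (h' : Bd g) : Bd (f * g) := ⟨sm_mul h.sm h'.sm, fun k =>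
  let ⟨_, a⟩ := h.bd k; let ⟨_, b⟩ := h'.bd k; ⟨_, a.mul h.sm h'.sm a.nonneg b.nonneg b⟩⟩
theorem abs (h : Bd f) : ∃ A, ∀ z, |f z| ≤ A := (h.bd 0).imp fun _ hC _ => hC.zero' (mem_univ _)

end Bd

namespace TL

variable {τ τ' : ℝ} {F G : ℝ → Fn}

theorem at' (h : TL τ F) {t : ℝ} (ht : t ∈ Icc 0 τ) : Bd (F t) :=
  ⟨h.sm t ht, fun k => (h.bd k).imp fun _ hC => hC t ht⟩

theorem mono (h : TL τ F) (hτ : τ' ≤ τ) : TL τ' F :=
  have s : Icc 0 τ' ⊆ Icc 0 τ := Icc_subset_Icc_right hτ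
  ⟨fun t ht => h.sm t (s ht), fun k => (h.bd k).imp fun _ hC t ht => hC t (s ht),
    fun k => (h.lip k).imp fun _ hC u hu t ht => hC u (s hu) t (s ht)⟩

theorem bd0 (h : TL τ F) (k : ℕ) : ∃ C, 0 ≤ C ∧ ∀ t ∈ Icc 0 τ, Nb univ k (F t) C :=
  let ⟨_, hC⟩ := h.bd k; ⟨_, le_max_right _ _, fun t ht => (hC t ht).max0⟩

theorem lip0 (h : TL τ F) (k : ℕ) :
    ∃ C, 0 ≤ C ∧ ∀ s ∈ Icc 0 τ, ∀ t ∈ Icc 0 τ, Nb univ k (F t - F s) (C * |t - s|) :=
  let ⟨C, hC⟩ := h.lip k
  ⟨max C 0, le_max_right _ _, fun s hs t ht =>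
    (hC s hs t ht).le (mul_le_mul_of_nonneg_right (le_max_left _ _) (abs_nonneg _))⟩

theorem pdl (h : TL τ F) (l : List (Fin 4)) : TL τ fun t => pdl l (F t) :=
  ⟨fun t ht => sm_pdl l (h.sm t ht), fun _ => (h.bd _).imp fun _ hC t ht => (hC t ht).pdl l,
    fun _ => (h.lip _).imp fun _ hC s hs t ht => by
      rw [← pdl_sub l (h.sm t ht) (h.sm s hs)]; exact (hC s hs t ht).pdl l⟩

theorem lap (h : TL τ F) : TL τ fun t => lap (F t) :=
  ⟨fun t ht => sm_lap (h.sm t ht),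
    fun k => let ⟨_, hC⟩ := h.bd (k + 2); ⟨_, fun t ht => (hC t ht).lap (h.sm t ht)⟩,
    fun k => let ⟨C, hC⟩ := h.lip (k + 2); ⟨4 * C, fun s hs t ht => by
      have e : Pool.Agent.P.MP_2cea5e_gt.lap (F t) - Pool.Agent.P.MP_2cea5e_gt.lap (F s) =
          Pool.Agent.P.MP_2cea5e_gt.lap (F t - F s) := by
        funext z
        simp only [Pool.Agent.P.MP_2cea5e_gt.lap, Pi.sub_apply, ← Finset.sum_sub_distrib]
        exact Finset.sum_congr rfl fun a _ =>
          (congrFun (pdl_sub [a, a] (h.sm t ht) (h.sm s hs)) z).symm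
      rw [e, mul_assoc]
      exact (hC s hs t ht).lap (sm_sub (h.sm t ht) (h.sm s hs))⟩⟩

theorem sub (h : TL τ F) (h' : TL τ G) : TL τ fun t => F t - G t :=
  ⟨fun t ht => sm_sub (h.sm t ht) (h'.sm t ht),
    fun k => let ⟨_, a⟩ := h.bd k; let ⟨_, b⟩ := h'.bd k
      ⟨_, fun t ht => (a t ht).sub (h.sm t ht) (h'.sm t ht) (b t ht)⟩,
    fun k => let ⟨C, a⟩ := h.lip k; let ⟨D, b⟩ := h'.lip k
      ⟨C + D, fun s hs t ht => by
        rw [sub_sub_sub_comm, add_mul]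
        exact (a s hs t ht).sub (sm_sub (h.sm t ht) (h.sm s hs))
          (sm_sub (h'.sm t ht) (h'.sm s hs)) (b s hs t ht)⟩⟩

theorem zero : TL τ fun _ => 0 :=
  ⟨fun _ _ => sm_const 0, fun _ => ⟨0, fun _ _ => Nb.zero le_rfl⟩,
    fun _ => ⟨0, fun _ _ _ _ => by rw [sub_self, zero_mul]; exact Nb.zero le_rfl⟩⟩

end TL

theorem Good.mono {α : Type} {η τ τ' : ℝ} {W : ℝ → α → Fn} (h : Good η τ W) (hτ : τ' ≤ τ) :
    Good η τ' W := ⟨fun t ht => h.mem t (Icc_subset_Icc_right hτ ht), fun b => (h.tl b).mono hτ⟩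

theorem Dk.pdl {L : Fn} (h : Dk L) (l : List (Fin 4)) : Dk (pdl l L) :=
  ⟨sm_pdl l h.sm, fun l' N => by rw [← pdl_append]; exact h.dec _ N⟩

theorem Dk.pd {L : Fn} (h : Dk L) (a : Fin 4) : Dk (pd a L) := h.pdl [a]

theorem Dk.integrable {L : Fn} (h : Dk L) (N : ℕ) : Integrable fun y => (1 + ‖y‖) ^ N * |L y| := by
  obtain ⟨C, hC⟩ := h.dec [] (N + 5)
  have h1 : Integrable fun y : C2 => (1 + ‖y‖) ^ (-(5 : ℝ)) :=
    integrable_one_add_norm (by simp [Module.finrank_pi_fintype]; norm_num)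
  refine (h1.const_mul C).mono' (((continuous_const.add continuous_norm).pow N).mul
    h.sm.cont.abs).aestronglyMeasurable (Eventually.of_forall fun y => ?_)
  have p : 0 < 1 + ‖y‖ := by positivity
  rw [Real.norm_of_nonneg (by positivity), Real.rpow_neg p.le, ← div_eq_mul_inv,
    le_div_iff₀ (by positivity), show (5 : ℝ) = (5 : ℕ) by norm_num, Real.rpow_natCast]
  exact le_of_eq_of_le (by simp only [pdl_nil]; ring) (hC y)

theorem Dk.int {L : Fn} (h : Dk L) : Integrable L :=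
  (h.integrable 0).mono' h.sm.cont.aestronglyMeasurable (Eventually.of_forall fun y => by simp)

/-! ### Smoothness from a family of derivatives, time derivatives -/

theorem sm_family (D : List (Fin 4) → Fn)
    (h : ∀ l z, HasFDerivAt (D l) (∑ a, D (a :: l) z • co a) z) :
    SmC (D []) ∧ ∀ l, pdl l (D []) = D l := by
  have h1 : ∀ n : ℕ, ∀ l, ContDiff ℝ n (D l) := fun n => by
    induction n with
    | zero => exact fun l => contDiff_zero.2 (continuous_iff_continuousAt.2 fun z =>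
        (h l z).continuousAt)
    | succ n ih =>
      intro l
      rw [Nat.cast_succ, contDiff_succ_iff_hasFDerivAt]
      exact ⟨_, ContDiff.sum fun a _ => (ih (a :: l)).smul contDiff_const, h l⟩
  refine ⟨contDiff_infty.2 fun n => h1 n [], fun l => ?_⟩
  induction l with
  | nil => rfl
  | cons a l ih =>
    funext z
    rw [pdl_cons, ih, pd, (h l z).fderiv]
    simp [co_dir]

theorem der_of_taylor {u w : ℝ → ℝ} {a b t : ℝ}
    (h : ∀ s ∈ Icc a b, ∀ s' ∈ Icc a b, s ≤ s' → |u s' - u s - (s' - s) * w s| ≤ C * (s' - s) ^ 2)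
    (ht : t ∈ Ioo a b) : HasDerivAt u (w t) t := by
  have hC : 0 ≤ C := nonneg_of_mul_nonneg_left ((abs_nonneg _).trans
    (h t ⟨ht.1.le, ht.2.le⟩ b ⟨ht.1.le.trans ht.2.le, le_rfl⟩ ht.2.le))
    (pow_pos (sub_pos.2 ht.2) 2)
  have key : ∀ᶠ r in 𝓝 (0 : ℝ), ‖u (t + r) - u t - r • w t‖ ≤ 7 * C * ‖r ^ 2‖ := by
    filter_upwards [Ioo_mem_nhds (show -min (t - a) (b - t) < 0 from
      neg_lt_zero.2 (lt_min (sub_pos.2 ht.1) (sub_pos.2 ht.2)))
      (lt_min (sub_pos.2 ht.1) (sub_pos.2 ht.2))] with r hr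
    have m1 := min_le_left (t - a) (b - t)
    have m2 := min_le_right (t - a) (b - t)
    have tI : t ∈ Icc a b := ⟨ht.1.le, ht.2.le⟩
    have pI : t + r ∈ Icc a b := ⟨by linarith [hr.1], by linarith [hr.2]⟩
    have nI : t - r ∈ Icc a b := ⟨by linarith [hr.2], by linarith [hr.1]⟩
    rw [Real.norm_eq_abs, Real.norm_of_nonneg (sq_nonneg r), smul_eq_mul]
    have q := mul_nonneg hC (sq_nonneg r)
    rcases le_total 0 r with c | c
    · have := h t tI _ pI (by linarith)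
      rw [add_sub_cancel_left] at this
      linarith
    · have h1 := abs_le.1 (h _ pI t tI (by linarith))
      have h2 := abs_le.1 (h t tI _ nI (by linarith))
      have h3 := abs_le.1 (h _ pI _ nI (by linarith))
      rw [abs_le]
      constructor <;> nlinarith [h1.1, h1.2, h2.1, h2.2, h3.1, h3.2]
  exact hasDerivAt_iff_isLittleO_nhds_zero.2
    ((Asymptotics.IsBigO.of_bound _ key).trans_isLittleO (Asymptotics.isLittleO_pow_id one_lt_two))

/-! ### Linearity of `Ee` -/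

theorem Ee_add (i : Fin 4) (hf : SmC f) (hg : SmC g) : Ee i (f + g) = Ee i f + Ee i g := by
  funext z
  simp only [Ee, pd_add _ hf hg, pd_add _ (sm_pd _ hf) (sm_pd _ hg), Pi.add_apply, mul_add,
    Finset.sum_add_distrib]

theorem Ee_sub (i : Fin 4) (hf : SmC f) (hg : SmC g) : Ee i (f - g) = Ee i f - Ee i g := by
  funext z
  simp only [Ee, pd_sub _ hf hg, pd_sub _ (sm_pd _ hf) (sm_pd _ hg), Pi.sub_apply, mul_sub,
    Finset.sum_sub_distrib]

theorem Ee_cmul (i : Fin 4) (c : ℝ) (hf : SmC f) :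
    Ee i (fun z => c * f z) = fun z => c * Ee i f z := by
  funext z
  simp only [Ee, pd_cmul' _ c hf, pd_cmul' _ c (sm_pd _ hf), Finset.mul_sum, mul_left_comm c]

theorem Ee_sum {J : Type*} (i : Fin 4) (s : Finset J) {F : J → Fn} (h : ∀ j ∈ s, SmC (F j)) :
    Ee i (fun z => ∑ j ∈ s, F j z) = fun z => ∑ j ∈ s, Ee i (F j) z := by
  funext z
  have e : ∀ p q, pd p (pd q fun z => ∑ j ∈ s, F j z) z = ∑ j ∈ s, pd p (pd q (F j)) z :=
    fun p q => congrFun (pdl_sum' [p, q] s h) z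
  simp only [Ee, e, Finset.mul_sum]
  rw [Finset.sum_comm (s := s)]
  exact Finset.sum_congr rfl fun p _ => Finset.sum_comm

theorem Ee_congr (i : Fin 4) {z : C2} (h : f =ᶠ[𝓝 z] g) : Ee i f =ᶠ[𝓝 z] Ee i g := by
  filter_upwards [h.eventuallyEq_nhds] with y hy
  simp only [Ee, fun p q => (pd_congr p (pd_congr q hy)).eq_of_nhds]

theorem sm_aff' (z₀ : C2) (J : M2) : ContDiff ℝ ∞ (aff z₀ J) :=
  contDiff_const.add ((LinearMap.toContinuousLinearMap J.mulVecLin).restrictScalars ℝ).contDiff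

theorem sm_affi (z₀ : C2) (J : M2) : ContDiff ℝ ∞ (affi z₀ J) := sm_aff' _ _

theorem aff_affi (z₀ : C2) {J : M2} (h : J.det ≠ 0) (z : C2) : aff z₀ J (affi z₀ J z) = z := by
  simp only [aff, affi, Matrix.mulVec_add, Matrix.mulVec_neg, Matrix.mulVec_mulVec,
    Matrix.mul_nonsing_inv _ (isUnit_iff_ne_zero.2 h), Matrix.one_mulVec, add_neg_cancel_left]

theorem affi_aff (z₀ : C2) {J : M2} (h : J.det ≠ 0) (y : C2) : affi z₀ J (aff z₀ J y) = y := by
  simp only [aff, affi, Matrix.mulVec_add, Matrix.mulVec_mulVec,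
    Matrix.nonsing_inv_mul _ (isUnit_iff_ne_zero.2 h), Matrix.one_mulVec, neg_add_cancel_left]

end Pool.Agent.P.MP_2cea5e_gt.III
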